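import Pool.Agent.Work.MP_8f87b2_h49.JVJ1
import Pool.Agent.Work.MP_8f87b2_h61.JsW

/-!
# MP_8f87b2_co: J1a at `(s, 3, 2)` (`TyJs`) against JV (`Is9 nil nil Z`, every `Z`), words
-/

set_option autoImplicit false

namespace Pool.OddHC

open Finset BinaryTree Equiv

variable {k : ℕ} {Z : BinaryTree Unit}

/-- **TyJs against JV**, words, every `Z` without parts 1 -/
theorem J1.TyJs.disj_JV {F F' : Set (Cyc k)} {g g' : DG k} (h : J1.TyJs F g) (hk : 11 ≤ k)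
    (h9 : Is9 .nil .nil Z F' g') (hF : Disjoint F F') (h0 : (OddHC.cont Z).count 1 = 0) (h3 : 3 ≤ ht Z) :
    Disjoint g.B g'.B := by
  obtain ⟨n, w0, _, h1, h4, rfl, rfl⟩ := h
  exact J1V.jX_JV h1 h4 h9 (fun hm => Set.disjoint_left.1 hF rfl hm) h0 h3 (J1V.noC_s3 hk h1 h9)

end Pool.OddHC
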