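import Pool.Agent.Work.MP_8f87b2_h49.JVw
import Pool.Agent.Work.MP_8f87b2_h22.JC

/-!
# MP_8f87b2_co: the one-soliton gadgets (JG: JM, JY, J5, NM, J3) against JV (`Is9 nil nil Z`), words

`cont Z` without parts 1, `3 ≤ ht Z`, at least two parts `≥ 3`.
-/

set_option autoImplicit false

namespace Pool.OddHC

open Finset Equiv BinaryTree Pool.Agent.Work.MP_8f87b2_co

namespace J

variable {k n : ℕ} {Z : BinaryTree Unit}

theorem p3_s2 {s b : ℕ} (h : 3 ≤ s) : p3 ({s} + Multiset.replicate b 2) = 1 := by
  rw [p3_add, p3_single h, p3_low (fun x hx => (Multiset.eq_of_mem_replicate hx).le)]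

theorem p3_one : p3 {1} = 0 := p3_low (fun x hx => by
  rw [Multiset.mem_singleton] at hx
  omega)

/-- a word beginning with `(()[2]^(t+1))` contains a part 1 -/
theorem one_of_first {t : ℕ} {Y : BinaryTree Unit} :
    1 ≤ (OddHC.cont ((.nil △ b2 (t + 1)) △ Y)).count 1 := by
  rw [cont_node, cont_node, raise_nil, Multiset.count_add]
  have h : (2 : ℕ) ≤ ({1} + OddHC.cont (b2 (t + 1))).sup := by
    rw [Multiset.sup_add, cont_b2, Multiset.replicate_succ, Multiset.sup_cons]
    exact le_sup_of_le_right le_sup_left
  rw [H1.raise_one h, Multiset.count_add]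
  have : ({1} : Multiset ℕ).count 1 = 1 := by simp
  omega

theorem one_of_nil {Y : BinaryTree Unit} : 1 ≤ (OddHC.cont (.nil △ Y)).count 1 := by
  rw [cont_node, raise_nil, Multiset.count_add]
  have : ({1} : Multiset ℕ).count 1 = 1 := by simp
  omega

theorem ht_b2V (t : ℕ) : OddHC.ht (.nil △ b2 (t + 1)) ≤ 2 := by
  have := ht_b2 (t + 1)
  rw [ht_node]
  have h0 : OddHC.ht (BinaryTree.nil : BinaryTree Unit) = 0 := rfl
  omega

/-- **JG against JV**, words -/
theorem JG.disj_JV (hn : 1 ≤ n) {B : Finset (X k)} {P U M : Set (ZMod (2 * n + 1) → ℕ)}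
    (h : JG n B P U M) {F : Set (Cyc k)} {g : DG k} (h9 : Is9 .nil .nil Z F g)
    (h0 : (OddHC.cont Z).count 1 = 0) (h3 : 3 ≤ OddHC.ht Z) (h2 : 2 ≤ p3 (OddHC.cont Z)) :
    ∀ w ∈ B, w ∉ g.B := by
  intro w hw hwg
  obtain ⟨i, hi, e, -⟩ := h9.words w hwg
  obtain ⟨q1, q2⟩ := w9_cont h0 (by omega) hi e
  have hZ : Z ≠ .nil := by
    rintro rfl
    rw [OddHC.ht] at h3
    omega
  have hs := (ht_sq hZ).1
  obtain ⟨e0, e1, e2, e3, e4, e5, e6, e7, e8⟩ := w9_forms Z
  obtain ⟨A, Y, rfl⟩ : ∃ A Y, Z = A △ Y := by
    cases Z with
    | nil => exact absurd rfl hZ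
    | node _ A Y => exact ⟨A, Y, rfl⟩
  obtain ⟨s, b, hs3, hc | hc | hc | ⟨hc, t, u, D, hD, f | f | f⟩ | ⟨hc, t, u, D, hD, f⟩⟩ :=
    h.cases2 hn hw
  · rw [hc, p3_s2 hs3] at q1
    omega
  · rw [hc, p3_add, p3_s2 hs3, p3_one] at q1
    omega
  · rw [hc, p3_add, p3_add, p3_s2 hs3, p3_one] at q1
    omega
  · -- `(()B)S`
    have hR := RR_ne u D 0
    have hb := ht_b2V t
    have hbn : b2 (t + 1) ≠ .nil := by
      intro h
      have := congrArg cs h
      rw [b2_front] at this
      simp at this
    rw [f] at e
    interval_cases i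
    · rw [e0] at e
      have h5 := (node_inj' e).1
      have h6 := one_of_first (t := t) (Y := Y)
      rw [h5, h0] at h6
      omega
    · rw [e1] at e
      exact hbn (node_inj' (node_inj' e).1).2
    · rw [e2] at e
      exact hR (node_inj' e).2
    · rw [e3] at e
      exact hR (node_inj' e).2
    · rw [e4] at e
      exact hR (node_inj' e).2
    · rw [e5] at e
      rw [(node_inj' e).1] at hb
      omega
    · rw [e6] at e
      exact hR (node_inj' e).2
    · rw [e7] at e
      rw [(node_inj' e).1] at hb
      omega
    · rw [e8] at e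
      have := (node_inj' e).1
      simp at this
  · -- `()(B)S`
    have hb := ht_b2 (t + 1)
    rw [f] at e
    interval_cases i
    · rw [e0] at e
      have h5 := (node_inj' e).1
      have h6 := one_of_nil (Y := Y)
      rw [h5, h0] at h6
      omega
    · rw [e1] at e
      have := (node_inj' e).1
      simp at this
    · rw [e2] at e
      have := (node_inj' e).1
      simp at this
    · rw [e3] at e
      have := (node_inj' e).1
      simp at this
    · rw [e4] at e
      exact absurd (node_inj' e).1.symm (H1.app_ne (by simp))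
    · rw [e5] at e
      have := (node_inj' e).1
      simp at this
    · rw [e6] at e
      have := (node_inj' e).1
      simp at this
    · rw [e7] at e
      have := (node_inj' e).1
      rw [← this, OddHC.ht] at hs
      omega
    · rw [e8] at e
      have := (node_inj' (node_inj' e).2).1
      rw [this] at hb
      omega
  · -- `(B)S()`
    have hb := ht_b2 (t + 1)
    have hbn : b2 (t + 1) ≠ .nil := by
      intro h
      have := congrArg cs h
      rw [b2_front] at this
      simp at this
    have hR : app (RR u D 0) (.nil △ .nil) ≠ .nil := H1.app_ne (by simp)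
    rw [f] at e
    interval_cases i
    · rw [e0] at e
      have h5 : app (b2 (t + 1) △ RR u D 0) (.nil △ .nil) =
        app (A △ Y) ((.nil △ .nil) △ .nil) := e
      have := (H1.app_snoc h5).2
      simp at this
    · rw [e1] at e
      have h5 := (node_inj' e).1
      have h6 := congrArg cs h5
      rw [b2_front] at h6
      simp at h6
    · rw [e2] at e
      exact hR (node_inj' e).2
    · rw [e3] at e
      exact hR (node_inj' e).2
    · rw [e4] at e
      exact hR (node_inj' e).2
    · rw [e5] at e
      rw [(node_inj' e).1] at hb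
      omega
    · rw [e6] at e
      exact hR (node_inj' e).2
    · rw [e7] at e
      rw [(node_inj' e).1] at hb
      omega
    · rw [e8] at e
      exact hbn (node_inj' e).1
  · -- `((B)S)`
    have hR := RR_ne u D 0
    have hb := ht_b2 (t + 1)
    have hbn : b2 (t + 1) ≠ .nil := by
      intro h
      have := congrArg cs h
      rw [b2_front] at this
      simp at this
    have h1 : (OddHC.cont w.1).count 1 = 0 := by
      rw [hc, Multiset.count_add, Multiset.count_add, Multiset.count_replicate, if_neg (by omega),
        Multiset.count_singleton, if_neg (by omega), Multiset.count_singleton, if_neg (by omega)]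
    rw [h1] at q2
    rw [f] at e
    interval_cases i
    · rw [e0] at e
      exact absurd (node_inj' e).2.symm (H1.app_ne (by simp))
    · rw [e1] at e
      exact absurd (node_inj' e).2.symm (by simp)
    · exact absurd q2 (by simp)
    · rw [e3] at e
      exact hR (node_inj' (node_inj' e).1).2
    · exact absurd q2 (by simp)
    · exact absurd q2 (by simp)
    · rw [e6] at e
      rw [(node_inj' (node_inj' e).1).1] at hb
      omega
    · exact absurd q2 (by simp)
    · exact absurd q2 (by simp)

end J

end Pool.OddHC
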