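import Pool.Agent.Work.MP_8f87b2_h99.Ty9
import Pool.Agent.Work.MP_8f87b2_h71.H1Gad

/-!
# MP_8f87b2_co: the nine words of JV (`Is9 nil nil Z`), forms and contents

`w9_forms`: `Z(())`, `(())Z`, `(()Z)`, `((Z))`, `(Z())`, `(Z)()`, `((Z')B')`, `(Z')B'()`, `()(Z')B'`, `(Z', B') = sq Z`.
`p3 M` = the number of parts which are at least 3.
-/

set_option autoImplicit false

namespace Pool.OddHC

open Finset Equiv BinaryTree Pool.Agent.Work.MP_8f87b2_co

variable {k : ℕ} {Z : BinaryTree Unit}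

/-- the number of parts `≥ 3` -/
def p3 (M : Multiset ℕ) : ℕ := M.countP (3 ≤ ·)

theorem p3_add (M N : Multiset ℕ) : p3 (M + N) = p3 M + p3 N := Multiset.countP_add _ _ _

theorem p3_zero : p3 0 = 0 := rfl

theorem p3_raise_ge (M : Multiset ℕ) : p3 M ≤ p3 (raise M) := by
  rcases eq_or_ne M 0 with rfl | h
  · exact Nat.zero_le _
  · have e := Multiset.cons_erase (sup_mem h)
    have h1 : p3 M = p3 (M.erase M.sup) + if 3 ≤ M.sup then 1 else 0 := by
      conv_lhs => rw [← e]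
      exact Multiset.countP_cons _ _ _
    have h2 : p3 (raise M) = p3 (M.erase M.sup) + if 3 ≤ M.sup + 1 then 1 else 0 :=
      Multiset.countP_cons _ _ _
    rw [h1, h2]
    split_ifs <;> omega

theorem p3_single {s : ℕ} (h : 3 ≤ s) : p3 {s} = 1 := by
  change Multiset.countP _ (s ::ₘ 0) = 1
  rw [Multiset.countP_cons, if_pos h]
  rfl

theorem p3_low {M : Multiset ℕ} (h : ∀ x ∈ M, x ≤ 2) : p3 M = 0 := by
  unfold p3
  rw [Multiset.countP_eq_zero]
  intro x hx
  have := h x hx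
  omega

/-- the square keeps the content -/
theorem cont_sqV (h : Z ≠ .nil) : cont (Tsq.sq Z).1 + cont (Tsq.sq Z).2 = cont Z := by
  let x : X Z.numNodes := ⟨Z, mem_treesOfNumNodesEq.2 rfl⟩
  have e1 : (TT (TT x)).1 = app (Tsq.sq Z).2 (Tsq.sq Z).1 := Tsq.TT_sq x h
  have e2 : OddHC.cont (TT (TT x)).1 = OddHC.cont Z := by
    rw [TT_apply, cont_TF, TT_apply, cont_TF]
  rw [e1, cont_app] at e2
  rw [add_comm]
  exact e2

/-- the nine words -/
theorem w9_forms (Z : BinaryTree Unit) :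
    w9L .nil .nil Z (xT Z) 0 = app Z ((.nil △ .nil) △ .nil) ∧
    w9L .nil .nil Z (xT Z) 1 = (.nil △ .nil) △ Z ∧
    w9L .nil .nil Z (xT Z) 2 = (.nil △ Z) △ .nil ∧
    w9L .nil .nil Z (xT Z) 3 = (Z △ .nil) △ .nil ∧
    w9L .nil .nil Z (xT Z) 4 = app Z (.nil △ .nil) △ .nil ∧
    w9L .nil .nil Z (xT Z) 5 = Z △ (.nil △ .nil) ∧
    w9L .nil .nil Z (xT Z) 6 = ((Tsq.sq Z).1 △ (Tsq.sq Z).2) △ .nil ∧
    w9L .nil .nil Z (xT Z) 7 = (Tsq.sq Z).1 △ app (Tsq.sq Z).2 (.nil △ .nil) ∧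
    w9L .nil .nil Z (xT Z) 8 = .nil △ ((Tsq.sq Z).1 △ (Tsq.sq Z).2) := by
  rw [xT_sq]
  exact ⟨rfl, rfl, rfl, rfl, rfl, rfl, rfl, rfl, rfl⟩

/-- case distinction on the nine words -/
theorem w9_cases {w : BinaryTree Unit} {i : ℕ} (hi : i < 9) (e : w = w9L .nil .nil Z (xT Z) i) :
    w = app Z ((.nil △ .nil) △ .nil) ∨ w = (.nil △ .nil) △ Z ∨ w = (.nil △ Z) △ .nil ∨
    w = (Z △ .nil) △ .nil ∨ w = app Z (.nil △ .nil) △ .nil ∨ w = Z △ (.nil △ .nil) ∨
    w = ((Tsq.sq Z).1 △ (Tsq.sq Z).2) △ .nil ∨ w = (Tsq.sq Z).1 △ app (Tsq.sq Z).2 (.nil △ .nil) ∨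
    w = .nil △ ((Tsq.sq Z).1 △ (Tsq.sq Z).2) := by
  obtain ⟨h0, h1, h2, h3, h4, h5, h6, h7, h8⟩ := w9_forms Z
  interval_cases i
  · exact Or.inl (e.trans h0)
  · exact Or.inr (Or.inl (e.trans h1))
  · exact Or.inr (Or.inr (Or.inl (e.trans h2)))
  · exact Or.inr (Or.inr (Or.inr (Or.inl (e.trans h3))))
  · exact Or.inr (Or.inr (Or.inr (Or.inr (Or.inl (e.trans h4)))))
  · exact Or.inr (Or.inr (Or.inr (Or.inr (Or.inr (Or.inl (e.trans h5))))))
  · exact Or.inr (Or.inr (Or.inr (Or.inr (Or.inr (Or.inr (Or.inl (e.trans h6)))))))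
  · exact Or.inr (Or.inr (Or.inr (Or.inr (Or.inr (Or.inr (Or.inr (Or.inl (e.trans h7))))))))
  · exact Or.inr (Or.inr (Or.inr (Or.inr (Or.inr (Or.inr (Or.inr (Or.inr (e.trans h8))))))))

theorem cont_pp : cont ((.nil : BinaryTree Unit) △ .nil) = {1} := by
  rw [cont_node, cont_nil, raise_zero, add_zero]

theorem cont_ppp : cont (((.nil : BinaryTree Unit) △ .nil) △ .nil) = {2} := by
  rw [cont_node, cont_pp, cont_nil, add_zero]
  rfl

/-- the facts on the contents of the nine words of JV: at most one part 1; number of big parts -/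
theorem w9_cont (h0 : (cont Z).count 1 = 0) (h3 : 2 ≤ ht Z) {w : BinaryTree Unit} {i : ℕ}
    (hi : i < 9) (e : w = w9L .nil .nil Z (xT Z) i) :
    p3 (cont Z) ≤ p3 (cont w) ∧
      (cont w).count 1 = if i = 0 ∨ i = 1 ∨ i = 3 ∨ i = 6 then 0 else 1 := by
  have hZ : Z ≠ .nil := by
    rintro rfl
    rw [ht] at h3
    omega
  have hs := cont_sqV hZ
  have hp : p3 (cont Z) = p3 (cont (Tsq.sq Z).1) + p3 (cont (Tsq.sq Z).2) := by
    rw [← hs, p3_add]
  have hc : (cont (Tsq.sq Z).1).count 1 + (cont (Tsq.sq Z).2).count 1 = 0 := by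
    rw [← Multiset.count_add, hs, h0]
  have hz : 2 ≤ (cont Z).sup := by rw [← OddHC.ht_eq]; exact h3
  have hz' : 2 ≤ (cont (Tsq.sq Z).1).sup := by
    rw [← OddHC.ht_eq, (ht_sq hZ).1]; exact h3
  have c1 : ∀ M : Multiset ℕ, 2 ≤ M.sup → (raise M).count 1 = M.count 1 := fun M h => H1.raise_one h
  have one : ({1} : Multiset ℕ).count 1 = 1 := by simp
  have two : ({2} : Multiset ℕ).count 1 = 0 := by simp
  have g1 := p3_raise_ge (cont (Tsq.sq Z).1)
  have g2 := p3_raise_ge (cont Z)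
  obtain ⟨e0, e1, e2, e3, e4, e5, e6, e7, e8⟩ := w9_forms Z
  interval_cases i
  · rw [e, e0, cont_app, cont_ppp, p3_add, Multiset.count_add, h0, two]
    exact ⟨by omega, by simp⟩
  · rw [e, e1, cont_node, cont_pp, p3_add, Multiset.count_add, h0]
    exact ⟨by omega, by simp [raise]⟩
  · rw [e, e2, cont_node, cont_node, cont_nil, raise_zero, add_zero]
    refine ⟨?_, ?_⟩
    · have := p3_raise_ge ({1} + cont Z)
      rw [p3_add] at this
      omega
    · rw [c1 _ (by rw [Multiset.sup_add]; omega), Multiset.count_add, h0, one]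
      simp
  · rw [e, e3, cont_node, cont_node, cont_nil, add_zero, add_zero]
    refine ⟨?_, ?_⟩
    · have := p3_raise_ge (raise (cont Z))
      omega
    · rw [c1 _ (by rw [sup_raise]; omega), c1 _ hz, h0]
      simp
  · rw [e, e4, cont_node, cont_app, cont_pp, cont_nil, add_zero]
    refine ⟨?_, ?_⟩
    · have := p3_raise_ge (cont Z + {1})
      rw [p3_add] at this
      omega
    · rw [c1 _ (by rw [Multiset.sup_add]; omega), Multiset.count_add, h0, one]
      simp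
  · rw [e, e5, cont_node, cont_pp, p3_add, Multiset.count_add, c1 _ hz, h0, one]
    exact ⟨by omega, by simp⟩
  · rw [e, e6, cont_node, cont_node, cont_nil, add_zero]
    refine ⟨?_, ?_⟩
    · have := p3_raise_ge (raise (cont (Tsq.sq Z).1) + cont (Tsq.sq Z).2)
      rw [p3_add] at this
      omega
    · rw [c1 _ (by rw [Multiset.sup_add, sup_raise]; omega), Multiset.count_add, c1 _ hz',
        if_pos (by omega)]
      omega
  · rw [e, e7, cont_node, cont_app, cont_pp, p3_add, p3_add, Multiset.count_add,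
      Multiset.count_add, c1 _ hz', one]
    exact ⟨by omega, by rw [if_neg (by omega)]; omega⟩
  · rw [e, e8, cont_node, cont_node, cont_nil, raise_zero, p3_add, p3_add, Multiset.count_add,
      Multiset.count_add, c1 _ hz', one]
    exact ⟨by omega, by rw [if_neg (by omega)]; omega⟩

end Pool.OddHC
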