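import Pool.Agent.Work.MP_8f87b2_h49.JVw
import Pool.Agent.Work.MP_8f87b2_h20.S5Ty

/-!
# MP_8f87b2_co: the special links of section 5 (`TyS5`) against JV (`Is9 nil nil Z`), words

The words of `TyS5` have at least two parts 1, those of JV at most one.
-/

set_option autoImplicit false

namespace Pool.OddHC

open Finset Equiv BinaryTree Pool.Agent.Work.MP_8f87b2_co

variable {k : ℕ} {Z : BinaryTree Unit}

theorem cont_lp1 (n : ℕ) : cont (lp n) = Multiset.replicate n 1 := by
  induction n with
  | zero => rfl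
  | succ n ih =>
    change cont (.nil △ lp n) = _
    rw [cont_node, cont_nil, raise_zero, ih, Multiset.replicate_succ]
    rfl

theorem count_lp1 (n : ℕ) : (cont (lp n)).count 1 = n := by
  rw [cont_lp1, Multiset.count_replicate, if_pos rfl]

theorem raise_lp1 {n : ℕ} (h : 1 ≤ n) : (raise (cont (lp n))).count 1 = n - 1 := by
  obtain ⟨n, rfl⟩ : ∃ m, n = m + 1 := ⟨n - 1, by omega⟩
  have h1 : (Multiset.replicate (n + 1) 1).sup = 1 := by
    refine le_antisymm (Multiset.sup_le.2 fun x hx => (Multiset.eq_of_mem_replicate hx).le) ?_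
    exact Multiset.le_sup (by rw [Multiset.replicate_succ]; exact Multiset.mem_cons_self _ _)
  rw [cont_lp1]
  unfold raise
  rw [h1, Multiset.count_cons, if_neg (by omega), Multiset.replicate_succ, Multiset.erase_cons_head,
    Multiset.count_replicate, if_pos rfl]
  omega

theorem cont_chV (s : ℕ) : cont (H1.ch (s + 1)) = {s + 1} := by
  induction s with
  | zero => exact cont_pp
  | succ s ih =>
    change cont (H1.ch (s + 1) △ .nil) = _
    rw [cont_node, ih, cont_nil, add_zero]
    unfold raise
    rw [Multiset.sup_singleton]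
    change (s + 1 + 1) ::ₘ ((s + 1) ::ₘ (0 : Multiset ℕ)).erase (s + 1) = _
    rw [Multiset.erase_cons_head]
    rfl

theorem cntw1 (P A R : BinaryTree Unit) : (cont (w1 P A R)).count 1 =
    (cont P).count 1 + ((raise (cont A)).count 1 + (cont R).count 1) := by
  change (cont (app P (A △ R))).count 1 = _
  rw [cont_app, cont_node, Multiset.count_add, Multiset.count_add]

theorem cnt_rnil : (raise (cont (.nil : BinaryTree Unit))).count 1 = 1 := by
  rw [cont_nil, raise_zero]
  simp

theorem cnt_nil1 : (cont (.nil : BinaryTree Unit)).count 1 = 0 := rfl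

/-- two parts 1 in every word of S5 -/
theorem TyS5.one {F : Set (Cyc k)} {g : DG k} (h : TyS5 F g) : ∀ w ∈ g.B, 2 ≤ (cont w.1).count 1 := by
  obtain ⟨s, n, hs, hn, h | h | h⟩ := h
  · intro w hw
    have h1 := count_lp1 (n + 2)
    have h2 := raise_lp1 (n := n + 2) (by omega)
    have h3 := cnt_nil1
    have h4 := cnt_rnil
    rcases h.words w hw with e | ⟨-, e | e⟩ <;> rw [e, cntw1] <;> omega
  · intro w hw
    have h1 := count_lp1 (n + 2)
    have h2 := raise_lp1 (n := n + 2) (by omega)
    have h3 := cnt_nil1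
    have h4 := cnt_rnil
    rcases h.words w hw with e | ⟨-, e | e⟩ <;> rw [e, cntw1] <;> omega
  · intro w hw
    obtain ⟨s, rfl⟩ : ∃ m, s = m + 2 + 1 := ⟨s - 3, by omega⟩
    have h1 := count_lp1 n
    have h3 : (cont (app (H1.ch (s + 2 + 1)) (lp n))).count 1 = n := by
      rw [cont_app, Multiset.count_add, h1, cont_chV, Multiset.count_singleton, if_neg (by omega)]
      omega
    have h4 : (raise (cont (app (H1.ch (s + 2 + 1)) (lp n)))).count 1 = n := by
      rw [H1.raise_one, h3]
      rw [cont_app, Multiset.sup_add, cont_chV, Multiset.sup_singleton]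
      exact le_sup_of_le_left (by omega)
    have h5 := count_lp1 1
    rcases h.words w hw with e | ⟨-, e | e⟩ <;> rw [e, cntw1] <;> omega

/-- **S5 against JV**, words -/
theorem TyS5.disj_JV {F F' : Set (Cyc k)} {g g' : DG k} (h : TyS5 F g)
    (h9 : Is9 .nil .nil Z F' g') (h0 : (cont Z).count 1 = 0) (h3 : 2 ≤ ht Z) :
    Disjoint g.B g'.B := by
  rw [Finset.disjoint_left]
  intro w hw hw'
  have h1 := h.one w hw
  obtain ⟨i, hi, e, -⟩ := h9.words w hw'
  have h2 := (w9_cont h0 h3 hi e).2
  rw [h2] at h1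
  split_ifs at h1 <;> omega

end Pool.OddHC
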