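import Pool.Agent.Work.MP_8f87b2_h49.L1S5
import Pool.Agent.Work.MP_8f87b2_h10.L1In

/-!
# MP_8f87b2_co: row I-L1-S5

No inner word of a gadget of type L1 is a word of a special link of section 5 (`TyS5`): the gaps of the beads.
-/

set_option autoImplicit false

namespace Pool.OddHC

open Finset Equiv BinaryTree Pool.Agent.Work.MP_8f87b2_co

namespace L1S5

open L1 Ft

variable {k : ℕ}

theorem ln_lp (n : ℕ) : ln (lp n) = 0 := by
  induction n with
  | zero => rfl
  | succ n ih =>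
    change ln (.nil △ lp n) = 0
    rw [ln_leaf, ih]

theorem ps_lp (n : ℕ) : ps (lp n) = List.replicate n 0 := by
  induction n with
  | zero => rfl
  | succ n ih =>
    change ps (.nil △ lp n) = _
    rw [ps_leaf, ih, List.replicate_succ]

theorem lp_ne (n : ℕ) : lp (n + 1) ≠ .nil := by
  intro e
  have e' : (BinaryTree.nil : BinaryTree Unit) △ lp n = .nil := e
  simp at e'

theorem ln_ch (t : ℕ) : ln (H1.ch (t + 1)) = 2 * t := by
  induction t with
  | zero => rfl
  | succ t ih =>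
    have h : H1.ch (t + 1) ≠ .nil := by simp [H1.ch]
    change ln (H1.ch (t + 1) △ .nil) = _
    rw [ln_node h, ih, ln_nil]
    omega

theorem ps_ch (t : ℕ) : ps (H1.ch (t + 2)) = [] := by
  have h := c_ch (s := t + 2) (by omega)
  rw [← ps_length] at h
  exact List.length_eq_zero_iff.1 h

/-- the gaps of the beads of the words of S5 -/
def Sp (l : List ℕ) (N : ℕ) : Prop :=
  4 ≤ l.length ∨ (∃ a, l = [a, a, a]) ∨ (∃ a, l = [a, a]) ∨
    ∃ s, 3 ≤ s ∧ N = 2 * s + 2 ∧ (l = [0, 2 * s - 1, 2 * s - 1] ∨ l = [2 * s - 2, 2 * s - 2, 2 * s + 2])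

theorem Sp.rep {n a N : ℕ} (h : 2 ≤ n) : Sp (List.replicate n a) N := by
  rcases (show n = 2 ∨ n = 3 ∨ 4 ≤ n by omega) with rfl | rfl | h
  · exact Or.inr (Or.inr (Or.inl ⟨a, rfl⟩))
  · exact Or.inr (Or.inl ⟨a, rfl⟩)
  · left; rw [List.length_replicate]; exact h

theorem Sp.len {t : BinaryTree Unit} {N : ℕ} (h : 4 ≤ (OddHC.cont t).count 1) : Sp (ps t) N := by
  left
  rw [ps_length]
  exact h

theorem rep_map (n a b : ℕ) : (List.replicate n a).map (· + b) = List.replicate n (a + b) := by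
  rw [List.map_replicate]

theorem S5_sp {F : Set (Cyc k)} {g : DG k} (h : TyS5 F g) : ∀ w ∈ g.B, Sp (ps w.1) (ln w.1) := by
  obtain ⟨s, n, hs, hn, h | h | h⟩ := h
  · intro w hw
    have h1 := count_lp1 (n + 2)
    have h2 := raise_lp1 (n := n + 2) (by omega)
    have h3 := cnt_nil1
    have h4 := cnt_rnil
    have h5 := c_ch (s := s) (by omega)
    rcases h.words w hw with e | ⟨-, e | e⟩
    · exact Sp.len (by rw [e, cntw1]; omega)
    · exact Sp.len (by rw [e, cntw1]; omega)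
    · obtain ⟨t, rfl⟩ : ∃ t, s = t + 2 := ⟨s - 2, by omega⟩
      have e' : w.1 = lp (n + 2) △ H1.ch (t + 2) := e
      have h6 : lp (n + 2) ≠ .nil := lp_ne (n + 1)
      have h7 : ps w.1 = List.replicate (n + 1) 1 := by
        rw [e', ps_node' h6, pu_zero (ln_lp _), ps_lp, ps_ch, List.tail_replicate, rep_map]
        simp
      rw [h7]
      exact Sp.rep (by omega)
  · intro w hw
    have h1 := count_lp1 (n + 2)
    have h2 := raise_lp1 (n := n + 2) (by omega)
    have h3 := cnt_nil1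
    have h4 := cnt_rnil
    have h5 := c_ch (s := s) (by omega)
    rcases h.words w hw with e | ⟨-, e | e⟩
    · exact Sp.len (by rw [e, cntw1]; omega)
    · obtain ⟨t, rfl⟩ : ∃ t, s = t + 2 := ⟨s - 2, by omega⟩
      have e' : w.1 = app (H1.ch (t + 2)) (lp (n + 2) △ .nil) := e
      have h6 : lp (n + 2) ≠ .nil := lp_ne (n + 1)
      have h7 : ps w.1 = List.replicate (n + 1) (2 * t + 3) := by
        rw [e', ps_app, ps_node' h6, pu_zero (ln_lp _), ps_lp, ps_ch, List.tail_replicate, rep_map, ps_nil,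
          List.map_nil, List.append_nil, List.nil_append, rep_map, ln_ch]
        congr 1
        omega
      rw [h7]
      exact Sp.rep (by omega)
    · exact Sp.len (by rw [e, cntw1]; omega)
  · intro w hw
    obtain ⟨t, rfl⟩ : ∃ t, s = t + 2 := ⟨s - 2, by omega⟩
    have hQ : ps (app (H1.ch (t + 2)) (lp n)) = List.replicate n (2 * (t + 1)) := by
      rw [ps_app, ps_ch, ps_lp, List.nil_append, rep_map, ln_ch, zero_add]
    have lQ : ln (app (H1.ch (t + 2)) (lp n)) = 2 * (t + 1) := by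
      rw [ln_app, ln_ch, ln_lp]; omega
    have c2 : ps (H1.ch 2) = [] := ps_ch 0
    have d2 : ln (H1.ch 2) = 2 := ln_ch 1
    have nQ : app (H1.ch (t + 2)) (lp n) ≠ .nil := by simp [H1.ch, app]
    have n2 : H1.ch 2 ≠ .nil := by simp [H1.ch]
    have n1 : lp 1 ≠ .nil := lp_ne 0
    have p1 : ps (lp 1) = [0] := ps_lp 1
    have l1 : ln (lp 1) = 0 := ln_lp 1
    rcases h.words w hw with e | ⟨-, e | e⟩
    · have e' : w.1 = app (lp 1) (app (H1.ch (t + 2)) (lp n) △ H1.ch 2) := e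
      have h7 : ps w.1 = 0 :: List.replicate n (2 * t + 3) := by
        rw [e', ps_app, ps_node (by omega), hQ, c2, p1, l1, rep_map, List.map_nil, List.append_nil, map_add_zero]
        rfl
      have h8 : ln w.1 = 2 * (t + 2) + 2 := by
        rw [e', ln_app, ln_node nQ, lQ, d2, l1]; omega
      rcases (show n = 2 ∨ 3 ≤ n by omega) with rfl | h9
      · right; right; right
        refine ⟨t + 2, hs, h8, Or.inl ?_⟩
        rw [h7, show 2 * (t + 2) - 1 = 2 * t + 3 by omega]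
        rfl
      · left
        rw [h7, List.length_cons, List.length_replicate]; omega
    · have e' : w.1 = app (app (H1.ch (t + 2)) (lp n)) (H1.ch 2 △ lp 1) := e
      have h7 : ps w.1 = List.replicate n (2 * (t + 1)) ++ [2 * t + 6] := by
        rw [e', ps_app, ps_node (by omega), hQ, lQ, c2, p1, d2]
        simp
        omega
      have h8 : ln w.1 = 2 * (t + 2) + 2 := by
        rw [e', ln_app, ln_node n2, lQ, d2, l1]; omega
      rcases (show n = 2 ∨ 3 ≤ n by omega) with rfl | h9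
      · right; right; right
        refine ⟨t + 2, hs, h8, Or.inr ?_⟩
        rw [h7, show 2 * (t + 2) - 2 = 2 * (t + 1) by omega, show 2 * (t + 2) + 2 = 2 * t + 6 by omega]
        rfl
      · left
        rw [h7, List.length_append, List.length_replicate, List.length_singleton]; omega
    · have e' : w.1 = app (H1.ch 2) (lp 1 △ app (H1.ch (t + 2)) (lp n)) := e
      have h7 : ps w.1 = List.replicate n (2 * (t + 1) + 2 + 2) := by
        rw [e', ps_app, ps_node' n1, pu_zero l1, hQ, c2, p1, l1, d2, List.nil_append]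
        change (([] : List ℕ) ++ _).map _ = _
        rw [List.nil_append, rep_map, rep_map]
      rw [h7]
      exact Sp.rep hn

/-- the gaps of the beads of the inner words of L1 -/
theorem ip_list {w : BinaryTree Unit} {N e : ℕ} {a b : List Bool} (h : IPr w N e a b) :
    ∃ c, e + 2 ≤ c ∧ (e = 1 ∨ e = 3) ∧ (ps w = [c - e, c, c] ∨ ∃ δ ≤ 2, ps w = [c - e, c + δ]) := by
  refine ⟨b.length, ?_, ?_, ?_⟩
  · rcases h.he with ⟨_, _⟩ | ⟨_, _⟩ <;> omega
  · rcases h.he with ⟨h1, _⟩ | ⟨h1, _⟩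
    · exact Or.inl h1
    · exact Or.inr h1
  · rcases h.sh with ⟨_, _, s3⟩ | ⟨δ, hδ, _, _, s3⟩
    · exact Or.inl s3
    · exact Or.inr ⟨δ, hδ, s3⟩

theorem ip_ne {l : List ℕ} {c e : ℕ} (hc : e + 2 ≤ c) (he : e = 1 ∨ e = 3)
    (h : l = [c - e, c, c] ∨ ∃ δ ≤ 2, l = [c - e, c + δ]) {N : ℕ} : ¬ Sp l N := by
  rintro (h1 | ⟨a, h1⟩ | ⟨a, h1⟩ | ⟨s, hs, hN, h1 | h1⟩) <;>
    rcases h with h | ⟨δ, hδ, h⟩ <;> rw [h] at h1 <;> simp at h1 <;> omega

theorem ip_neM {l l' : List ℕ} {c e : ℕ} (hc : e + 2 ≤ c) (he : e = 1 ∨ e = 3)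
    (h : l' = [c - e, c, c] ∨ ∃ δ ≤ 2, l' = [c - e, c + δ]) {N : ℕ}
    (hm : l' = l.reverse.map (fun x => N - x)) : ¬ Sp l N := by
  rintro (h1 | ⟨a, h1⟩ | ⟨a, h1⟩ | ⟨s, hs, hN, h1 | h1⟩)
  · have h2 : l'.length = l.length := by rw [hm]; simp
    rcases h with h | ⟨δ, hδ, h⟩ <;> rw [h] at h2 <;> simp at h2 <;> omega
  all_goals
    rw [h1] at hm
    rcases h with h | ⟨δ, hδ, h⟩ <;> rw [h] at hm <;> simp at hm <;> omega

/-- **I-L1-S5** -/
theorem inner_L1S5 (hk : 9 ≤ k) {F F' : Set (Cyc k)} {g g' : DG k} (h : TyL1 F g) (h' : TyS5 F' g') :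
    ∀ p ∈ g.arcs, ∀ w ∈ innA p, w ∉ g'.B := by
  intro p hp w hw hw'
  obtain ⟨m, h1⟩ := h.ipr hk
  obtain ⟨N, e, a, b, h2⟩ := h1 p hp w hw
  have h3 := S5_sp h' w hw'
  obtain ⟨c, hc, he, hl⟩ := ip_list h2
  cases m with
  | false =>
    have hl' : ps w.1 = [c - e, c, c] ∨ ∃ δ ≤ 2, ps w.1 = [c - e, c + δ] := hl
    exact ip_ne hc he hl' h3
  | true =>
    have hl' : ps (Tsq.mir w.1) = [c - e, c, c] ∨ ∃ δ ≤ 2, ps (Tsq.mir w.1) = [c - e, c + δ] := hl
    exact ip_neM hc he hl' (ps_mir w.1) h3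

end L1S5

end Pool.OddHC
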