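import Pool.Agent.Work.MP_8f87b2_h49.JVA
import Pool.Agent.Work.MP_8f87b2_h49.JVS5
import Pool.Agent.Work.MP_8f87b2_h10.L1w
import Pool.Agent.Work.MP_8f87b2_h32.L1E

/-!
# MP_8f87b2_co: row W-L1-S5

No word of a gadget of type L1 is a word of a special link of section 5 (`TyS5`): number of parts 1 and the components.
-/

set_option autoImplicit false

namespace Pool.OddHC

open Finset Equiv BinaryTree Pool.Agent.Work.MP_8f87b2_co

namespace L1S5

open L1

variable {k : ℕ}

/-- number of parts 1 -/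
abbrev c1 (t : BinaryTree Unit) : ℕ := (OddHC.cont t).count 1

/-- what the words of S5 look like -/
def Bad (L : List (BinaryTree Unit)) (c : ℕ) : Prop :=
  4 ≤ c ∨ (c = 3 ∧ ((∃ x y, L = [x, y]) ∨
    (∃ x, x ≠ .nil ∧ (L = [.nil, x, lf0] ∨ L = [lf0, x, .nil])) ∨
    (∃ x y, x ≠ .nil ∧ y ≠ .nil ∧ (L = [x, .nil, .nil, y, .nil] ∨ L = [.nil, y, .nil, .nil, x])) ∨
    (∃ x, x ≠ .nil ∧ (L = [lf0, lf0, x, .nil, .nil, .nil] ∨ L = [.nil, .nil, .nil, x, lf0, lf0])))) ∨
  (c = 2 ∧ ∃ x, L = [lf0, lf0, x, .nil, .nil] ∨ L = [.nil, .nil, x, lf0, lf0])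

/-- the data of the words of L1 -/
structure DL (R B S : BinaryTree Unit) : Prop where
  nR : Nb R
  nS : Nb S
  cR : c1 R = 1
  sR : 2 ≤ (OddHC.cont R).sup
  sS : 2 ≤ (OddHC.cont S).sup
  hB : (B = .nil ∧ c1 S = 1) ∨ (Nb B ∧ 2 ≤ (OddHC.cont B).sup ∧ c1 B + c1 S = 1)

variable {R B S : BinaryTree Unit}

/-- the number of parts 1 of the words -/
def cL (b : Bool) (i : ℕ) : ℕ :=
  if b = true then [1, 3, 3, 2, 1, 3, 2, 2, 2, 1, 1, 3, 2, 1, 2, 2, 3, 1, 3, 2].getD i 0
  else [1, 3, 3, 2, 1, 3, 2, 2, 2, 1, 1, 3, 2, 2, 2, 2, 2, 1, 2, 1].getD i 0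

theorem c_W (h : DL R B S) : ∀ i < 20, c1 (H1.W R .nil B S i) = cL (H1.isNil B) i := by
  have kR := h.cR
  have sR := h.sR
  have sS := h.sS
  have cn : ∀ A C : BinaryTree Unit, (OddHC.cont (A △ C)).count 1 =
      (raise (OddHC.cont A)).count 1 + (OddHC.cont C).count 1 := by
    intro A C
    rw [cont_node, Multiset.count_add]
  have ca : ∀ A C : BinaryTree Unit, (OddHC.cont (app A C)).count 1 =
      (OddHC.cont A).count 1 + (OddHC.cont C).count 1 := by
    intro A C
    rw [cont_app, Multiset.count_add]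
  have r0 : (raise (OddHC.cont (BinaryTree.nil : BinaryTree Unit))).count 1 = 1 := by
    rw [cont_nil, raise_zero]; rfl
  have c0 : (OddHC.cont (BinaryTree.nil : BinaryTree Unit)).count 1 = 0 := rfl
  have cl : (raise (OddHC.cont ((BinaryTree.nil : BinaryTree Unit) △ .nil))).count 1 = 0 := by
    rw [cont_pp]
    decide
  have rr : ∀ t : BinaryTree Unit, 2 ≤ (OddHC.cont t).sup →
      (raise (OddHC.cont t)).count 1 = (OddHC.cont t).count 1 := fun t ht => H1.raise_one ht
  have sa : ∀ A C : BinaryTree Unit, (OddHC.cont (app A C)).sup =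
      max (OddHC.cont A).sup (OddHC.cont C).sup := by
    intro A C
    rw [cont_app, Multiset.sup_add]
  have sn : ∀ A C : BinaryTree Unit, (OddHC.cont (A △ C)).sup =
      max ((OddHC.cont A).sup + 1) (OddHC.cont C).sup := by
    intro A C
    rw [cont_node, Multiset.sup_add, sup_raise]
  have app0 : ∀ X : BinaryTree Unit, app .nil X = X := fun _ => rfl
  have app1 : ∀ A X Y : BinaryTree Unit, app (A △ X) Y = A △ app X Y := fun _ _ _ => rfl
  have rR := rr R (by omega)
  have rS := rr S (by omega)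
  have rR1 := rr (app R (.nil △ .nil)) (by rw [sa]; omega)
  have rR2 := rr (.nil △ R) (by rw [sn]; omega)
  have rR3 := rr (R △ .nil) (by rw [sn]; omega)
  have rS1 := rr (.nil △ S) (by rw [sn]; omega)
  have rS2 := rr (S △ B) (by rw [sn]; omega)
  have rS3 := rr (app S (B △ .nil)) (by rw [sa]; omega)
  change (OddHC.cont R).count 1 = 1 at kR
  intro i hi
  change (OddHC.cont (H1.W R .nil B S i)).count 1 = _
  rcases h.hB with ⟨hB, kS⟩ | ⟨nB, sB, kB⟩
  · subst hB
    change (OddHC.cont S).count 1 = 1 at kS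
    interval_cases i <;>
      simp only [H1.W, cL, H1.isNil, app0, app1, ca, cn, r0, c0, cl, rR, rS, rR1, rR2, rR3, rS1, rS2, rS3,
        kR, kS] <;> rfl
  · change (OddHC.cont B).count 1 + (OddHC.cont S).count 1 = 1 at kB
    have rB := rr B (by omega)
    have rB1 := rr (app B (.nil △ .nil)) (by rw [sa]; omega)
    have iB : H1.isNil B = false := H1.isNil_f.2 nB.ne
    interval_cases i <;>
      simp only [H1.W, cL, iB, app0, app1, ca, cn, r0, c0, cl, rR, rB, rS, rR1, rR2, rR3, rB1, rS1, rS2,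
        rS3, kR] <;> simp <;> omega

theorem not_bad (h : DL R B S) {i : ℕ} (hi : i < 20) (h5 : i ≠ 5) :
    ¬ Bad (comps (H1.W R .nil B S i)) (c1 (H1.W R .nil B S i)) := by
  have hc := c_W h i hi
  obtain ⟨⟨Rf, Rt, eRf, nRf⟩, ⟨Rl, Ri, eRl, nRl⟩⟩ := h.nR.comps
  obtain ⟨⟨Sf, St, eSf, nSf⟩, ⟨Sl, Si, eSl, nSl⟩⟩ := h.nS.comps
  have nS := h.nS.ne
  have nlf : lf0 ≠ .nil := by simp
  -- the lists which occur
  have hl : ∀ {L : List (BinaryTree Unit)} {a : BinaryTree Unit} {L' : List (BinaryTree Unit)} {b : BinaryTree Unit},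
      L ++ [a] = L' ++ [b] → L = L' ∧ a = b := lst
  -- three shapes with three parts 1
  have sh1 : ∀ (M : List (BinaryTree Unit)) (a : BinaryTree Unit), a ≠ .nil →
      ¬ Bad (M ++ [a, .nil, .nil]) 3 := by
    intro M a ha hb
    have e1 : M ++ [a, .nil, .nil] = ((M ++ [a]) ++ [.nil]) ++ [.nil] := by simp
    rcases hb with hb | ⟨-, hb⟩ | ⟨hb, -⟩
    · omega
    · rw [e1] at hb
      rcases hb with ⟨x, y, e⟩ | ⟨x, hx, e | e⟩ | ⟨x, y, hx, hy, e | e⟩ | ⟨x, hx, e | e⟩
      · have := congrArg List.length e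
        simp at this
      · exact nlf (hl (L' := [.nil, x]) e).2.symm
      · have e2 := (hl (L' := [lf0, x]) e).1
        exact hx (hl (L' := [lf0]) e2).2.symm
      · have e2 := (hl (L' := [x, .nil, .nil, y]) e).1
        exact hy (hl (L' := [x, .nil, .nil]) e2).2.symm
      · exact hx (hl (L' := [.nil, y, .nil, .nil]) e).2.symm
      · have e2 := (hl (L' := [lf0, lf0, x, .nil, .nil]) e).1
        have e3 := (hl (L' := [lf0, lf0, x, .nil]) e2).1
        exact ha (hl (L' := [lf0, lf0, x]) e3).2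
      · exact nlf (hl (L' := [.nil, .nil, .nil, x, lf0]) e).2.symm
    · omega
  have sh2 : ∀ (M : List (BinaryTree Unit)), M ≠ [] → ¬ Bad (.nil :: (M ++ [.nil])) 3 := by
    intro M hM hb
    have e1 : BinaryTree.nil :: (M ++ [.nil]) = (.nil :: M) ++ [.nil] := by simp
    rcases hb with hb | ⟨-, hb⟩ | ⟨hb, -⟩
    · omega
    · rcases hb with ⟨x, y, e⟩ | ⟨x, hx, e | e⟩ | ⟨x, y, hx, hy, e | e⟩ | ⟨x, hx, e | e⟩
      · have := congrArg List.length e
        simp at this
        exact hM this
      · rw [e1] at e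
        exact nlf (hl (L' := [.nil, x]) e).2.symm
      · exact nlf (List.cons.inj e).1.symm
      · exact hx (List.cons.inj e).1.symm
      · rw [e1] at e
        exact hx (hl (L' := [.nil, y, .nil, .nil]) e).2.symm
      · exact nlf (List.cons.inj e).1.symm
      · rw [e1] at e
        exact nlf (hl (L' := [.nil, .nil, .nil, x, lf0]) e).2.symm
    · omega
  have sh3 : ∀ (M : List (BinaryTree Unit)) (a : BinaryTree Unit), a ≠ .nil →
      ¬ Bad ([.nil, .nil] ++ (a :: M)) 3 ∨ a = .nil := by
    intro M a ha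
    left
    intro hb
    rcases hb with hb | ⟨-, hb⟩ | ⟨hb, -⟩
    · omega
    · rcases hb with ⟨x, y, e⟩ | ⟨x, hx, e | e⟩ | ⟨x, y, hx, hy, e | e⟩ | ⟨x, hx, e | e⟩
      · have := congrArg List.length e
        simp at this
      · simp at e
        exact hx e.1.symm
      · exact nlf (List.cons.inj e).1.symm
      · exact hx (List.cons.inj e).1.symm
      · simp at e
        exact hy e.1.symm
      · exact nlf (List.cons.inj e).1.symm
      · simp at e
        exact ha e.1
    · omega
  have sh4 : ∀ (M N : List (BinaryTree Unit)) (a b : BinaryTree Unit), a ≠ .nil → b ≠ .nil →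
      a :: M = N ++ [b] → 2 < (a :: M).length → ¬ Bad (a :: M) 3 := by
    intro M N a b ha hb e0 hlen h'
    rcases h' with h' | ⟨-, h'⟩ | ⟨h', -⟩
    · omega
    · rcases h' with ⟨x, y, e⟩ | ⟨x, hx, e | e⟩ | ⟨x, y, hx, hy, e | e⟩ | ⟨x, hx, e | e⟩
      · rw [e] at hlen
        simp at hlen
      · exact ha (List.cons.inj e).1
      · rw [e0] at e
        exact hb (hl (L' := [lf0, x]) e).2
      · rw [e0] at e
        exact hb (hl (L' := [x, .nil, .nil, y]) e).2
      · exact ha (List.cons.inj e).1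
      · rw [e0] at e
        exact hb (hl (L' := [lf0, lf0, x, .nil, .nil]) e).2
      · exact ha (List.cons.inj e).1
    · omega
  -- with two parts 1
  have two : ∀ L : List (BinaryTree Unit), (∀ x, L ≠ [lf0, lf0, x, .nil, .nil] ∧ L ≠ [.nil, .nil, x, lf0, lf0]) →
      ¬ Bad L 2 := by
    intro L hL hb
    rcases hb with hb | ⟨hb, -⟩ | ⟨-, x, e | e⟩
    · omega
    · omega
    · exact (hL x).1 e
    · exact (hL x).2 e
  have one : ∀ L : List (BinaryTree Unit), ¬ Bad L 1 := by
    intro L hb
    rcases hb with hb | ⟨hb, -⟩ | ⟨hb, -⟩ <;> omega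
  have cnil : comps (BinaryTree.nil : BinaryTree Unit) = [] := rfl
  rw [hc]
  have hBc : (H1.isNil B = true ∧ B = .nil) ∨ (H1.isNil B = false ∧ B ≠ .nil ∧
      (∃ A L, comps B = A :: L ∧ A ≠ .nil) ∧ ∃ A L, comps B = L ++ [A] ∧ A ≠ .nil) := by
    rcases h.hB with ⟨e, -⟩ | ⟨e, -, -⟩
    · left; rw [e]; exact ⟨rfl, rfl⟩
    · right; exact ⟨H1.isNil_f.2 e.ne, e.ne, e.comps⟩
  have len1 : ∀ A : BinaryTree Unit, ¬ Bad [A] 2 := by
    intro A
    apply two
    intro x
    constructor <;> intro e <;> exact absurd (congrArg List.length e) (by simp)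
  have len2 : ∀ A C : BinaryTree Unit, ¬ Bad [A, C] 2 := by
    intro A C
    apply two
    intro x
    constructor <;> intro e <;> exact absurd (congrArg List.length e) (by simp)
  have w1 : comps (H1.W R .nil B S 1) = comps R ++ [.nil, .nil] := by
    change comps (app R (.nil △ (.nil △ .nil))) = _
    rw [comps_app]; rfl
  have w2 : comps (H1.W R .nil B S 2) = .nil :: (comps R ++ [.nil]) := by
    change comps (.nil △ app R (.nil △ .nil)) = _
    rw [comps_node, comps_app]; rfl
  have w11 : comps (H1.W R .nil B S 11) = comps B ++ ([.nil, .nil] ++ comps S) := by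
    change comps (app B (.nil △ (.nil △ S))) = _
    rw [comps_app]; rfl
  have w12 : comps (H1.W R .nil B S 12) = S :: (comps B ++ [.nil]) := by
    change comps (S △ app B (.nil △ .nil)) = _
    rw [comps_node, comps_app]; rfl
  have w13 : comps (H1.W R .nil B S 13) = comps S ++ [app B (.nil △ .nil)] := by
    change comps (app S (app B (.nil △ .nil) △ .nil)) = _
    rw [comps_app]; rfl
  have w14 : comps (H1.W R .nil B S 14) = (.nil △ S) :: comps B := rfl
  have w15 : comps (H1.W R .nil B S 15) = .nil :: S :: comps B := rfl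
  have w16 : comps (H1.W R .nil B S 16) = comps S ++ [B, .nil] := by
    change comps (app S (B △ (.nil △ .nil))) = _
    rw [comps_app]; rfl
  have w18 : comps (H1.W R .nil B S 18) = .nil :: (comps S ++ [B]) := by
    change comps (.nil △ app S (B △ .nil)) = _
    rw [comps_node, comps_app]; rfl
  have cRn : comps R ≠ [] := comps_ne h.nR.ne
  have cSn : comps S ≠ [] := comps_ne nS
  have s1 : S ≠ lf0 := fun e => h.nS.f .nil e
  rcases hBc with ⟨iB, hB⟩ | ⟨iB, hB, ⟨Bf, Bt, eBf, nBf⟩, ⟨Bl, Bi, eBl, nBl⟩⟩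
  · subst hB
    have z1 : H1.isNil (.nil : BinaryTree Unit) = true := rfl
    rw [z1]
    interval_cases i
    · exact one _
    · rw [w1, eRl]
      have := sh1 Ri Rl nRl
      simpa [cL] using this
    · rw [w2]
      exact sh2 _ cRn
    · exact len1 _
    · exact one _
    · exact absurd rfl h5
    · exact len2 _ _
    · exact len1 _
    · exact len2 _ _
    · exact one _
    · exact one _
    · rw [w11, cnil, List.nil_append, eSf]
      rcases sh3 St Sf nSf with g | g
      · exact g
      · exact absurd g nSf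
    · rw [w12, cnil]
      exact len2 _ _
    · exact one _
    · exact len1 _
    · rw [w15, cnil]
      exact len2 _ _
    · rw [w16, eSl]
      have := sh1 Si Sl nSl
      simpa [cL] using this
    · exact one _
    · rw [w18]
      exact sh2 _ cSn
    · exact len1 _
  · rw [iB]
    have lb : 2 < (comps B ++ ([BinaryTree.nil, BinaryTree.nil] ++ comps S)).length := by
      have := List.length_pos_iff.2 cSn
      simp; omega
    interval_cases i
    · exact one _
    · rw [w1, eRl]
      have := sh1 Ri Rl nRl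
      simpa [cL] using this
    · rw [w2]
      exact sh2 _ cRn
    · exact len1 _
    · exact one _
    · exact absurd rfl h5
    · exact len2 _ _
    · exact len1 _
    · exact len2 _ _
    · exact one _
    · exact one _
    · rw [w11]
      rw [eBf] at lb ⊢
      rw [List.cons_append] at lb ⊢
      refine sh4 _ (Bf :: (Bt ++ ([BinaryTree.nil, BinaryTree.nil] ++ Si))) _ Sl nBf nSl ?_ lb
      rw [eSl]
      simp
    · rw [w12]
      apply two
      intro x
      constructor
      · intro e
        exact s1 (List.cons.inj e).1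
      · intro e
        rw [← List.cons_append] at e
        exact nlf (hl (L' := [.nil, .nil, x, lf0]) e).2.symm
    · rw [w13]
      apply two
      intro x
      constructor
      · intro e
        have := (hl (L' := [lf0, lf0, x, .nil]) e).2
        exact H1.app_ne (by simp) this
      · intro e
        rw [eSf] at e
        exact nSf (List.cons.inj e).1
    · rw [w14]
      apply two
      intro x
      constructor
      · intro e
        have := (H1.node_inj (List.cons.inj e).1).2
        exact nS this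
      · intro e
        have := (List.cons.inj e).1
        simp at this
    · rw [w15]
      apply two
      intro x
      constructor
      · intro e
        exact nlf (List.cons.inj e).1.symm
      · intro e
        exact nS (List.cons.inj (List.cons.inj e).2).1
    · rw [w16]
      apply two
      intro x
      have e0 : comps S ++ [B, .nil] = (comps S ++ [B]) ++ [.nil] := by simp
      constructor
      · intro e
        rw [e0] at e
        have e2 := (hl (L' := [lf0, lf0, x, .nil]) e).1
        exact hB (hl (L' := [lf0, lf0, x]) e2).2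
      · intro e
        rw [e0] at e
        exact nlf (hl (L' := [.nil, .nil, x, lf0]) e).2.symm
    · exact one _
    · rw [w18]
      apply two
      intro x
      constructor
      · intro e
        exact nlf (List.cons.inj e).1.symm
      · intro e
        have e2 := (List.cons.inj e).2
        rw [eSf] at e2
        exact nSf (List.cons.inj e2).1
    · exact one _

/-! ### The words of type L1 -/

/-- the data of a gadget of type L1 -/
theorem dl (n : ℕ) (hn : 1 ≤ n) (Φ : ZMod (2 * n + 1) → ℕ) :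
    DL (RH n Φ) (Tsq.sq (RH n Φ)).2 (Tsq.sq (RH n Φ)).1 := by
  have hR := RH_ne hn Φ
  have hc := sqc hR
  have c2 : ∀ m : ℕ, (Multiset.replicate m 2).count 1 = 0 := by
    intro m
    rw [Multiset.count_replicate, if_neg (by omega)]
  have cR : (OddHC.cont (RH n Φ)).count 1 = 1 := by
    rw [cont_RH hn, Multiset.count_add, Multiset.count_add, c2, Multiset.count_singleton,
      if_neg (by omega)]
    simp
  have cc : (OddHC.cont (Tsq.sq (RH n Φ)).1).count 1 + (OddHC.cont (Tsq.sq (RH n Φ)).2).count 1 = 1 := by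
    rw [← Multiset.count_add, hc, cR]
  have sR : 2 ≤ (OddHC.cont (RH n Φ)).sup := by
    rw [← OddHC.ht_eq, ht_RH hn]; omega
  have sS : 2 ≤ (OddHC.cont (Tsq.sq (RH n Φ)).1).sup := by
    rw [← OddHC.ht_eq, (ht_sq hR).1, ht_RH hn]; omega
  rcases Nat.eq_zero_or_pos (Φ (-1)) with h0 | h0
  · obtain ⟨e1, e2⟩ := EN_Z hn Φ h0
    refine ⟨e2.R, e2.S, cR, sR, sS, Or.inl ⟨e1, ?_⟩⟩
    rw [e1] at cc
    exact cc
  · have e := EN_A hn Φ h0
    have hB : (Tsq.sq (RH n Φ)).2 ≠ .nil := by
      intro e1
      have := caseA_ht hn Φ h0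
      rw [e1, OddHC.ht] at this
      omega
    refine ⟨e.R, e.S, cR, sR, sS, Or.inr ⟨?_, ?_, ?_⟩⟩
    · rcases e.B with e1 | e1
      · exact absurd e1 hB
      · exact e1
    · rw [← OddHC.ht_eq, caseA_ht hn Φ h0]
    · change (OddHC.cont (Tsq.sq (RH n Φ)).2).count 1 + (OddHC.cont (Tsq.sq (RH n Φ)).1).count 1 = 1
      omega

/-! ### The words of S5 -/

theorem comps_w1' (P A C : BinaryTree Unit) : comps (w1 P A C) = comps P ++ A :: comps C := by
  change comps (app P (A △ C)) = _
  rw [comps_app, comps_node]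

theorem comps_lp (n : ℕ) : comps (lp n) = List.replicate n .nil := by
  induction n with
  | zero => rfl
  | succ n ih =>
    change comps (.nil △ lp n) = _
    rw [comps_node, ih, List.replicate_succ]

theorem c_ch {s : ℕ} (hs : 2 ≤ s) : (OddHC.cont (H1.ch s)).count 1 = 0 := by
  obtain ⟨t, rfl⟩ : ∃ t, s = t + 1 := ⟨s - 1, by omega⟩
  rw [cont_chV, Multiset.count_singleton, if_neg (by omega)]

theorem comps_ch {s : ℕ} (hs : 2 ≤ s) : ∃ x, x ≠ .nil ∧ comps (H1.ch s) = [x] := by
  obtain ⟨t, rfl⟩ : ∃ t, s = t + 2 := ⟨s - 2, by omega⟩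
  exact ⟨H1.ch (t + 1), by simp [H1.ch], rfl⟩

theorem S5_bad {F : Set (Cyc k)} {g : DG k} (h : TyS5 F g) : ∀ w ∈ g.B, Bad (comps w.1) (c1 w.1) := by
  obtain ⟨s, n, hs, hn, h | h | h⟩ := h
  · intro w hw
    have h1 := count_lp1 (n + 2)
    have h2 := raise_lp1 (n := n + 2) (by omega)
    have h3 := cnt_nil1
    have h4 := cnt_rnil
    have h5 := c_ch (s := s) (by omega)
    obtain ⟨x, hx, ex⟩ := comps_ch (s := s) (by omega)
    rcases h.words w hw with e | ⟨-, e | e⟩
    · left
      rw [c1, e, cntw1]; omega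
    · left
      rw [c1, e, cntw1]; omega
    · have hc : c1 w.1 = n + 1 := by
        rw [c1, e, cntw1]; omega
      rw [hc]
      by_cases h6 : n = 2
      · right; left
        refine ⟨by omega, Or.inl ⟨lp (n + 2), x, ?_⟩⟩
        rw [e, comps_w1', ex]; rfl
      · left; omega
  · intro w hw
    have h1 := count_lp1 (n + 2)
    have h2 := raise_lp1 (n := n + 2) (by omega)
    have h3 := cnt_nil1
    have h4 := cnt_rnil
    have h5 := c_ch (s := s) (by omega)
    obtain ⟨x, hx, ex⟩ := comps_ch (s := s) (by omega)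
    rcases h.words w hw with e | ⟨-, e | e⟩
    · left
      rw [c1, e, cntw1]; omega
    · have hc : c1 w.1 = n + 1 := by
        rw [c1, e, cntw1]; omega
      rw [hc]
      by_cases h6 : n = 2
      · right; left
        refine ⟨by omega, Or.inl ⟨x, lp (n + 2), ?_⟩⟩
        rw [e, comps_w1', ex]; rfl
      · left; omega
    · left
      rw [c1, e, cntw1]; omega
  · intro w hw
    have h1 := count_lp1 n
    have h5 := c_ch (s := s) (by omega)
    obtain ⟨x, hx, ex⟩ := comps_ch (s := s) (by omega)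
    have h3 : (OddHC.cont (app (H1.ch s) (lp n))).count 1 = n := by
      rw [cont_app, Multiset.count_add, h1, h5]; omega
    have h4 : (raise (OddHC.cont (app (H1.ch s) (lp n)))).count 1 = n := by
      obtain ⟨t, rfl⟩ : ∃ t, s = t + 2 + 1 := ⟨s - 3, by omega⟩
      rw [H1.raise_one, h3]
      rw [cont_app, Multiset.sup_add, cont_chV, Multiset.sup_singleton]
      exact le_sup_of_le_left (by omega)
    have h6 : (OddHC.cont (lp 1)).count 1 = 1 := count_lp1 1
    have h7 : (raise (OddHC.cont (lp 1))).count 1 = 0 := raise_lp1 (n := 1) (by omega)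
    have h8 : (OddHC.cont (H1.ch 2)).count 1 = 0 := c_ch (by omega)
    have h9 : (raise (OddHC.cont (H1.ch 2))).count 1 = 0 := by
      rw [show H1.ch 2 = H1.ch (1 + 1) from rfl, cont_chV, H1.raise_one (by simp)]
      simp
    have eQ : comps (app (H1.ch s) (lp n)) = x :: List.replicate n .nil := by
      rw [comps_app, ex, comps_lp]; rfl
    have nQ : app (H1.ch s) (lp n) ≠ .nil := by
      intro e
      rw [e] at eQ
      simp [comps] at eQ
    have e1 : comps (lp 1) = [.nil] := rfl
    have e2 : comps (H1.ch 2) = [lf0] := rfl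
    rcases h.words w hw with e | ⟨-, e | e⟩
    · have hc : c1 w.1 = n + 1 := by
        rw [c1, e, cntw1]; omega
      rw [hc]
      by_cases h10 : n = 2
      · right; left
        refine ⟨by omega, Or.inr (Or.inl ⟨app (H1.ch s) (lp n), nQ, Or.inl ?_⟩)⟩
        rw [e, comps_w1', e1, e2]; rfl
      · left; omega
    · have hc : c1 w.1 = n + 1 := by
        rw [c1, e, cntw1]; omega
      rw [hc]
      by_cases h10 : n = 2
      · right; left
        refine ⟨by omega, Or.inr (Or.inr (Or.inl ⟨x, H1.ch 2, hx, by simp [H1.ch], Or.inl ?_⟩))⟩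
        rw [e, comps_w1', eQ, e1, h10]; rfl
      · left; omega
    · have hc : c1 w.1 = n := by
        rw [c1, e, cntw1]; omega
      rw [hc]
      have ew : comps w.1 = lf0 :: lf0 :: x :: List.replicate n .nil := by
        rw [e, comps_w1', eQ, e2]; rfl
      by_cases h10 : n = 2
      · right; right
        refine ⟨h10, x, Or.inl ?_⟩
        rw [ew, h10]; rfl
      · by_cases h11 : n = 3
        · right; left
          refine ⟨h11, Or.inr (Or.inr (Or.inr ⟨x, hx, Or.inl ?_⟩))⟩
          rw [ew, h11]; rfl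
        · left; omega

/-- the mirror image -/
theorem Bad.mir {t : BinaryTree Unit} (h : Bad (comps t) (c1 t)) :
    Bad (comps (Tsq.mir t)) (c1 (Tsq.mir t)) := by
  have hc : c1 (Tsq.mir t) = c1 t := by
    change (OddHC.cont (Tsq.mir t)).count 1 = (OddHC.cont t).count 1
    rw [HM.cont_mir]
  have m0 : Tsq.mir (BinaryTree.nil : BinaryTree Unit) = .nil := rfl
  have m1 : Tsq.mir lf0 = lf0 := rfl
  have mn : ∀ x : BinaryTree Unit, x ≠ .nil → Tsq.mir x ≠ .nil := fun x hx => Ft.mir_ne hx
  rw [hc, Ft.comps_mir]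
  rcases h with h | ⟨h, h'⟩ | ⟨h, x, h'⟩
  · exact Or.inl h
  · right; left
    refine ⟨h, ?_⟩
    rcases h' with ⟨x, y, e⟩ | ⟨x, hx, e | e⟩ | ⟨x, y, hx, hy, e | e⟩ | ⟨x, hx, e | e⟩ <;> rw [e]
    · exact Or.inl ⟨Tsq.mir y, Tsq.mir x, rfl⟩
    · exact Or.inr (Or.inl ⟨_, mn x hx, Or.inr rfl⟩)
    · exact Or.inr (Or.inl ⟨_, mn x hx, Or.inl rfl⟩)
    · exact Or.inr (Or.inr (Or.inl ⟨_, _, mn x hx, mn y hy, Or.inr rfl⟩))
    · exact Or.inr (Or.inr (Or.inl ⟨_, _, mn x hx, mn y hy, Or.inl rfl⟩))
    · exact Or.inr (Or.inr (Or.inr ⟨_, mn x hx, Or.inr rfl⟩))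
    · exact Or.inr (Or.inr (Or.inr ⟨_, mn x hx, Or.inl rfl⟩))
  · right; right
    refine ⟨h, Tsq.mir x, ?_⟩
    rcases h' with e | e <;> rw [e]
    · exact Or.inr rfl
    · exact Or.inl rfl

/-- **W-L1-S5** -/
theorem dj_L1S5 {F F' : Set (Cyc k)} {g g' : DG k} (h : TyL1 F g) (h' : TyS5 F' g') :
    ∀ w ∈ g.B, w ∉ g'.B := by
  obtain ⟨n, Φ, m, hd, -, hw⟩ := words_L1 h
  intro w h1 h2
  obtain ⟨i, hi, h5, e⟩ := hw w h1
  have hb := S5_bad h' w h2
  have hn := not_bad (dl n hd.hn Φ) hi h5
  cases m with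
  | false =>
    have e' : w.1 = LWd n Φ i := e
    rw [e'] at hb
    exact hn hb
  | true =>
    have e' : Tsq.mir w.1 = LWd n Φ i := e
    have hb' := hb.mir
    rw [e'] at hb'
    exact hn hb'

theorem disj_L1S5 {F F' : Set (Cyc k)} {g g' : DG k} (h : TyL1 F g) (h' : TyS5 F' g') :
    Disjoint g.B g'.B := by
  rw [Finset.disjoint_left]
  exact dj_L1S5 h h'

end L1S5

end Pool.OddHC
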