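import Pool.Agent.Work.MP_8f87b2_h17.TyJ2B
import Pool.Agent.Work.MP_8f87b2_h49.L1S5
import Pool.Agent.Work.MP_8f87b2_h11.GJ2
import Pool.Agent.Work.MP_8f87b2_h90.J2S5
import Pool.Agent.Work.MP_8f87b2_h34.J3VS5

/-!
# MP_8f87b2_co: rows of J2B against S5 and L1

`TyS5.p3_le` : a word of S5 with at most two parts 1 has at most one part `≥ 3`. `SqD.cnt2`, `SqD.p3W` : the words
`W R nil B S i`, `i < 20`, have at most two parts 1 and at least as many parts `≥ 3` as `R`. Rows W and I of J2B against S5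
(no use of the T-cycles) and L1.
-/

set_option autoImplicit false

namespace Pool.OddHC

open Finset Equiv BinaryTree Pool.Agent.Work.MP_8f87b2_co

variable {k : ℕ} {F F' : Set (Cyc k)} {g g' : DG k}

/-- a word of S5 with at most two parts 1 has at most one part `≥ 3` -/
theorem TyS5.p3_le (h : TyS5 F g) : ∀ w ∈ g.B, (OddHC.cont w.1).count 1 ≤ 2 → p3 (OddHC.cont w.1) ≤ 1 := by
  obtain ⟨s, n, hs, hn, h | h | h⟩ := h
  · intro w hw
    have h1 := count_lp1 (n + 2)
    have h2 := raise_lp1 (n := n + 2) (by omega)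
    have h3 := cnt_nil1
    have h4 := cnt_rnil
    have h5 := L1S5.c_ch (s := s) (by omega)
    rcases h.words w hw with e | ⟨-, e | e⟩ <;> rw [e, cntw1] <;> omega
  · intro w hw
    have h1 := count_lp1 (n + 2)
    have h2 := raise_lp1 (n := n + 2) (by omega)
    have h3 := cnt_nil1
    have h4 := cnt_rnil
    have h5 := L1S5.c_ch (s := s) (by omega)
    rcases h.words w hw with e | ⟨-, e | e⟩ <;> rw [e, cntw1] <;> omega
  · intro w hw
    have h1 := count_lp1 n
    have h5 := L1S5.c_ch (s := s) (by omega)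
    have h3 : (OddHC.cont (app (H1.ch s) (lp n))).count 1 = n := by
      rw [cont_app, Multiset.count_add, h1, h5]; omega
    have h4 : (raise (OddHC.cont (app (H1.ch s) (lp n)))).count 1 = n := by
      obtain ⟨t, rfl⟩ : ∃ t, s = t + 2 + 1 := ⟨s - 3, by omega⟩
      rw [H1.raise_one, h3]
      rw [cont_app, Multiset.sup_add, cont_chV, Multiset.sup_singleton]
      exact le_sup_of_le_left (by omega)
    have h6 : (OddHC.cont (lp 1)).count 1 = 1 := count_lp1 1
    have h7 : (raise (OddHC.cont (lp 1))).count 1 = 0 := raise_lp1 (n := 1) (by omega)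
    have h8 : (OddHC.cont (H1.ch 2)).count 1 = 0 := L1S5.c_ch (by omega)
    have h9 : (raise (OddHC.cont (H1.ch 2))).count 1 = 0 := by
      rw [show H1.ch 2 = H1.ch (1 + 1) from rfl, cont_chV, H1.raise_one (by simp)]
      simp
    rcases h.words w hw with e | ⟨-, e | e⟩
    · rw [e, cntw1]; omega
    · rw [e, cntw1]; omega
    · intro _
      have e' : w.1 = (.nil △ .nil) △ ((.nil △ .nil) △ app (H1.ch s) (lp n)) := e
      have hl : p3 (OddHC.cont (lp n)) = 0 := by
        rw [cont_lp1]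
        exact p3_low fun x hx => by rw [Multiset.eq_of_mem_replicate hx]; omega
      obtain ⟨t, rfl⟩ : ∃ t, s = t + 1 := ⟨s - 1, by omega⟩
      have hc : p3 (OddHC.cont (H1.ch (t + 1))) = 1 := by
        rw [cont_chV]
        exact p3_single hs
      have h2 : p3 (raise (OddHC.cont ((.nil : BinaryTree Unit) △ .nil))) = 0 := by
        rw [cont_pp]
        decide
      have en : ∀ A C : BinaryTree Unit, p3 (OddHC.cont (A △ C)) =
          p3 (raise (OddHC.cont A)) + p3 (OddHC.cont C) := fun A C => by rw [cont_node, p3_add]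
      rw [e', en, en, cont_app, p3_add, h2, hc, hl]

namespace J3

variable {R B S : BinaryTree Unit}

/-- lower bound for the number of parts `≥ 3` -/
def Ge (n : ℕ) (t : BinaryTree Unit) : Prop := n ≤ p3 (OddHC.cont t)

theorem Ge.node {a b : ℕ} {A C : BinaryTree Unit} (h : Ge a A) (h' : Ge b C) : Ge (a + b) (A △ C) := by
  unfold Ge at *
  rw [cont_node, p3_add]
  have := p3_raise_ge (OddHC.cont A)
  omega

theorem Ge.app {a b : ℕ} {A C : BinaryTree Unit} (h : Ge a A) (h' : Ge b C) :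
    Ge (a + b) (OddHC.app A C) := by
  unfold Ge at *
  rw [cont_app, p3_add]
  omega

theorem Ge.z (t : BinaryTree Unit) : Ge 0 t := Nat.zero_le _

theorem Ge.n1 {a : ℕ} {A C : BinaryTree Unit} (h : Ge a A) : Ge a (A △ C) := h.node (Ge.z C)

theorem Ge.n2 {a : ℕ} {A C : BinaryTree Unit} (h : Ge a C) : Ge a (A △ C) := by
  have := (Ge.z A).node h
  rwa [zero_add] at this

theorem Ge.a1 {a : ℕ} {A C : BinaryTree Unit} (h : Ge a A) : Ge a (OddHC.app A C) := h.app (Ge.z C)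

theorem Ge.a2 {a : ℕ} {A C : BinaryTree Unit} (h : Ge a C) : Ge a (OddHC.app A C) := by
  have := (Ge.z A).app h
  rwa [zero_add] at this

theorem Ge.cast {a b : ℕ} {A : BinaryTree Unit} (h : Ge a A) (e : b = a) : Ge b A := e ▸ h

/-- the words have at least as many parts `≥ 3` as `R` -/
theorem SqD.p3W (h : SqD k R B S) {i : ℕ} (hi : i < 20) :
    p3 (OddHC.cont R) ≤ p3 (OddHC.cont (H1.W R .nil B S i)) := by
  change Ge (p3 (OddHC.cont R)) _
  have hR : Ge (p3 (OddHC.cont R)) R := le_rfl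
  have hB : Ge (p3 (OddHC.cont B)) B := le_rfl
  have hS : Ge (p3 (OddHC.cont S)) S := le_rfl
  have e : p3 (OddHC.cont R) = p3 (OddHC.cont B) + p3 (OddHC.cont S) := by
    rw [← h.cont, p3_add]
  have e' : p3 (OddHC.cont R) = p3 (OddHC.cont S) + p3 (OddHC.cont B) := by rw [e, add_comm]
  interval_cases i
  · exact hR.a1
  · exact hR.a1
  · exact (hR.a1).n2
  · exact (hR.a1).n1
  · exact hR.n2
  · exact (hR.n2).n2
  · exact hR.n1
  · exact (hR.n2).n1
  · exact (hR.n1).n2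
  · exact (hR.n1).n1
  · exact (hB.app (hS.n2)).cast e
  · exact (hB.app ((hS.n2).n2)).cast e
  · exact (hS.node hB.a1).cast e'
  · exact (hS.app (hB.a1).n1).cast e'
  · exact ((hS.n2).node hB).cast e'
  · exact ((hS.node hB).n2).cast e'
  · exact (hS.app hB.n1).cast e'
  · exact ((hS.node hB).n1).cast e'
  · exact ((hS.app hB.n1).n2).cast e'
  · exact ((hS.app hB.n1).n1).cast e'

/-- the words have at most two parts 1 -/
theorem SqD.cnt2 (h : SqD k R B S) {i : ℕ} (hi : i < 20) :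
    (OddHC.cont (H1.W R .nil B S i)).count 1 ≤ 2 := by
  have kR := h.one
  have sR : 2 ≤ (OddHC.cont R).sup := two_le h.one h.ne
  have sS : 2 ≤ (OddHC.cont S).sup := two_le h.oneS h.neS
  have kS := h.oneS
  have kB := h.oneB
  have cn : ∀ A C : BinaryTree Unit, (OddHC.cont (A △ C)).count 1 =
      (raise (OddHC.cont A)).count 1 + (OddHC.cont C).count 1 := by
    intro A C
    rw [cont_node, Multiset.count_add]
  have ca : ∀ A C : BinaryTree Unit, (OddHC.cont (app A C)).count 1 =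
      (OddHC.cont A).count 1 + (OddHC.cont C).count 1 := by
    intro A C
    rw [cont_app, Multiset.count_add]
  have r0 : (raise (OddHC.cont (BinaryTree.nil : BinaryTree Unit))).count 1 = 1 := by
    rw [cont_nil, raise_zero]; rfl
  have c0 : (OddHC.cont (BinaryTree.nil : BinaryTree Unit)).count 1 = 0 := rfl
  have cl : (raise (OddHC.cont ((BinaryTree.nil : BinaryTree Unit) △ .nil))).count 1 = 0 := by
    rw [cont_pp]
    decide
  have rr : ∀ t : BinaryTree Unit, 2 ≤ (OddHC.cont t).sup →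
      (raise (OddHC.cont t)).count 1 = (OddHC.cont t).count 1 := fun t ht => H1.raise_one ht
  have sa : ∀ A C : BinaryTree Unit, (OddHC.cont (app A C)).sup =
      max (OddHC.cont A).sup (OddHC.cont C).sup := by
    intro A C
    rw [cont_app, Multiset.sup_add]
  have sn : ∀ A C : BinaryTree Unit, (OddHC.cont (A △ C)).sup =
      max ((OddHC.cont A).sup + 1) (OddHC.cont C).sup := by
    intro A C
    rw [cont_node, Multiset.sup_add, sup_raise]
  have app0 : ∀ X : BinaryTree Unit, app .nil X = X := fun _ => rfl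
  have app1 : ∀ A X Y : BinaryTree Unit, app (A △ X) Y = A △ app X Y := fun _ _ _ => rfl
  have rR := rr R (by omega)
  have rS := rr S (by omega)
  have rR1 := rr (app R (.nil △ .nil)) (by rw [sa]; omega)
  have rR2 := rr (.nil △ R) (by rw [sn]; omega)
  have rR3 := rr (R △ .nil) (by rw [sn]; omega)
  have rS2 := rr (S △ B) (by rw [sn]; omega)
  have rS3 := rr (app S (B △ .nil)) (by rw [sa]; omega)
  have rS1 := rr (.nil △ S) (by rw [sn]; omega)
  by_cases hB : B = .nil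
  · subst hB
    interval_cases i <;>
      simp only [H1.W, app0, app1, ca, cn, r0, c0, cl, rR, rS, rR1, rR2, rR3, rS1, rS2, rS3,
        kR, kS] <;> norm_num
  · have sB : 2 ≤ (OddHC.cont B).sup := two_le h.oneB hB
    have rB := rr B (by omega)
    have rB1 := rr (app B (.nil △ .nil)) (by rw [sa]; omega)
    interval_cases i <;>
      simp only [H1.W, app0, app1, ca, cn, r0, c0, cl, rR, rB, rS, rR1, rR2, rR3, rB1, rS1, rS2,
        rS3, kR, kS, kB] <;> norm_num

/-- **words `W R nil B S i` with two parts `≥ 3` in `R` are no words of S5** -/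
theorem SqD.not_S5 (h : SqD k R B S) (h3 : 2 ≤ p3 (OddHC.cont R)) (h' : TyS5 F' g') {w : X k}
    {i : ℕ} (hi : i < 20) (e : w.1 = H1.W R .nil B S i) : w ∉ g'.B := by
  intro hw
  have h1 := h'.p3_le w hw (by rw [e]; exact h.cnt2 hi)
  have h2 := h.p3W hi
  rw [e] at h1
  omega

/-- the same for the images under `T` -/
theorem SqD.not_S5T (h : SqD k R B S) (h3 : 2 ≤ p3 (OddHC.cont R)) (h' : TyS5 F' g') {w : X k}
    {i : ℕ} (hi : i < 20) (e : w.1 = H1.W R .nil B S i) : TT w ∉ g'.B := by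
  intro hw
  have h4 : OddHC.cont (TT w).1 = OddHC.cont (H1.W R .nil B S i) := by
    rw [TT_apply, cont_TF, e]
  have h1 := h'.p3_le _ hw (by rw [h4]; exact h.cnt2 hi)
  have h2 := h.p3W hi
  rw [h4] at h1
  omega

end J3

open J3

/-- two parts `≥ 3` in the group of J2B -/
theorem TyJ2R.two3 {R B S : BinaryTree Unit} (h : TyJ2R R B S F g)
    (hV : ∀ c ∈ F, 2 ≤ (contc c).countP (3 ≤ ·)) : 2 ≤ p3 (OddHC.cont R) := by
  obtain ⟨w0, h1, hp, rfl, rfl⟩ := h
  have h2 := hV _ (Or.inl rfl)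
  have h3 : contc (cyc (sX R B S w0 0)) = OddHC.cont R + {2} := h1.cont0 w0
  rw [h3, Multiset.countP_add] at h2
  have k1 : Multiset.countP (3 ≤ ·) ({2} : Multiset ℕ) = 0 := by decide
  unfold p3
  omega

/-- **W-J2B-S5** -/
theorem TyJ2B.w_S5 (h : TyJ2B F g) (h' : TyS5 F' g') (hV : ∀ c ∈ F, 2 ≤ (contc c).countP (3 ≤ ·)) :
    ∀ w ∈ g.B, w ∉ g'.B := by
  obtain ⟨R, B, S, h⟩ := h
  intro w hw
  obtain ⟨i, hi, e⟩ := h.words w hw
  exact h.sqd.not_S5 (h.two3 hV) h' hi e

theorem TyJ2B.disj_S5 (h : TyJ2B F g) (h' : TyS5 F' g')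
    (hV : ∀ c ∈ F, 2 ≤ (contc c).countP (3 ≤ ·)) : Disjoint g.B g'.B := by
  rw [Finset.disjoint_left]
  exact h.w_S5 h' hV

/-- **I-J2B-S5** (S5 has no arcs) -/
theorem TyJ2B.inner_S5 (h : TyJ2B F g) (h' : TyS5 F' g')
    (hV : ∀ c ∈ F, 2 ≤ (contc c).countP (3 ≤ ·)) : ∀ a ∈ g.arcs, ∀ w ∈ innA a, w ∉ g'.B := by
  obtain ⟨R, B, S, h⟩ := h
  intro a ha w hw
  have hne : ∃ w0 : X k, True := ⟨a.1, trivial⟩
  obtain ⟨w0, -⟩ := hne
  obtain ⟨i, hi, rfl⟩ := h.inn w0 a ha w hw
  have hi' : i < 20 := (by decide : ∀ i ∈ [1, 3, 6, 8], i < 20) i hi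
  exact h.sqd.not_S5T (h.two3 hV) h' hi' (h.sqd.word w0 hi')

/-- the words and inner words of J2B have no hidden bead -/
theorem TyJ2R.gj {R B S : BinaryTree Unit} (h : TyJ2R R B S F g) : Ft.GJ g := by
  refine Ft.GJ.right h.sqd.bf h.words ?_
  intro a ha
  obtain ⟨q, hq, e⟩ := (h.arcs a.1 a).1 ha
  have hq' : q.1 < 20 ∧ q.1 ∈ [0, 1, 3, 6, 8, 9] :=
    (by decide : ∀ q ∈ [(1, 11), (3, 12), (6, 15), (8, 14)], q.1 < 20 ∧ q.1 ∈ [0, 1, 3, 6, 8, 9]) q hq
  refine ⟨q.1, hq'.2, ?_⟩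
  have e1 := congrArg Prod.fst e
  change a.1 = sX R B S a.1 q.1 at e1
  exact (congrArg Subtype.val e1).trans (h.sqd.word a.1 hq'.1)

theorem TyJ2B.gj (h : TyJ2B F g) : Ft.GJ g := by
  obtain ⟨R, B, S, h⟩ := h
  exact h.gj

/-- **W-J2B-L1** -/
theorem TyL1.disj_J2B (hk : 9 ≤ k) (h : TyL1 F g) (h' : TyJ2B F' g') : ∀ w ∈ g.B, w ∉ g'.B :=
  h.disj_GJ hk h'.gj

/-- **I-L1-J2B** -/
theorem TyL1.inner_J2B (hk : 9 ≤ k) (h : TyL1 F g) (h' : TyJ2B F' g') :
    ∀ a ∈ g.arcs, ∀ w ∈ innA a, w ∉ g'.B := h.inner_GJ hk h'.gj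

/-- **I-J2B-L1** -/
theorem TyJ2B.inner_L1 (hk : 9 ≤ k) (h : TyJ2B F g) (h' : TyL1 F' g') :
    ∀ a ∈ g.arcs, ∀ w ∈ innA a, w ∉ g'.B := TyL1.GJ_inner hk h.gj h'

end Pool.OddHC
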