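import Pool.Agent.Work.MP_8f87b2_h49.JVw
import Pool.Agent.Work.MP_8f87b2_h22.JT
import Pool.Agent.Work.MP_8f87b2_h71ae.AE

/-!
# MP_8f87b2_co: the windows A (with a part 1) and T against JV (`Is9 nil nil Z`), words

No common word, for every `Z` without a part 1 and height at least 2.
-/

set_option autoImplicit false

namespace Pool.OddHC

open Finset Equiv BinaryTree Pool.Agent.Work.MP_8f87b2_co

namespace JVA

variable {k : ℕ} {Z R B S : BinaryTree Unit}

/-- a part 1 and a part which is at least 2 -/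
def P1 (t : BinaryTree Unit) : Prop := 1 ≤ (OddHC.cont t).count 1 ∧ 2 ≤ (OddHC.cont t).sup

theorem P1.al {P Q : BinaryTree Unit} (h : P1 P) : P1 (app P Q) := by
  unfold P1 at *
  rw [cont_app, Multiset.count_add, Multiset.sup_add]
  exact ⟨by omega, by omega⟩

theorem P1.ar {P Q : BinaryTree Unit} (h : P1 Q) : P1 (app P Q) := by
  unfold P1 at *
  rw [cont_app, Multiset.count_add, Multiset.sup_add]
  exact ⟨by omega, by omega⟩

theorem P1.nl {A C : BinaryTree Unit} (h : P1 A) : P1 (A △ C) := by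
  unfold P1 at *
  rw [cont_node, Multiset.count_add, Multiset.sup_add, sup_raise, H1.raise_one h.2]
  exact ⟨by omega, by omega⟩

theorem P1.nr {A C : BinaryTree Unit} (h : P1 C) : P1 (A △ C) := by
  unfold P1 at *
  rw [cont_node, Multiset.count_add, Multiset.sup_add]
  exact ⟨by omega, by omega⟩

/-- every word of such a window has a part 1 -/
theorem P1_W (hR : P1 R) (hS : P1 S) (Q : BinaryTree Unit) {i : ℕ} (hi : i < 20) :
    P1 (H1.W R Q B S i) := by
  interval_cases i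
  · exact hR.al
  · exact hR.al
  · exact (hR.al).nr
  · exact (hR.al).nl
  · exact hR.nr
  · exact (hR.nr).nr
  · exact hR.nl
  · exact ((hR.nr).nl).ar
  · exact ((hR.nl).nr).ar
  · exact (hR.nl).nl
  · exact (hS.nr).ar
  · exact (((hS.nr).ar).nr).ar
  · exact hS.nl
  · exact hS.al
  · exact ((hS.nr).ar).nl
  · exact (hS.nl).nr
  · exact hS.al
  · exact ((hS.nl).nl).ar
  · exact ((hS.al).nr).ar
  · exact (hS.al).nl

theorem c_app (P Q : BinaryTree Unit) : (OddHC.cont (app P Q)).count 1 =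
    (OddHC.cont P).count 1 + (OddHC.cont Q).count 1 := by
  rw [cont_app, Multiset.count_add]

theorem c_leaf (C : BinaryTree Unit) : (OddHC.cont (.nil △ C)).count 1 =
    1 + (OddHC.cont C).count 1 := by
  rw [cont_node, Multiset.count_add, cont_nil, raise_zero]
  simp

theorem c_node {A : BinaryTree Unit} (h : 2 ≤ (OddHC.cont A).sup) (C : BinaryTree Unit) :
    (OddHC.cont (A △ C)).count 1 = (OddHC.cont A).count 1 + (OddHC.cont C).count 1 := by
  rw [cont_node, Multiset.count_add, H1.raise_one h]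

/-- the possible `X` have two parts 1, or one component with a part 1 -/
theorem sh_X (hR : P1 R) (hS : P1 S) {q i : ℕ} {X : BinaryTree Unit} (h : H1.Sh q R B S X i) :
    2 ≤ (OddHC.cont X).count 1 ∨ (1 ≤ (OddHC.cont X).count 1 ∧ ∃ Y, X = Y △ .nil) := by
  have r1 := hR.1
  have s1 := hS.1
  rcases h with ⟨rfl, _⟩ | ⟨_, rfl, _⟩ | ⟨_, h⟩
  · left
    rw [c_app, c_leaf]
    omega
  · left
    rw [c_app, c_leaf]
    omega
  · rcases h with ⟨_, rfl⟩ | ⟨_, rfl⟩ | ⟨_, rfl⟩ | ⟨_, rfl⟩ | ⟨_, rfl⟩ | ⟨_, rfl⟩ | ⟨_, rfl⟩ | ⟨_, rfl⟩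
    · left
      rw [c_leaf, c_app, c_leaf]
      omega
    · exact Or.inr ⟨(hR.nr.nl : P1 ((.nil △ R) △ .nil)).1, _, rfl⟩
    · left
      rw [c_leaf]
      have := (hR.nl : P1 (R △ .nil)).1
      omega
    · exact Or.inr ⟨(hR.nl.nl : P1 ((R △ .nil) △ .nil)).1, _, rfl⟩
    · left
      rw [c_node hS.2, c_app, c_leaf]
      omega
    · exact Or.inr ⟨(hS.nl.nl : P1 ((S △ B) △ .nil)).1, _, rfl⟩
    · left
      rw [c_leaf]
      have := (hS.al : P1 (app S (B △ .nil))).1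
      omega
    · exact Or.inr ⟨(hS.al.nl : P1 (app S (B △ .nil) △ .nil)).1, _, rfl⟩

/-- **a window with a part 1 has no word of JV** -/
theorem win_JV (hW : H1.Wd R B S) (hR : P1 R) (hS : P1 S) {q i : ℕ} (hi : i < 20)
    (h0 : (OddHC.cont Z).count 1 = 0) (h2 : 2 ≤ ht Z) {j : ℕ} (hj : j < 9)
    (e : H1.W R (H1.ch (q + 1)) B S i = w9L .nil .nil Z (xT Z) j) : False := by
  have hZ : Z ≠ .nil := by
    rintro rfl
    rw [OddHC.ht] at h2
    omega
  have hz : 2 ≤ (OddHC.cont Z).sup := by rw [← OddHC.ht_eq]; exact h2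
  have c1 := (P1_W (B := B) hR hS (H1.ch (q + 1)) hi).1
  rw [e, (w9_cont h0 h2 hj rfl).2] at c1
  have hs := cont_sqV hZ
  have hz' : 2 ≤ (OddHC.cont (Tsq.sq Z).1).sup := by
    rw [← OddHC.ht_eq, (ht_sq hZ).1]; exact h2
  have cX : (OddHC.cont ((Tsq.sq Z).1 △ (Tsq.sq Z).2)).count 1 = 0 := by
    rw [c_node hz', ← Multiset.count_add, hs, h0]
  have cZ : (OddHC.cont (Z △ .nil)).count 1 = 0 := by
    rw [c_node hz, h0]; rfl
  have cA : (OddHC.cont (.nil △ Z)).count 1 = 1 := by rw [c_leaf, h0]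
  have cB : (OddHC.cont (app Z (.nil △ .nil))).count 1 = 1 := by
    rw [c_app, c_leaf, h0]; rfl
  have key : ∀ X : BinaryTree Unit, (OddHC.cont X).count 1 ≤ 1 →
      (1 ≤ (OddHC.cont X).count 1 → ∀ Y, X ≠ Y △ .nil) →
      (H1.W R (H1.ch (q + 1)) B S i = X △ .nil ∨ H1.W R (H1.ch (q + 1)) B S i = app X (.nil △ .nil) ∨
      H1.W R (H1.ch (q + 1)) B S i = .nil △ X) → False := by
    intro X x1 x2 x3
    rcases sh_X hR hS (H1.ae_shape hW hi x3) with h | ⟨h, Y, hY⟩
    · omega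
    · exact x2 h Y hY
  obtain ⟨e0, e1, e2, e3, e4, e5, e6, e7, e8⟩ := w9_forms Z
  interval_cases j
  · simp at c1
  · simp at c1
  · refine key _ (by omega) ?_ (Or.inl (e.trans e2))
    intro _ Y hY
    exact hZ (H1.node_inj hY).2
  · simp at c1
  · refine key _ (by omega) ?_ (Or.inl (e.trans e4))
    intro _ Y hY
    cases Z with
    | nil => exact hZ rfl
    | node _ Z1 Z2 =>
      have hY' : Z1 △ app Z2 (.nil △ .nil) = Y △ .nil := hY
      exact H1.app_ne (by simp) (H1.node_inj hY').2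
  · refine key (Z △ .nil) (by omega) (fun h => by omega) (Or.inr (Or.inl (e.trans e5)))
  · simp at c1
  · refine key ((Tsq.sq Z).1 △ (Tsq.sq Z).2) (by omega) (fun h => by omega)
      (Or.inr (Or.inl (e.trans e7)))
  · refine key ((Tsq.sq Z).1 △ (Tsq.sq Z).2) (by omega) (fun h => by omega)
      (Or.inr (Or.inr (e.trans e8)))

theorem P1.of_cont {t : BinaryTree Unit} (h1 : 1 ≤ (OddHC.cont t).count 1) (h2 : 2 ≤ (OddHC.cont t).sup) :
    P1 t := ⟨h1, h2⟩

/-- the shape of a window from `WinF` -/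
theorem wd_of_winF (h : J.WinF R B S) : H1.Wd R B S := by
  have f1 : ∀ {t A : BinaryTree Unit} {Y : List (BinaryTree Unit)}, J.cs t = A :: Y → A ≠ .nil →
      t ≠ .nil ∧ H1.fb t = false := by
    intro t A Y e hA
    cases t with
    | nil => simp at e
    | node _ C D =>
      rw [J.cs_node, List.cons.injEq] at e
      refine ⟨by simp, ?_⟩
      change H1.isNil C = false
      rw [e.1]
      exact H1.isNil_f.2 hA
  have f2 : ∀ (t A : BinaryTree Unit) (Y : List (BinaryTree Unit)), (J.cs t).reverse = A :: Y → A ≠ .nil →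
      H1.lastB t = false := by
    intro t
    induction t with
    | nil => intro A Y _ _; rfl
    | node _ C D _ ih =>
      intro A Y e hA
      cases D with
      | nil =>
        rw [H1.lastB_one]
        rw [J.cs_node, J.cs_nil] at e
        simp at e
        rw [e.1]
        exact H1.isNil_f.2 hA
      | node _ D1 D2 =>
        rw [H1.lastB_cons (by simp)]
        rw [J.cs_node, List.reverse_cons] at e
        have hne : (J.cs (D1 △ D2)).reverse ≠ [] := by
          rw [J.cs_node]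
          simp
        obtain ⟨A', Y', e'⟩ := List.exists_cons_of_ne_nil hne
        rw [e'] at e
        rw [List.cons_append, List.cons.injEq] at e
        rw [← e.1] at hA
        exact ih A' Y' e' hA
  obtain ⟨A, Y, a1, a2, _⟩ := h.fR
  obtain ⟨A', Y', b1, b2, _⟩ := h.lR
  obtain ⟨A2, Y2, c1, c2, _⟩ := h.fS
  obtain ⟨A3, Y3, d1, d2⟩ := h.lS
  refine ⟨(f1 a1 a2).1, (f1 a1 a2).2, f2 _ _ _ b1 b2, ?_, ?_, (f1 c1 c2).1, (f1 c1 c2).2, f2 _ _ _ d1 d2⟩
  · rcases h.fB with e | ⟨A4, Y4, g1, g2, _⟩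
    · rw [e]; rfl
    · exact (f1 g1 g2).2
  · rcases h.lB with e | ⟨A4, Y4, g1, g2, _⟩
    · rw [e]; rfl
    · exact f2 _ _ _ g1 g2

theorem winF_JV (h : J.WinF R B S) {q i : ℕ} (hi : i < 20)
    (h0 : (OddHC.cont Z).count 1 = 0) (h2 : 2 ≤ ht Z) {j : ℕ} (hj : j < 9)
    (e : H1.W R (H1.ch (q + 1)) B S i = w9L .nil .nil Z (xT Z) j) : False :=
  win_JV (wd_of_winF h) ⟨h.oR, by have := h.hR; omega⟩ ⟨h.oS, h.hS⟩ hi h0 h2 hj e

variable {F F' : Set (Cyc k)} {g g' : DG k}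

/-- **W-A-JV** : the windows A with a part 1 -/
theorem tyA_JV (hA : TyA F g) (hm : ∀ c ∈ F, 1 ≤ (contc c).count 1) (h9 : Is9 .nil .nil Z F' g')
    (h0 : (OddHC.cont Z).count 1 = 0) (h2 : 2 ≤ ht Z) : Disjoint g.B g'.B := by
  obtain ⟨q, B1, H, s, B, w0, hg, rfl, rfl⟩ := hA
  rw [Finset.disjoint_left]
  intro w hw hw'
  obtain ⟨i, hi, rfl⟩ := mem_gad20.1 hw
  obtain ⟨j, hj, e, -⟩ := h9.words _ hw'
  have h1 := hm _ rfl
  have h3 : OddHC.cont (H1.gX q B1 H s B w0 0).1 = OddHC.cont (H1.gR B1 H s B) + {q + 3} := hg.cont0 w0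
  have h4 : 1 ≤ (OddHC.cont (H1.gR B1 H s B)).count 1 := by
    change 1 ≤ (OddHC.cont (H1.gX q B1 H s B w0 0).1).count 1 at h1
    rw [h3, Multiset.count_add, Multiset.count_singleton, if_neg (by omega)] at h1
    omega
  rw [hg.word w0 hi] at e
  exact winF_JV (J.winF_A hg h4) hi h0 h2 hj e

/-- **W-T-JV** : the windows of height 3 -/
theorem tyT_JV (hT : TyT F g) (h9 : Is9 .nil .nil Z F' g')
    (h0 : (OddHC.cont Z).count 1 = 0) (h2 : 2 ≤ ht Z) : Disjoint g.B g'.B := by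
  obtain ⟨b, m, a, w0, hg, rfl, rfl⟩ := hT
  rw [Finset.disjoint_left]
  intro w hw hw'
  obtain ⟨i, hi, rfl⟩ := mem_gad20.1 hw
  obtain ⟨j, hj, e, -⟩ := h9.words _ hw'
  rw [hg.word w0 hi] at e
  exact winF_JV (q := 0) (J.winF_T hg) hi h0 h2 hj e

end JVA

end Pool.OddHC
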