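import Pool.Agent.Work.MP_8f87b2_h49.JVJ1
import Pool.Agent.Work.MP_8f87b2_h13.TyR3

/-!
# MP_8f87b2_co: the right windows `c = 3` (`TyR3`, `TyS3`) against JV (`Is9 nil nil Z`), words

Common words exist only if `Z = (R)`, `(S)B`, `S(B)` (`B` not empty), or `sq Z = (Z', e)` with `Z' = (S)B`, `S(B)` (`B` not empty),
or `(R)` (unmerged window only): `NoX`, `NoX6` exclude them.
-/

set_option autoImplicit false

namespace Pool.OddHC

namespace J1V

open Finset BinaryTree Equiv H1 J1 Pool.Agent.Work.MP_8f87b2_co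

variable {k : ℕ} {R B S Z : BinaryTree Unit}

/-- the phases of JV which collide with a right window over `R` -/
def NoX (R B S Z : BinaryTree Unit) : Prop :=
  Z ≠ R △ .nil ∧ Z ≠ S △ B ∧ (B ≠ .nil → Z ≠ app S (B △ .nil)) ∧
    ((Tsq.sq Z).2 = .nil → (Tsq.sq Z).1 ≠ S △ B ∧ (B ≠ .nil → (Tsq.sq Z).1 ≠ app S (B △ .nil)))

/-- the additional one for the unmerged window -/
def NoX6 (R Z : BinaryTree Unit) : Prop := (Tsq.sq Z).2 = .nil → (Tsq.sq Z).1 ≠ R △ .nil

/-- the feature of the words with `Q = ()`; `b` : `B` is empty -/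
def phR (i : ℕ) : ℕ := [0, 2, 3, 1, 0, 0, 0, 3, 3, 2, 0, 0, 2, 0, 0, 0, 0, 3, 3, 2].getD i 0

def cR (b : Bool) (i : ℕ) : ℕ :=
  if b = true then [0, 3, 3, 2, 1, 1, 0, 2, 2, 1, 0, 3, 2, 1, 2, 0, 1, 1, 3, 2].getD i 0
  else [0, 3, 3, 2, 1, 1, 0, 2, 2, 1, 0, 3, 2, 2, 2, 0, 0, 1, 2, 1].getD i 0

/-- the features of the words which matter -/
theorem ph_R (hR : Ft R) (hB : B = .nil ∨ Ft B) (hS : Ft S) :
    ∀ i < 20, i ∈ [0, 4, 5, 6, 9, 10, 13, 15, 16, 17, 19] →
      ph (W R (.nil △ .nil) B S i) = phR i := by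
  have nR := hR.ne
  have nS := hS.ne
  have lR := hR.len1
  have lS := hS.len1
  have fbn : ∀ A X : BinaryTree Unit, fb (A △ X) = isNil A := fun _ _ => rfl
  have isn : ∀ A X : BinaryTree Unit, isNil (A △ X) = false := fun _ _ => rfl
  have is0 : isNil (BinaryTree.nil : BinaryTree Unit) = true := rfl
  have lnn : ∀ A X : BinaryTree Unit, len (A △ X) = len X + 1 := fun _ _ => rfl
  have ln0 : len (BinaryTree.nil : BinaryTree Unit) = 0 := rfl
  have app0 : ∀ X : BinaryTree Unit, app .nil X = X := fun _ => rfl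
  have app1 : ∀ A X Y : BinaryTree Unit, app (A △ X) Y = A △ app X Y := fun _ _ _ => rfl
  have hne : ∀ A X : BinaryTree Unit, (A △ X) ≠ .nil := fun _ _ => by simp
  have lastn : ∀ A B C : BinaryTree Unit, lastB (A △ (B △ C)) = lastB (B △ C) := fun _ _ _ => rfl
  have lR' : ∀ A : BinaryTree Unit, lastB (A △ R) = false := fun A => by rw [lastB_cons nR, hR.la0]
  have lS' : ∀ A : BinaryTree Unit, lastB (A △ S) = false := fun A => by rw [lastB_cons nS, hS.la0]
  have la : ∀ P A X : BinaryTree Unit, lastB (app P (A △ X)) = lastB (A △ X) := fun P A X => lastB_app (hne _ _)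
  have iS : isNil (app S (B △ .nil)) = false := isNil_f.2 (app_ne (hne _ _))
  have lB' : lastB (S △ B) = false := by
    rcases hB with rfl | hB
    · exact hS.isn
    · rw [lastB_cons hB.ne, hB.la0]
  have fB : ∀ X Y : BinaryTree Unit, isNil X = false → fb (app B (X △ Y)) = false := by
    intro X Y hX
    rcases hB with rfl | hB
    · exact hX
    · rw [J1.fb_app hB.ne, hB.fb0]
  intro i hi hm
  simp only [List.mem_cons, List.not_mem_nil, or_false] at hm
  rcases hm with rfl | rfl | rfl | rfl | rfl | rfl | rfl | rfl | rfl | rfl | rfl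
  · -- 0
    simp only [W, ph, phR, J1.fb_app nR, hR.fb0, la, lastB_one, isn, len_app, lnn, ln0]
    simp; omega
  · -- 4
    simp only [W, ph, phR, app0, app1, fbn, isn, lR', lnn]
    simp; omega
  · -- 5
    simp only [W, ph, phR, fbn, isn, lastn, lR', lnn]
    simp
  · -- 6
    simp only [W, ph, phR, fbn, hR.isn, lastn, lastB_one, isn, lnn, ln0]
    simp
  · -- 9
    simp only [W, ph, phR, fbn, isn, lastn, lastB_one, is0, lnn, ln0]
    simp
  · -- 10
    simp only [W, ph, phR, fB _ _ (isn _ _), la, lS', len_app, lnn]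
    simp; omega
  · -- 13
    have : isNil (app B (.nil △ (.nil △ .nil))) = false := isNil_f.2 (app_ne (hne _ _))
    simp only [W, ph, phR, J1.fb_app nS, hS.fb0, la, lastB_one, this, len_app, lnn, ln0]
    simp; omega
  · -- 15
    simp only [W, ph, phR, fbn, isn, lastn, lB', lnn]
    simp
  · -- 16
    simp only [W, ph, phR, J1.fb_app nS, hS.fb0, la, lastn, lastB_one, isn, len_app, lnn, ln0]
    simp
  · -- 17
    simp only [W, ph, phR, app0, app1, fbn, is0]
    simp
  · -- 19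
    simp only [W, ph, phR, fbn, iS, lastn, lastB_one, is0, lnn, ln0]
    simp

/-- the number of parts 1 -/
theorem c_R (bR : ∀ x ∈ OddHC.cont R, 3 ≤ x) (nR : R ≠ .nil) (bB : ∀ x ∈ OddHC.cont B, 3 ≤ x)
    (bS : ∀ x ∈ OddHC.cont S, 3 ≤ x) (nS : S ≠ .nil) :
    ∀ i < 20, (OddHC.cont (W R (.nil △ .nil) B S i)).count 1 = cR (isNil B) i := by
  have k0 : ∀ M : Multiset ℕ, (∀ x ∈ M, 3 ≤ x) → M.count 1 = 0 := fun M hM => by
    rw [Multiset.count_eq_zero]
    intro h1
    have := hM 1 h1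
    omega
  have kR := k0 _ bR
  have kB := k0 _ bB
  have kS := k0 _ bS
  have big : ∀ t : BinaryTree Unit, t ≠ .nil → (∀ x ∈ OddHC.cont t, 3 ≤ x) → 3 ≤ (OddHC.cont t).sup := by
    intro t ht hb
    have h0 : OddHC.cont t ≠ 0 := fun e => ht (cont_eq_zero.1 e)
    exact hb _ (sup_mem h0)
  have sR := big R nR bR
  have sS := big S nS bS
  have cn : ∀ A C : BinaryTree Unit, (OddHC.cont (A △ C)).count 1 =
      (raise (OddHC.cont A)).count 1 + (OddHC.cont C).count 1 := by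
    intro A C
    rw [cont_node, Multiset.count_add]
  have ca : ∀ A C : BinaryTree Unit, (OddHC.cont (app A C)).count 1 =
      (OddHC.cont A).count 1 + (OddHC.cont C).count 1 := by
    intro A C
    rw [cont_app, Multiset.count_add]
  have r0 : (raise (OddHC.cont (BinaryTree.nil : BinaryTree Unit))).count 1 = 1 := by
    rw [cont_nil, raise_zero]; rfl
  have c0 : (OddHC.cont (BinaryTree.nil : BinaryTree Unit)).count 1 = 0 := rfl
  have cl : (raise (OddHC.cont ((BinaryTree.nil : BinaryTree Unit) △ .nil))).count 1 = 0 := by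
    rw [cont_pp]
    decide
  have cl2 : (raise (OddHC.cont (((BinaryTree.nil : BinaryTree Unit) △ .nil) △ .nil))).count 1 = 0 := by
    rw [cont_ppp]
    decide
  have cl3 : (raise (OddHC.cont ((BinaryTree.nil : BinaryTree Unit) △ (.nil △ .nil)))).count 1 = 1 := by
    rw [cont_node, cont_pp, cont_nil, raise_zero]
    decide
  have rr : ∀ t : BinaryTree Unit, 2 ≤ (OddHC.cont t).sup →
      (raise (OddHC.cont t)).count 1 = (OddHC.cont t).count 1 := fun t ht => H1.raise_one ht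
  have sa : ∀ A C : BinaryTree Unit, (OddHC.cont (app A C)).sup =
      max (OddHC.cont A).sup (OddHC.cont C).sup := by
    intro A C
    rw [cont_app, Multiset.sup_add]
  have sn : ∀ A C : BinaryTree Unit, (OddHC.cont (A △ C)).sup =
      max ((OddHC.cont A).sup + 1) (OddHC.cont C).sup := by
    intro A C
    rw [cont_node, Multiset.sup_add, sup_raise]
  have s0 : (OddHC.cont (BinaryTree.nil : BinaryTree Unit)).sup = 0 := rfl
  have app0 : ∀ X : BinaryTree Unit, app .nil X = X := fun _ => rfl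
  have app1 : ∀ A X Y : BinaryTree Unit, app (A △ X) Y = A △ app X Y := fun _ _ _ => rfl
  have rR := rr R (by omega)
  have rS := rr S (by omega)
  have rR1 := rr (app R (.nil △ (.nil △ .nil))) (by rw [sa]; omega)
  have rR2 := rr (.nil △ R) (by rw [sn]; omega)
  have rR3 := rr (R △ .nil) (by rw [sn]; omega)
  have rS1 := rr (.nil △ (.nil △ S)) (by rw [sn, sn]; omega)
  have rS2 := rr (S △ B) (by rw [sn]; omega)
  have rS3 := rr (app S (B △ .nil)) (by rw [sa]; omega)
  intro i hi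
  by_cases hB : B = .nil
  · subst hB
    interval_cases i <;>
      simp only [W, cR, isNil, app0, app1, ca, cn, r0, c0, cl, cl2, cl3, rR, rS, rR1, rR2, rR3, rS1, rS2, rS3,
        kR, kB, kS] <;> rfl
  · have sB := big B hB bB
    have rB := rr B (by omega)
    have rB1 := rr (app B (.nil △ (.nil △ .nil))) (by rw [sa]; omega)
    have iB : isNil B = false := isNil_f.2 hB
    interval_cases i <;>
      simp only [W, cR, iB, app0, app1, ca, cn, r0, c0, cl, cl2, cl3, rR, rB, rS, rR1, rR2, rR3, rB1, rS1, rS2,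
        rS3, kR, kB, kS] <;> rfl

theorem pairsR1 : ∀ b : Bool, ∀ i < 20, ∀ j < 9,
    cR b i = (if j = 0 ∨ j = 1 ∨ j = 3 ∨ j = 6 then 0 else 1) →
    i ∈ [0, 4, 5, 6, 9, 10, 13, 15, 16, 17, 19] := by
  intro b i hi j hj
  cases b <;> interval_cases i <;> interval_cases j <;> simp [cR]

theorem pairsR2 : ∀ b : Bool, ∀ i < 20, ∀ j < 9,
    cR b i = (if j = 0 ∨ j = 1 ∨ j = 3 ∨ j = 6 then 0 else 1) → phR i = phV j →
    (b, i, j) ∈ [(false, 0, 0), (true, 0, 0), (false, 0, 1), (true, 0, 1), (false, 6, 0), (true, 6, 0),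
      (false, 6, 1), (true, 6, 1), (false, 10, 0), (true, 10, 0), (false, 10, 1), (true, 10, 1),
      (false, 15, 0), (true, 15, 0), (false, 15, 1), (true, 15, 1), (false, 16, 0), (false, 16, 1),
      (false, 9, 5), (true, 9, 5), (false, 9, 7), (true, 9, 7), (false, 19, 5), (false, 19, 7),
      (false, 17, 8), (true, 17, 8)] := by
  intro b i hi j hj
  cases b <;> interval_cases i <;> interval_cases j <;> simp [cR, phR, phV]

/-- the collisions -/
theorem collR (bR : ∀ x ∈ OddHC.cont R, 3 ≤ x) (nR : R ≠ .nil) (bB : ∀ x ∈ OddHC.cont B, 3 ≤ x)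
    (bS : ∀ x ∈ OddHC.cont S, 3 ≤ x) (nS : S ≠ .nil) (h0 : (OddHC.cont Z).count 1 = 0) (h3 : 2 ≤ ht Z)
    {i j : ℕ} (hi : i < 20) (hj : j < 9)
    (e : W R (.nil △ .nil) B S i = w9L .nil .nil Z (xT Z) j) :
    ¬ NoX R B S Z ∨ (i = 9 ∧ ¬ NoX6 R Z) := by
  have hZ : Z ≠ .nil := by
    rintro rfl
    rw [OddHC.ht] at h3
    omega
  have hR := Ft.of bR nR
  have hS := Ft.of bS nS
  have hB : B = .nil ∨ Ft B := by
    by_cases h : B = .nil
    · exact Or.inl h
    · exact Or.inr (Ft.of bB h)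
  have p2 := c_R bR nR bB bS nS i hi
  rw [(w9_cont h0 h3 hj e).2] at p2
  have hm := pairsR1 (isNil B) i hi j hj p2.symm
  have p1 := ph_R hR hB hS i hi hm
  rw [e, ph_V h0 hZ j hj] at p1
  have hp := pairsR2 (isNil B) i hi j hj p2.symm p1.symm
  obtain ⟨e0, e1, e2, e3, e4, e5, e6, e7, e8⟩ := w9_forms Z
  have hne : ∀ A X : BinaryTree Unit, (A △ X) ≠ .nil := fun _ _ => by simp
  have hB' : isNil B = false → B ≠ .nil := fun h => isNil_f.1 h
  -- the exclusions
  have x1 : Z = R △ .nil → ¬ NoX R B S Z := fun h h' => h'.1 h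
  have x2 : Z = S △ B → ¬ NoX R B S Z := fun h h' => h'.2.1 h
  have x3 : B ≠ .nil → Z = app S (B △ .nil) → ¬ NoX R B S Z := fun h h1 h' => h'.2.2.1 h h1
  have x4 : (Tsq.sq Z).2 = .nil → (Tsq.sq Z).1 = S △ B → ¬ NoX R B S Z := fun h h1 h' =>
    (h'.2.2.2 h).1 h1
  have x5 : (Tsq.sq Z).2 = .nil → B ≠ .nil → (Tsq.sq Z).1 = app S (B △ .nil) → ¬ NoX R B S Z :=
    fun h h1 h2 h' => (h'.2.2.2 h).2 h1 h2
  have l0 : lastI (app Z ((.nil △ .nil) △ .nil)) = .nil △ .nil := by
    rw [lastI_app (hne _ _)]; rfl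
  have lSB : lastI (S △ B) ≠ .nil △ .nil := by
    rcases hB with rfl | hB
    · change S ≠ .nil △ .nil
      intro h
      have := hS.fb0
      rw [h] at this
      simp [fb, isNil] at this
    · rw [lastI_cons hB.ne]
      exact hB.lI1
  simp only [List.mem_cons, Prod.mk.injEq, List.not_mem_nil, or_false] at hp
  have c00 : i = 0 → j = 0 → False := by
    rintro rfl rfl
    rw [e0] at e
    have := (H1.app_snoc e).2
    simp at this
  have c01 : i = 0 → j = 1 → False := by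
    rintro rfl rfl
    rw [e1] at e
    have h5 := congrArg fI e
    change fI (app R (((.nil △ .nil) △ .nil) △ .nil)) = _ at h5
    rw [fI_app nR] at h5
    exact hR.fI1 h5
  have c60 : i = 6 → j = 0 → Z = R △ .nil := by
    rintro rfl rfl
    rw [e0] at e
    have e' : app (R △ .nil) ((.nil △ .nil) △ .nil) = app Z ((.nil △ .nil) △ .nil) := e
    exact (H1.app_snoc e').1.symm
  have c61 : i = 6 → j = 1 → False := by
    rintro rfl rfl
    rw [e1] at e
    have h5 := (H1.node_inj e).1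
    have := hR.fb0
    rw [h5] at this
    simp [fb, isNil] at this
  have ca0 : i = 10 → j = 0 → False := by
    rintro rfl rfl
    rw [e0] at e
    have h5 := congrArg lastI e
    change lastI (app B (((.nil △ .nil) △ .nil) △ S)) = _ at h5
    rw [lastI_app (hne _ _), lastI_cons nS, l0] at h5
    exact hS.lI1 h5
  have ca1 : i = 10 → j = 1 → False := by
    rintro rfl rfl
    rw [e1] at e
    rcases hB with rfl | hB
    · have h5 := (H1.node_inj e).1
      simp at h5
    · have h5 := congrArg fI e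
      change fI (app B (((.nil △ .nil) △ .nil) △ S)) = _ at h5
      rw [fI_app hB.ne] at h5
      exact hB.fI1 h5
  have cf0 : i = 15 → j = 0 → False := by
    rintro rfl rfl
    rw [e0] at e
    have h5 := congrArg lastI e
    change lastI ((.nil △ .nil) △ (S △ B)) = _ at h5
    rw [lastI_cons (hne _ _), l0] at h5
    exact lSB h5
  have cf1 : i = 15 → j = 1 → Z = S △ B := by
    rintro rfl rfl
    rw [e1] at e
    exact (H1.node_inj e).2.symm
  have cg0 : i = 16 → j = 0 → Z = app S (B △ .nil) := by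
    rintro rfl rfl
    rw [e0] at e
    have e' : app (app S (B △ .nil)) ((.nil △ .nil) △ .nil) = app Z ((.nil △ .nil) △ .nil) := by
      rw [H1.app_assoc]
      exact e
    exact (H1.app_snoc e').1.symm
  have cg1 : i = 16 → j = 1 → False := by
    rintro rfl rfl
    rw [e1] at e
    have h5 := congrArg fI e
    change fI (app S (B △ ((.nil △ .nil) △ .nil))) = _ at h5
    rw [fI_app nS] at h5
    exact hS.fI1 h5
  have c95 : i = 9 → j = 5 → Z = R △ .nil := by
    rintro rfl rfl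
    rw [e5] at e
    exact (H1.node_inj e).1.symm
  have c97 : i = 9 → j = 7 → (Tsq.sq Z).1 = R △ .nil ∧ (Tsq.sq Z).2 = .nil := by
    rintro rfl rfl
    rw [e7] at e
    obtain ⟨a, b⟩ := H1.node_inj e
    have b' : app .nil (.nil △ .nil) = app (Tsq.sq Z).2 (.nil △ .nil) := b
    exact ⟨a.symm, (H1.app_snoc b').1.symm⟩
  have cj5 : i = 19 → j = 5 → Z = app S (B △ .nil) := by
    rintro rfl rfl
    rw [e5] at e
    exact (H1.node_inj e).1.symm
  have cj7 : i = 19 → j = 7 → (Tsq.sq Z).1 = app S (B △ .nil) ∧ (Tsq.sq Z).2 = .nil := by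
    rintro rfl rfl
    rw [e7] at e
    obtain ⟨a, b⟩ := H1.node_inj e
    have b' : app .nil (.nil △ .nil) = app (Tsq.sq Z).2 (.nil △ .nil) := b
    exact ⟨a.symm, (H1.app_snoc b').1.symm⟩
  have ch8 : i = 17 → j = 8 → (Tsq.sq Z).1 = S △ B ∧ (Tsq.sq Z).2 = .nil := by
    rintro rfl rfl
    rw [e8] at e
    have e' : BinaryTree.nil △ ((S △ B) △ .nil) = .nil △ ((Tsq.sq Z).1 △ (Tsq.sq Z).2) := e
    obtain ⟨a, b⟩ := H1.node_inj (H1.node_inj e').2
    exact ⟨a.symm, b.symm⟩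
  rcases hp with ⟨-, a, b⟩ | ⟨-, a, b⟩ | ⟨-, a, b⟩ | ⟨-, a, b⟩ | ⟨-, a, b⟩ | ⟨-, a, b⟩ | ⟨-, a, b⟩ |
    ⟨-, a, b⟩ | ⟨-, a, b⟩ | ⟨-, a, b⟩ | ⟨-, a, b⟩ | ⟨-, a, b⟩ | ⟨-, a, b⟩ | ⟨-, a, b⟩ | ⟨-, a, b⟩ |
    ⟨-, a, b⟩ | ⟨h, a, b⟩ | ⟨-, a, b⟩ | ⟨-, a, b⟩ | ⟨-, a, b⟩ | ⟨-, a, b⟩ | ⟨-, a, b⟩ | ⟨h, a, b⟩ |
    ⟨h, a, b⟩ | ⟨-, a, b⟩ | ⟨-, a, b⟩
  · exact (c00 a b).elim
  · exact (c00 a b).elim
  · exact (c01 a b).elim
  · exact (c01 a b).elim
  · exact Or.inl (x1 (c60 a b))
  · exact Or.inl (x1 (c60 a b))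
  · exact (c61 a b).elim
  · exact (c61 a b).elim
  · exact (ca0 a b).elim
  · exact (ca0 a b).elim
  · exact (ca1 a b).elim
  · exact (ca1 a b).elim
  · exact (cf0 a b).elim
  · exact (cf0 a b).elim
  · exact Or.inl (x2 (cf1 a b))
  · exact Or.inl (x2 (cf1 a b))
  · exact Or.inl (x3 (hB' h) (cg0 a b))
  · exact (cg1 a b).elim
  · exact Or.inl (x1 (c95 a b))
  · exact Or.inl (x1 (c95 a b))
  · exact Or.inr ⟨a, fun h' => h' (c97 a b).2 (c97 a b).1⟩
  · exact Or.inr ⟨a, fun h' => h' (c97 a b).2 (c97 a b).1⟩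
  · exact Or.inl (x3 (hB' h) (cj5 a b))
  · exact Or.inl (x5 (cj7 a b).2 (hB' h) (cj7 a b).1)
  · exact Or.inl (x4 (ch8 a b).2 (ch8 a b).1)
  · exact Or.inl (x4 (ch8 a b).2 (ch8 a b).1)

/-- a word of a right window `c = 3` -/
theorem nodeM_coll (h : HM.NodeM k 0 R B S) {w0 : X k} (h0 : (OddHC.cont Z).count 1 = 0) (h3 : 2 ≤ ht Z)
    {i j : ℕ} (hi : i < 20) (hj : j < 9) (e : (H1.wX R B S 0 w0 i).1 = w9L .nil .nil Z (xT Z) j) :
    ¬ NoX R B S Z ∨ (i = 9 ∧ ¬ NoX6 R Z) := by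
  have e' : (H1.wX R B S 0 w0 i).1 = W R (.nil △ .nil) B S i := h.rW w0 hi
  rw [e'] at e
  have hB : ∀ x ∈ OddHC.cont B, 3 ≤ x := fun x hx =>
    h.part x (by rw [← h.eq]; exact Multiset.mem_add.2 (Or.inl hx))
  have hS : ∀ x ∈ OddHC.cont S, 3 ≤ x := fun x hx =>
    h.part x (by rw [← h.eq]; exact Multiset.mem_add.2 (Or.inr hx))
  have nS : S ≠ .nil := by
    have := Tsq.sq_ne h.ne
    rwa [h.sq] at this
  exact collR (fun x hx => h.part x hx) h.ne hB hS nS h0 h3 hi hj e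

/-- **S3 against JV**, words -/
theorem tyS3_JV {F F' : Set (Cyc k)} {g g' : DG k} (h : TyS3 F g) (h9 : Is9 .nil .nil Z F' g')
    (h0 : (OddHC.cont Z).count 1 = 0) (h3 : 2 ≤ ht Z)
    (hx : ∀ R B S w0, HM.NodeM k 0 R B S → g = gadS (H1.wX R B S 0 w0) → NoX R B S Z) :
    Disjoint g.B g'.B := by
  obtain ⟨R, B, S, w0, h1, hne, h12, h18, hc, rfl, rfl⟩ := h
  rw [Finset.disjoint_left]
  intro w hw hw'
  obtain ⟨i, hi, hi9, rfl⟩ := memR_gadS.1 hw
  obtain ⟨j, hj, e, -⟩ := h9.words _ hw'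
  rcases nodeM_coll h1 h0 h3 hi hj e with c | ⟨c, -⟩
  · exact c (hx R B S w0 h1 rfl)
  · exact hi9 c

/-- **R3 against JV**, words -/
theorem tyR3_JV {F F' : Set (Cyc k)} {g g' : DG k} (h : TyR3 F g) (h9 : Is9 .nil .nil Z F' g')
    (h0 : (OddHC.cont Z).count 1 = 0) (h3 : 2 ≤ ht Z)
    (hx : ∀ R B S w0, HM.NodeM k 0 R B S → g = gad20 (H1.wX R B S 0 w0) → NoX R B S Z ∧ NoX6 R Z) :
    Disjoint g.B g'.B := by
  obtain ⟨R, B, S, w0, h1, hne, hR, hc, rfl, rfl⟩ := h
  rw [Finset.disjoint_left]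
  intro w hw hw'
  obtain ⟨i, hi, rfl⟩ := mem_gad20.1 hw
  obtain ⟨j, hj, e, -⟩ := h9.words _ hw'
  obtain ⟨x1, x2⟩ := hx R B S w0 h1 rfl
  rcases nodeM_coll h1 h0 h3 hi hj e with c | ⟨-, c⟩
  · exact c x1
  · exact c x2

/-! ### START -/

/-- the rule of JV: a bare word with a part 3 starts with `[3]` -/
def Start3 (Z : BinaryTree Unit) : Prop := (∀ x ∈ OddHC.cont Z, 3 ≤ x) → 3 ∈ OddHC.cont Z → St3 Z

theorem three_raise {M : Multiset ℕ} (hM : ∀ x ∈ M, 3 ≤ x) (h3 : 3 ∈ M) (h : 3 ∉ raise M) : M = {3} := by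
  have hs : M.sup = 3 := by
    by_contra hs
    apply h
    unfold raise
    exact Multiset.mem_cons_of_mem ((Multiset.mem_erase_of_ne (fun e => hs e.symm)).2 h3)
  have h4 : ∀ x ∈ M, x = 3 := fun x hx => by
    have := Multiset.le_sup hx
    have := hM x hx
    omega
  have h5 : M.erase 3 = 0 := by
    rw [Multiset.eq_zero_iff_forall_notMem]
    intro x hx
    have h6 := h4 x (Multiset.mem_of_mem_erase hx)
    apply h
    unfold raise
    rw [hs, ← h6]
    refine Multiset.mem_cons_of_mem ?_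
    rw [h6] at hx ⊢
    exact hx
  have h6 := Multiset.cons_erase h3
  rw [h5] at h6
  exact h6.symm

theorem three_mem_raise {M : Multiset ℕ} (h : 3 < M.sup) (h3 : 3 ∈ M) : 3 ∈ raise M := by
  unfold raise
  exact Multiset.mem_cons_of_mem ((Multiset.mem_erase_of_ne (by omega)).2 h3)

theorem raise_ge3 {M : Multiset ℕ} (hM : ∀ x ∈ M, 3 ≤ x) (h0 : M ≠ 0) : ∀ x ∈ raise M, 3 ≤ x := by
  intro x hx
  unfold raise at hx
  rcases Multiset.mem_cons.1 hx with h | h
  · have := hM _ (sup_mem h0)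
    omega
  · exact hM x (Multiset.mem_of_mem_erase h)

/-- the square of a word which starts with `[3]` -/
theorem sq_St3 {Y : BinaryTree Unit} (h3 : 3 < ht (pc 2 △ Y)) : ∃ P Q : BinaryTree Unit,
    (Tsq.sq (pc 2 △ Y)).1 = (pc 2 △ P) △ Q ∧ 3 ≤ ht P := by
  have h2 : ht (pc 2) = 2 := rfl
  rw [ht_node, h2] at h3
  have hY : 3 < ht Y := by omega
  have nY : Y ≠ .nil := by
    rintro rfl
    rw [OddHC.ht] at hY
    omega
  obtain ⟨P, Q, e, e1, e2⟩ := sq_first Y nY
  refine ⟨P, Q, ?_, by omega⟩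
  rw [Tsq.sq_lt (by rw [H1.ht_eq, H1.ht_eq, h2]; omega) e]

variable {q : ℕ}

/-- no collision for START phases of JV -/
theorem noX_start (h : HM.NodeM k 0 R B S) (hc : ClR B S) (hv : St3 R → B = .nil) (hz : Start3 Z)
    (h3 : 3 < ht Z) : NoX R B S Z := by
  have hZ : Z ≠ .nil := by
    rintro rfl
    rw [OddHC.ht] at h3
    omega
  have h2 : ht (pc 2) = 2 := rfl
  have top := h.top
  have hB : ∀ x ∈ OddHC.cont B, 3 ≤ x := fun x hx =>
    h.part x (by rw [← h.eq]; exact Multiset.mem_add.2 (Or.inl hx))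
  have hS : ∀ x ∈ OddHC.cont S, 3 ≤ x := fun x hx =>
    h.part x (by rw [← h.eq]; exact Multiset.mem_add.2 (Or.inr hx))
  have nS : S ≠ .nil := by
    have := Tsq.sq_ne h.ne
    rwa [h.sq] at this
  have htS : ht S = ht R := by
    have := (ht_sq h.ne).1
    rwa [h.sq] at this
  have m3 : 3 ∈ OddHC.cont B + OddHC.cont S := by rw [h.eq]; exact h.mem
  have sR : 3 < (OddHC.cont R).sup := by rw [← OddHC.ht_eq]; omega
  have sS : 3 < (OddHC.cont S).sup := by rw [← OddHC.ht_eq]; omega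
  have cR0 : OddHC.cont R ≠ 0 := fun e => h.ne (cont_eq_zero.1 e)
  have cS0 : OddHC.cont S ≠ 0 := fun e => nS (cont_eq_zero.1 e)
  -- the contents
  have cSB : (∀ x ∈ OddHC.cont (S △ B), 3 ≤ x) ∧ 3 ∈ OddHC.cont (S △ B) := by
    rw [cont_node]
    refine ⟨fun x hx => ?_, ?_⟩
    · rcases Multiset.mem_add.1 hx with hx | hx
      · exact raise_ge3 hS cS0 x hx
      · exact hB x hx
    · rcases Multiset.mem_add.1 m3 with hx | hx
      · exact Multiset.mem_add.2 (Or.inr hx)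
      · exact Multiset.mem_add.2 (Or.inl (three_mem_raise sS hx))
  have cSb : B ≠ .nil → (∀ x ∈ OddHC.cont (app S (B △ .nil)), 3 ≤ x) ∧
      3 ∈ OddHC.cont (app S (B △ .nil)) := by
    intro nB
    have cB0 : OddHC.cont B ≠ 0 := fun e => nB (cont_eq_zero.1 e)
    rw [cont_app, cont_node, cont_nil, add_zero]
    refine ⟨fun x hx => ?_, ?_⟩
    · rcases Multiset.mem_add.1 hx with hx | hx
      · exact hS x hx
      · exact raise_ge3 hB cB0 x hx
    · by_contra hn
      rw [Multiset.mem_add, not_or] at hn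
      obtain ⟨n1, n2⟩ := hn
      have m4 : 3 ∈ OddHC.cont B := by
        rcases Multiset.mem_add.1 m3 with hx | hx
        · exact hx
        · exact absurd hx n1
      exact hc.2 ⟨eq_pc_of_cont (three_raise hB m4 n2), n1⟩
  have sqc : (Tsq.sq Z).2 = .nil → OddHC.cont Z = OddHC.cont (Tsq.sq Z).1 := by
    intro e
    have := cont_sqV hZ
    rw [e, cont_nil, add_zero] at this
    exact this.symm
  refine ⟨?_, ?_, ?_, ?_⟩
  · rintro rfl
    obtain ⟨Y, hY⟩ := hz (by
      rw [cont_node, cont_nil, add_zero]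
      exact raise_ge3 (fun x hx => h.part x hx) cR0) (by
      rw [cont_node, cont_nil, add_zero]
      exact three_mem_raise sR h.mem)
    rw [(H1.node_inj hY).1, h2] at top
    omega
  · rintro rfl
    obtain ⟨Y, hY⟩ := hz cSB.1 cSB.2
    rw [(H1.node_inj hY).1, h2] at htS
    omega
  · intro nB e
    obtain ⟨c1, c2⟩ := cSb nB
    rw [← e] at c1 c2
    obtain ⟨Y, hY⟩ := hz c1 c2
    rw [hY] at e
    cases S with
    | nil => exact nS rfl
    | node _ S1 S2 =>
      have e' : pc 2 △ Y = S1 △ app S2 (B △ .nil) := e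
      exact hc.1 ⟨S2, by rw [← (H1.node_inj e').1]⟩
  · intro e2
    have cz := sqc e2
    refine ⟨?_, ?_⟩
    · intro e
      rw [e] at cz
      obtain ⟨Y, rfl⟩ := hz (by rw [cz]; exact cSB.1) (by rw [cz]; exact cSB.2)
      obtain ⟨P, Q, e3, _⟩ := sq_St3 h3
      rw [e3] at e
      exact hc.1 ⟨P, (H1.node_inj e).1.symm⟩
    · intro nB e
      obtain ⟨c1, c2⟩ := cSb nB
      rw [e] at cz
      obtain ⟨Y, rfl⟩ := hz (by rw [cz]; exact c1) (by rw [cz]; exact c2)
      obtain ⟨P, Q, e3, hP⟩ := sq_St3 h3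
      rw [e3] at e
      have hsq := h.sq
      cases S with
      | nil => exact nS rfl
      | node _ S1 S2 =>
        have e' : (pc 2 △ P) △ Q = S1 △ app S2 (B △ .nil) := e
        have e4 : S1 = pc 2 △ P := (H1.node_inj e').1.symm
        have nR := h.ne
        cases R with
        | nil => exact nR rfl
        | node _ A C =>
          have hsq' : Tsq.sq (A △ C) = (S1 △ S2, B) := hsq
          have eA : Tsq.ht A = ht A := H1.ht_eq A
          have eC : Tsq.ht C = ht C := H1.ht_eq C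
          by_cases hl : ht A + 1 < ht C
          · have nC : C ≠ .nil := by
              rintro rfl
              rw [OddHC.ht] at hl
              omega
            obtain ⟨P', Q', e5, _, _⟩ := sq_first C nC
            rw [Tsq.sq_lt (by rw [eA, eC]; exact hl) e5] at hsq'
            have e6 : (A △ P') △ Q' = S1 △ S2 := congrArg Prod.fst hsq'
            have e7 := (H1.node_inj e6).1
            rw [e4] at e7
            exact nB (hv ⟨C, by rw [(H1.node_inj e7).1]⟩)
          · have nA : A ≠ .nil := by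
              rintro rfl
              have h5 := h.part 1 (by
                change 1 ∈ OddHC.cont (BinaryTree.nil △ C)
                rw [cont_node, cont_nil, raise_zero]
                exact Multiset.mem_add.2 (Or.inl (Multiset.mem_singleton_self _)))
              omega
            rw [Tsq.sq_ge nA (by rw [eA, eC]; omega)] at hsq'
            have e6 : (Tsq.sq A).1 △ (Tsq.sq A).2 = S1 △ S2 := congrArg Prod.fst hsq'
            have e7 := (H1.node_inj e6).1
            obtain ⟨P', Q', e8, h9, h10⟩ := sq_first A nA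
            rw [e8, e4] at e7
            obtain ⟨e9, e10⟩ := H1.node_inj e7
            rw [e9, e10, h2] at h9
            omega

theorem noX6_start (h : HM.NodeM k 0 R B S) (hv : ¬ St3 R) (hz : Start3 Z) (h3 : 3 < ht Z) : NoX6 R Z := by
  intro e2 e
  have hZ : Z ≠ .nil := by
    rintro rfl
    rw [OddHC.ht] at h3
    omega
  have top := h.top
  have sR : 3 < (OddHC.cont R).sup := by rw [← OddHC.ht_eq]; omega
  have cR0 : OddHC.cont R ≠ 0 := fun e => h.ne (cont_eq_zero.1 e)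
  have cz : OddHC.cont Z = raise (OddHC.cont R) := by
    have := cont_sqV hZ
    rw [e2, e, cont_node, cont_nil, add_zero, add_zero] at this
    exact this.symm
  obtain ⟨Y, rfl⟩ := hz (by rw [cz]; exact raise_ge3 (fun x hx => h.part x hx) cR0)
    (by rw [cz]; exact three_mem_raise sR h.mem)
  obtain ⟨P, Q, e3, _⟩ := sq_St3 h3
  rw [e3] at e
  exact hv ⟨P, (H1.node_inj e).1.symm⟩

/-- TYPE S3 in a phase which is clean against JV -/
def TyS3v (F : Set (Cyc k)) (g : DG k) : Prop :=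
  ∃ (R B S : BinaryTree Unit) (w0 : X k), HM.NodeM k 0 R B S ∧
    H1.wX R B S 0 w0 0 ≠ H1.wX R B S 0 w0 10 ∧
    ¬ TT.SameCycle (H1.wX R B S 0 w0 1) (H1.wX R B S 0 w0 2) ∧
    (B = .nil → ¬ TT.SameCycle (H1.wX R B S 0 w0 1) (H1.wX R B S 0 w0 18) ∧
      ¬ TT.SameCycle (H1.wX R B S 0 w0 2) (H1.wX R B S 0 w0 18)) ∧ ClR B S ∧
    F = {cyc (H1.wX R B S 0 w0 0), cyc (H1.wX R B S 0 w0 1), cyc (H1.wX R B S 0 w0 2)} ∧
    g = gadS (H1.wX R B S 0 w0) ∧ (St3 R → B = .nil)

variable {F F' : Set (Cyc k)} {g g' : DG k}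

theorem TyS3v.toS3 (h : TyS3v F g) : TyS3 F g := by
  obtain ⟨R, B, S, w0, h1, h2, h3, h4, h5, h6, h7, _⟩ := h
  exact ⟨R, B, S, w0, h1, h2, h3, h4, h5, h6, h7⟩

/-- **S3 against JV in START phases**, words -/
theorem tyS3v_JV (h : TyS3v F g) (h9 : Is9 .nil .nil Z F' g') (h0 : (OddHC.cont Z).count 1 = 0)
    (h3 : 3 < ht Z) (hz : Start3 Z) : Disjoint g.B g'.B := by
  obtain ⟨R, B, S, w0, h1, hne, h12, h18, hc, rfl, rfl, hv⟩ := h
  rw [Finset.disjoint_left]
  intro w hw hw'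
  obtain ⟨i, hi, hi9, rfl⟩ := memR_gadS.1 hw
  obtain ⟨j, hj, e, -⟩ := h9.words _ hw'
  rcases nodeM_coll h1 h0 (by omega) hi hj e with c | ⟨c, -⟩
  · exact c (noX_start h1 hc hv hz h3)
  · exact hi9 c

/-- **R3 (unmerged, `R` does not start with `[3]`) against JV in START phases**, words -/
theorem tyR3c_JV (h : TyR3c F g) (h9 : Is9 .nil .nil Z F' g') (h0 : (OddHC.cont Z).count 1 = 0)
    (h3 : 3 < ht Z) (hz : Start3 Z) : Disjoint g.B g'.B := by
  obtain ⟨R, B, S, w0, h1, hne, hR, hc, rfl, rfl⟩ := h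
  rw [Finset.disjoint_left]
  intro w hw hw'
  obtain ⟨i, hi, rfl⟩ := mem_gad20.1 hw
  obtain ⟨j, hj, e, -⟩ := h9.words _ hw'
  rcases nodeM_coll h1 h0 (by omega) hi hj e with c | ⟨-, c⟩
  · exact c (noX_start h1 hc (fun h => absurd h hR) hz h3)
  · exact c (noX6_start h1 hR hz h3)

end J1V

end Pool.OddHC
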