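import Pool.Agent.Work.MP_8f87b2_h49.JVM
import Pool.Agent.Work.MP_8f87b2_h13.TyRq

/-!
# MP_8f87b2_co: the right windows of every smallest part `c = q + 3` (`TyRq q`, `TySq q`) against JV and JVm, words

`m` = `Z` (`Is9 nil nil Z`) or `Z` (`Is9M nil nil Z`), `X` = `xT Z` or `xTM Z`: common words only if
`q = 0`: `m = (R)`, `(S)B`, `S(B)`, `X = ((S)B)`, `(S(B))`, and (word 9) `X = ((R))`;
`q = 1`: `m = ((S)B)`, `(S(B))`, and (word 9) `m = ((R))`. `q ≥ 2`: none. Part 2 in `Z`: none.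
-/

set_option autoImplicit false

namespace Pool.OddHC

namespace J1V

open Finset BinaryTree Equiv H1 J1 Pool.Agent.Work.MP_8f87b2_co

variable {k : ℕ} {R B S Z m X : BinaryTree Unit} {q : ℕ}

/-- the exclusions -/
def NoQ (q : ℕ) (R B S m X : BinaryTree Unit) : Prop :=
  (q = 0 → m ≠ R △ .nil ∧ m ≠ S △ B ∧ (B ≠ .nil → m ≠ app S (B △ .nil)) ∧
    X ≠ (S △ B) △ .nil ∧ (B ≠ .nil → X ≠ app S (B △ .nil) △ .nil)) ∧
  (q = 1 → m ≠ (S △ B) △ .nil ∧ (B ≠ .nil → m ≠ app S (B △ .nil) △ .nil))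

/-- the additional one for word 9 -/
def NoQ9 (q : ℕ) (R m X : BinaryTree Unit) : Prop :=
  (q = 0 → X ≠ (R △ .nil) △ .nil) ∧ (q = 1 → m ≠ (R △ .nil) △ .nil)

/-- the ten shapes -/
def Shp (m X w : BinaryTree Unit) : Prop :=
  w = (.nil △ .nil) △ m ∨ w = app m ((.nil △ .nil) △ .nil) ∨ w = app m (.nil △ .nil) △ .nil ∨
  w = (m △ .nil) △ .nil ∨ w = (.nil △ m) △ .nil ∨ w = .nil △ (m △ .nil) ∨ w = m △ (.nil △ .nil) ∨
  w = X △ .nil ∨ w = .nil △ X ∨ w = app X (.nil △ .nil)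

theorem coll10 (bR : B3 R) (nR : R ≠ .nil) (bB : B3 B) (bS : B3 S) (nS : S ≠ .nil) (nm : m ≠ .nil)
    (cm0 : (OddHC.cont m).count 1 = 0) (sm : 2 ≤ (OddHC.cont m).sup) (cX : (OddHC.cont X).count 1 = 0)
    {i : ℕ} (hi : i < 20) (h : Shp m X (W R (ch (q + 1)) B S i)) :
    ¬ NoQ q R B S m X ∨ (i = 9 ∧ ¬ NoQ9 q R m X) := by
  have c5 : (OddHC.cont (m △ .nil)).count 1 = 0 := by
    rw [JVA.c_node sm, cm0]; rfl
  have c2 : (OddHC.cont (app m (.nil △ .nil))).count 1 = 1 := by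
    rw [JVA.c_app, JVA.c_leaf, cm0]; rfl
  have c4 : (OddHC.cont (.nil △ m)).count 1 = 1 := by
    rw [JVA.c_leaf, cm0]
  -- conclusions
  have f0 : (q = 0 ∧ (m = R △ .nil ∨ m = S △ B ∨ (B ≠ .nil ∧ m = app S (B △ .nil)))) ∨
      (q = 1 ∧ (m = (S △ B) △ .nil ∨ (B ≠ .nil ∧ m = app S (B △ .nil) △ .nil))) ∨
      (i = 9 ∧ q = 1 ∧ m = (R △ .nil) △ .nil) → ¬ NoQ q R B S m X ∨ (i = 9 ∧ ¬ NoQ9 q R m X) := by
    rintro (⟨g1, g2⟩ | ⟨g1, g2⟩ | ⟨g1, g2, g3⟩)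
    · left
      intro h
      obtain ⟨n1, n2, n3, _⟩ := h.1 g1
      rcases g2 with g | g | ⟨g, g'⟩
      · exact n1 g
      · exact n2 g
      · exact n3 g g'
    · left
      intro h
      obtain ⟨n1, n2⟩ := h.2 g1
      rcases g2 with g | ⟨g, g'⟩
      · exact n1 g
      · exact n2 g g'
    · exact Or.inr ⟨g1, fun h => h.2 g2 g3⟩
  have f1 : ∀ Y : BinaryTree Unit, (Y = m △ .nil ∨ Y = app m (.nil △ .nil) ∨ Y = .nil △ m ∨ Y = X) →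
      (q = 0 ∧ (m = R △ .nil ∨ m = S △ B ∨ (B ≠ .nil ∧ m = app S (B △ .nil)) ∨
      ((OddHC.cont Y).count 1 = 0 ∧ (Y = (S △ B) △ .nil ∨ (B ≠ .nil ∧ Y = app S (B △ .nil) △ .nil) ∨
      (i = 9 ∧ Y = (R △ .nil) △ .nil))))) → ¬ NoQ q R B S m X ∨ (i = 9 ∧ ¬ NoQ9 q R m X) := by
    rintro Y hYY ⟨hq, g⟩
    rcases g with g | g | g | ⟨g1, g⟩
    · exact f0 (Or.inl ⟨hq, Or.inl g⟩)
    · exact f0 (Or.inl ⟨hq, Or.inr (Or.inl g)⟩)
    · exact f0 (Or.inl ⟨hq, Or.inr (Or.inr g)⟩)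
    · rcases hYY with hYY | hYY | hYY | hYY
      · rcases g with g | ⟨g, g'⟩ | ⟨_, g'⟩
        · rw [g] at hYY
          exact f0 (Or.inl ⟨hq, Or.inr (Or.inl (H1.node_inj hYY).1.symm)⟩)
        · rw [g'] at hYY
          exact f0 (Or.inl ⟨hq, Or.inr (Or.inr ⟨g, (H1.node_inj hYY).1.symm⟩)⟩)
        · rw [g'] at hYY
          exact f0 (Or.inl ⟨hq, Or.inl (H1.node_inj hYY).1.symm⟩)
      · rw [hYY] at g1; omega
      · rw [hYY] at g1; omega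
      · rcases g with g | ⟨g, g'⟩ | ⟨g, g'⟩
        · left
          intro h
          apply (h.1 hq).2.2.2.1
          rw [← hYY, g]
        · left
          intro h
          apply (h.1 hq).2.2.2.2 g
          rw [← hYY, g']
        · right
          refine ⟨g, fun h => h.1 hq ?_⟩
          rw [← hYY, g']
  have w0 : (OddHC.cont ((.nil △ .nil) △ m)).count 1 = 0 := by
    rw [cont_node, Multiset.count_add, cm0, cont_pp]
    decide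
  have w1 : (OddHC.cont (app m ((.nil △ .nil) △ .nil))).count 1 = 0 := by
    rw [JVA.c_app, cm0, cont_ppp]
    decide
  rcases h with e | e | e | e | e | e | e | e | e | e
  · exact f0 (collM0 bR nR bB bS nS hi (by rw [e, w0]) (Or.inl e))
  · exact f0 (collM0 bR nR bB bS nS hi (by rw [e, w1]) (Or.inr e))
  · exact f1 _ (Or.inr (Or.inl rfl)) (collM1 bR nR bB bS nS hi nm (Or.inl ⟨c2, Or.inl rfl⟩) (Or.inl e))
  · exact f1 _ (Or.inl rfl) (collM1 bR nR bB bS nS hi nm (Or.inr c5) (Or.inl e))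
  · exact f1 _ (Or.inr (Or.inr (Or.inl rfl))) (collM1 bR nR bB bS nS hi nm (Or.inl ⟨c4, Or.inr rfl⟩)
      (Or.inl e))
  · exact f1 _ (Or.inl rfl) (collM1 bR nR bB bS nS hi nm (Or.inr c5) (Or.inr (Or.inr e)))
  · exact f1 _ (Or.inl rfl) (collM1 bR nR bB bS nS hi nm (Or.inr c5) (Or.inr (Or.inl e)))
  · exact f1 _ (Or.inr (Or.inr (Or.inr rfl))) (collM1 bR nR bB bS nS hi nm (Or.inr cX) (Or.inl e))
  · exact f1 _ (Or.inr (Or.inr (Or.inr rfl))) (collM1 bR nR bB bS nS hi nm (Or.inr cX)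
      (Or.inr (Or.inr e)))
  · exact f1 _ (Or.inr (Or.inr (Or.inr rfl))) (collM1 bR nR bB bS nS hi nm (Or.inr cX)
      (Or.inr (Or.inl e)))

/-- the words of JV have one of the shapes -/
theorem shp_JV {j : ℕ} (hj : j < 9) : Shp Z (xT Z) (w9L .nil .nil Z (xT Z) j) := by
  obtain ⟨e0, e1, e2, e3, e4, e5, e6, e7, e8⟩ := w9_forms Z
  unfold Shp
  interval_cases j
  · rw [e0]; exact Or.inr (Or.inl rfl)
  · rw [e1]; exact Or.inl rfl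
  · rw [e2]; exact Or.inr (Or.inr (Or.inr (Or.inr (Or.inl rfl))))
  · rw [e3]; exact Or.inr (Or.inr (Or.inr (Or.inl rfl)))
  · rw [e4]; exact Or.inr (Or.inr (Or.inl rfl))
  · rw [e5]; exact Or.inr (Or.inr (Or.inr (Or.inr (Or.inr (Or.inr (Or.inl rfl))))))
  · rw [e6, xT_sq]; exact Or.inr (Or.inr (Or.inr (Or.inr (Or.inr (Or.inr (Or.inr (Or.inl rfl)))))))
  · rw [e7, xT_sq]
    exact Or.inr (Or.inr (Or.inr (Or.inr (Or.inr (Or.inr (Or.inr (Or.inr (Or.inr rfl))))))))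
  · rw [e8, xT_sq]
    exact Or.inr (Or.inr (Or.inr (Or.inr (Or.inr (Or.inr (Or.inr (Or.inr (Or.inl rfl))))))))

/-- the words of the mirrored JV over `Z` -/
theorem shp_JVm {j : ℕ} (hj : j < 9) : Shp Z (xTM Z) (Tsq.mir (w9L .nil .nil (Tsq.mir Z) (xT (Tsq.mir Z)) j)) := by
  obtain ⟨e0, e1, e2, e3, e4, e5, e6, e7, e8⟩ := w9_mir (Tsq.mir Z)
  rw [Tsq.mir_mir] at e0 e1 e2 e3 e4 e5
  have eX : Tsq.mir (xT (Tsq.mir Z)) = xTM Z := rfl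
  rw [eX] at e6 e7 e8
  unfold Shp
  interval_cases j
  · rw [e0]; exact Or.inl rfl
  · rw [e1]; exact Or.inr (Or.inl rfl)
  · rw [e2]; exact Or.inr (Or.inr (Or.inl rfl))
  · rw [e3]; exact Or.inr (Or.inr (Or.inr (Or.inl rfl)))
  · rw [e4]; exact Or.inr (Or.inr (Or.inr (Or.inr (Or.inl rfl))))
  · rw [e5]; exact Or.inr (Or.inr (Or.inr (Or.inr (Or.inr (Or.inl rfl)))))
  · rw [e6]; exact Or.inr (Or.inr (Or.inr (Or.inr (Or.inr (Or.inr (Or.inr (Or.inl rfl)))))))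
  · rw [e7]
    exact Or.inr (Or.inr (Or.inr (Or.inr (Or.inr (Or.inr (Or.inr (Or.inr (Or.inl rfl))))))))
  · rw [e8]
    exact Or.inr (Or.inr (Or.inr (Or.inr (Or.inr (Or.inr (Or.inr (Or.inr (Or.inr rfl))))))))

/-- contents of `xT` -/
theorem c_xT (h0 : (OddHC.cont Z).count 1 = 0) (h3 : 2 ≤ ht Z) : (OddHC.cont (xT Z)).count 1 = 0 := by
  have hZ : Z ≠ .nil := by
    rintro rfl
    rw [OddHC.ht] at h3
    omega
  have hs := cont_sqV hZ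
  have hz' : 2 ≤ (OddHC.cont (Tsq.sq Z).1).sup := by
    rw [← OddHC.ht_eq, (ht_sq hZ).1]; exact h3
  rw [xT_sq, JVA.c_node hz', ← Multiset.count_add, hs, h0]

theorem c_xTM (h0 : (OddHC.cont Z).count 1 = 0) (h3 : 2 ≤ ht Z) : (OddHC.cont (xTM Z)).count 1 = 0 := by
  have eX : Tsq.mir (xT (Tsq.mir Z)) = xTM Z := rfl
  rw [← eX, HM.cont_mir]
  exact c_xT (by rw [HM.cont_mir]; exact h0) (by rw [HM.ht_mir]; exact h3)

/-- a word of a right window which is a word of JV -/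
theorem nodeQ_coll (h : HM.NodeM k q R B S) {w0 : OddHC.X k} (h0 : (OddHC.cont Z).count 1 = 0) (h3 : 2 ≤ ht Z)
    {i j : ℕ} (hi : i < 20) (hj : j < 9) (e : (H1.wX R B S q w0 i).1 = w9L .nil .nil Z (xT Z) j) :
    ¬ NoQ q R B S Z (xT Z) ∨ (i = 9 ∧ ¬ NoQ9 q R Z (xT Z)) := by
  obtain ⟨bR, nR, bB, bS, nS⟩ := nodeM_data h
  have hZ : Z ≠ .nil := by
    rintro rfl
    rw [OddHC.ht] at h3
    omega
  rw [wX_eq h.dat h.size w0 hi] at e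
  refine coll10 bR nR bB bS nS hZ h0 (by rw [← OddHC.ht_eq]; exact h3) (c_xT h0 h3) hi ?_
  rw [e]
  exact shp_JV hj

/-- a word of a right window which is a word of the mirrored JV -/
theorem nodeQ_collM (h : HM.NodeM k q R B S) {w0 : OddHC.X k} (h0 : (OddHC.cont Z).count 1 = 0) (h3 : 2 ≤ ht Z)
    {i j : ℕ} (hi : i < 20) (hj : j < 9) (e : (H1.wX R B S q w0 i).1 = w9LM .nil .nil Z (xTM Z) j) :
    ¬ NoQ q R B S Z (xTM Z) ∨ (i = 9 ∧ ¬ NoQ9 q R Z (xTM Z)) := by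
  obtain ⟨bR, nR, bB, bS, nS⟩ := nodeM_data h
  have hZ : Z ≠ .nil := by
    rintro rfl
    rw [OddHC.ht] at h3
    omega
  rw [wX_eq h.dat h.size w0 hi] at e
  refine coll10 bR nR bB bS nS hZ h0 (by rw [← OddHC.ht_eq]; exact h3) (c_xTM h0 h3) hi ?_
  rw [e]
  have e1 : Tsq.mir (w9LM .nil .nil Z (xTM Z) j) = w9L .nil .nil (Tsq.mir Z) (xT (Tsq.mir Z)) j :=
    mir_w9LM .nil .nil Z (xT (Tsq.mir Z)) j hj
  rw [mir_eq e1]
  exact shp_JVm hj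

/-! ### Sufficient conditions -/

theorem noQ_big (hq : 2 ≤ q) : NoQ q R B S m X ∧ NoQ9 q R m X :=
  ⟨⟨fun h => by omega, fun h => by omega⟩, ⟨fun h => by omega, fun h => by omega⟩⟩

/-- `c = 4`: `Z` has two components -/
theorem noQ_one (hm : ∀ Y, m ≠ Y △ .nil) : NoQ 1 R B S m X ∧ NoQ9 1 R m X :=
  ⟨⟨fun h => by omega, fun _ => ⟨hm _, fun _ => hm _⟩⟩, ⟨fun h => by omega, fun _ => hm _⟩⟩

/-- a part 2 -/
theorem noQ_two (bR : B3 R) (nR : R ≠ .nil) (bB : B3 B) (bS : B3 S) (nS : S ≠ .nil)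
    (k1 : ¬ B3 m) (k2 : ¬ B3 X) : NoQ q R B S m X ∧ NoQ9 q R m X := by
  have b1 : B3 (R △ .nil) := bR.node nR B3.nil
  have b2 : B3 (S △ B) := bS.node nS bB
  have b3 : B ≠ .nil → B3 (app S (B △ .nil)) := fun h => bS.app (bB.node h B3.nil)
  have b4 : B3 ((R △ .nil) △ .nil) := b1.node (by simp) B3.nil
  have b5 : B3 ((S △ B) △ .nil) := b2.node (by simp) B3.nil
  have b6 : B ≠ .nil → B3 (app S (B △ .nil) △ .nil) := fun h => (b3 h).node (H1.app_ne (by simp)) B3.nil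
  refine ⟨⟨fun _ => ⟨?_, ?_, ?_, ?_, ?_⟩, fun _ => ⟨?_, ?_⟩⟩, ⟨fun _ => ?_, fun _ => ?_⟩⟩
  · rintro rfl; exact k1 b1
  · rintro rfl; exact k1 b2
  · rintro hB rfl; exact k1 (b3 hB)
  · rintro rfl; exact k2 b5
  · rintro hB rfl; exact k2 (b6 hB)
  · rintro rfl; exact k1 b5
  · rintro hB rfl; exact k1 (b6 hB)
  · rintro rfl; exact k2 b4
  · rintro rfl; exact k1 b4

theorem not_B3_two (h2 : 2 ∈ OddHC.cont Z) : ¬ B3 Z := fun h => by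
  have := h 2 h2
  omega

theorem not_B3_xT (h2 : 2 ∈ OddHC.cont Z) (h3 : 3 ≤ ht Z) : ¬ B3 (xT Z) := by
  have hZ : Z ≠ .nil := by
    rintro rfl
    rw [OddHC.ht] at h3
    omega
  have hs := cont_sqV hZ
  have hz' : 2 < (OddHC.cont (Tsq.sq Z).1).sup := by
    rw [← OddHC.ht_eq, (ht_sq hZ).1]; omega
  intro h
  have := h 2 (by
    rw [xT_sq, cont_node]
    rw [← hs] at h2
    rcases Multiset.mem_add.1 h2 with h4 | h4
    · exact Multiset.mem_add.2 (Or.inl (two_mem_raise hz' h4))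
    · exact Multiset.mem_add.2 (Or.inr h4))
  omega

theorem not_B3_xTM (h2 : 2 ∈ OddHC.cont Z) (h3 : 3 ≤ ht Z) : ¬ B3 (xTM Z) := by
  have eX : Tsq.mir (xT (Tsq.mir Z)) = xTM Z := rfl
  intro h
  have h4 : ¬ B3 (xT (Tsq.mir Z)) := not_B3_xT (by rw [HM.cont_mir]; exact h2) (by rw [HM.ht_mir]; exact h3)
  apply h4
  intro x hx
  apply h
  rw [← eX, HM.cont_mir]
  exact hx

/-! ### The rows -/

variable {F F' : Set (Cyc k)} {g g' : DG k}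

/-- **W-Rq-JV, general form** -/
theorem tyRq_JVg (h : TyRq q F g) (h9 : Is9 .nil .nil Z F' g') (h0 : (OddHC.cont Z).count 1 = 0) (h3 : 2 ≤ ht Z)
    (hx : ∀ R B S w0, HM.NodeM k q R B S → g = gad20 (H1.wX R B S q w0) →
      NoQ q R B S Z (xT Z) ∧ NoQ9 q R Z (xT Z)) : Disjoint g.B g'.B := by
  obtain ⟨R, B, S, w0, h1, hne, rfl, rfl⟩ := h
  rw [Finset.disjoint_left]
  intro w hw hw'
  obtain ⟨i, hi, rfl⟩ := mem_gad20.1 hw
  obtain ⟨j, hj, e, -⟩ := h9.words _ hw'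
  obtain ⟨x1, x2⟩ := hx R B S w0 h1 rfl
  rcases nodeQ_coll h1 h0 h3 hi hj e with c | ⟨-, c⟩
  · exact c x1
  · exact c x2

theorem tySq_JVg (h : TySq q F g) (h9 : Is9 .nil .nil Z F' g') (h0 : (OddHC.cont Z).count 1 = 0) (h3 : 2 ≤ ht Z)
    (hx : ∀ R B S w0, HM.NodeM k q R B S → g = gadS (H1.wX R B S q w0) → NoQ q R B S Z (xT Z)) :
    Disjoint g.B g'.B := by
  obtain ⟨R, B, S, w0, h1, hne, _, _, rfl, rfl⟩ := h
  rw [Finset.disjoint_left]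
  intro w hw hw'
  obtain ⟨i, hi, hi9, rfl⟩ := memR_gadS.1 hw
  obtain ⟨j, hj, e, -⟩ := h9.words _ hw'
  rcases nodeQ_coll h1 h0 h3 hi hj e with c | ⟨c, -⟩
  · exact c (hx R B S w0 h1 rfl)
  · exact hi9 c

/-- **W-Rq-JVm, general form** -/
theorem tyRq_JVmg (h : TyRq q F g) (h9 : Is9M .nil .nil Z F' g') (h0 : (OddHC.cont Z).count 1 = 0) (h3 : 2 ≤ ht Z)
    (hx : ∀ R B S w0, HM.NodeM k q R B S → g = gad20 (H1.wX R B S q w0) →
      NoQ q R B S Z (xTM Z) ∧ NoQ9 q R Z (xTM Z)) : Disjoint g.B g'.B := by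
  obtain ⟨R, B, S, w0, h1, hne, rfl, rfl⟩ := h
  rw [Finset.disjoint_left]
  intro w hw hw'
  obtain ⟨i, hi, rfl⟩ := mem_gad20.1 hw
  obtain ⟨j, hj, e, -⟩ := h9.words _ hw'
  obtain ⟨x1, x2⟩ := hx R B S w0 h1 rfl
  rcases nodeQ_collM h1 h0 h3 hi hj e with c | ⟨-, c⟩
  · exact c x1
  · exact c x2

theorem tySq_JVmg (h : TySq q F g) (h9 : Is9M .nil .nil Z F' g') (h0 : (OddHC.cont Z).count 1 = 0) (h3 : 2 ≤ ht Z)
    (hx : ∀ R B S w0, HM.NodeM k q R B S → g = gadS (H1.wX R B S q w0) → NoQ q R B S Z (xTM Z)) :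
    Disjoint g.B g'.B := by
  obtain ⟨R, B, S, w0, h1, hne, _, _, rfl, rfl⟩ := h
  rw [Finset.disjoint_left]
  intro w hw hw'
  obtain ⟨i, hi, hi9, rfl⟩ := memR_gadS.1 hw
  obtain ⟨j, hj, e, -⟩ := h9.words _ hw'
  rcases nodeQ_collM h1 h0 h3 hi hj e with c | ⟨c, -⟩
  · exact c (hx R B S w0 h1 rfl)
  · exact hi9 c

/-- **`c ≥ 5`**: no condition -/
theorem tyRq_JV5 (hq : 2 ≤ q) (h : TyRq q F g) (h9 : Is9 .nil .nil Z F' g') (h0 : (OddHC.cont Z).count 1 = 0)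
    (h3 : 2 ≤ ht Z) : Disjoint g.B g'.B := tyRq_JVg h h9 h0 h3 fun _ _ _ _ _ _ => noQ_big hq

theorem tySq_JV5 (hq : 2 ≤ q) (h : TySq q F g) (h9 : Is9 .nil .nil Z F' g') (h0 : (OddHC.cont Z).count 1 = 0)
    (h3 : 2 ≤ ht Z) : Disjoint g.B g'.B := tySq_JVg h h9 h0 h3 fun _ _ _ _ _ _ => (noQ_big hq).1

theorem tyRq_JVm5 (hq : 2 ≤ q) (h : TyRq q F g) (h9 : Is9M .nil .nil Z F' g') (h0 : (OddHC.cont Z).count 1 = 0)
    (h3 : 2 ≤ ht Z) : Disjoint g.B g'.B := tyRq_JVmg h h9 h0 h3 fun _ _ _ _ _ _ => noQ_big hq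

theorem tySq_JVm5 (hq : 2 ≤ q) (h : TySq q F g) (h9 : Is9M .nil .nil Z F' g') (h0 : (OddHC.cont Z).count 1 = 0)
    (h3 : 2 ≤ ht Z) : Disjoint g.B g'.B := tySq_JVmg h h9 h0 h3 fun _ _ _ _ _ _ => (noQ_big hq).1

/-- **`Z` with a part 2** (`a ≥ 2`): no condition, every `c` -/
theorem tyRq_JV2 (h : TyRq q F g) (h9 : Is9 .nil .nil Z F' g') (h0 : (OddHC.cont Z).count 1 = 0)
    (h2 : 2 ∈ OddHC.cont Z) (h3 : 3 ≤ ht Z) : Disjoint g.B g'.B := by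
  refine tyRq_JVg h h9 h0 (by omega) ?_
  intro R B S w0 h1 _
  obtain ⟨bR, nR, bB, bS, nS⟩ := nodeM_data h1
  exact noQ_two bR nR bB bS nS (not_B3_two h2) (not_B3_xT h2 h3)

theorem tySq_JV2 (h : TySq q F g) (h9 : Is9 .nil .nil Z F' g') (h0 : (OddHC.cont Z).count 1 = 0)
    (h2 : 2 ∈ OddHC.cont Z) (h3 : 3 ≤ ht Z) : Disjoint g.B g'.B := by
  refine tySq_JVg h h9 h0 (by omega) ?_
  intro R B S w0 h1 _
  obtain ⟨bR, nR, bB, bS, nS⟩ := nodeM_data h1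
  exact (noQ_two bR nR bB bS nS (not_B3_two h2) (not_B3_xT h2 h3)).1

theorem tyRq_JVm2 (h : TyRq q F g) (h9 : Is9M .nil .nil Z F' g') (h0 : (OddHC.cont Z).count 1 = 0)
    (h2 : 2 ∈ OddHC.cont Z) (h3 : 3 ≤ ht Z) : Disjoint g.B g'.B := by
  refine tyRq_JVmg h h9 h0 (by omega) ?_
  intro R B S w0 h1 _
  obtain ⟨bR, nR, bB, bS, nS⟩ := nodeM_data h1
  exact noQ_two bR nR bB bS nS (not_B3_two h2) (not_B3_xTM h2 h3)

theorem tySq_JVm2 (h : TySq q F g) (h9 : Is9M .nil .nil Z F' g') (h0 : (OddHC.cont Z).count 1 = 0)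
    (h2 : 2 ∈ OddHC.cont Z) (h3 : 3 ≤ ht Z) : Disjoint g.B g'.B := by
  refine tySq_JVmg h h9 h0 (by omega) ?_
  intro R B S w0 h1 _
  obtain ⟨bR, nR, bB, bS, nS⟩ := nodeM_data h1
  exact (noQ_two bR nR bB bS nS (not_B3_two h2) (not_B3_xTM h2 h3)).1

/-- **`c = 4`**, `Z` not prime -/
theorem tyRq_JV4 (h : TyRq 1 F g) (h9 : Is9 .nil .nil Z F' g') (h0 : (OddHC.cont Z).count 1 = 0)
    (h3 : 2 ≤ ht Z) (hp : ∀ Y, Z ≠ Y △ .nil) : Disjoint g.B g'.B :=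
  tyRq_JVg h h9 h0 h3 fun _ _ _ _ _ _ => noQ_one hp

theorem tyRq_JVm4 (h : TyRq 1 F g) (h9 : Is9M .nil .nil Z F' g') (h0 : (OddHC.cont Z).count 1 = 0)
    (h3 : 2 ≤ ht Z) (hp : ∀ Y, Z ≠ Y △ .nil) : Disjoint g.B g'.B :=
  tyRq_JVmg h h9 h0 h3 fun _ _ _ _ _ _ => noQ_one hp

end J1V

end Pool.OddHC
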