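import Pool.Agent.Work.MP_8f87b2_h49.JVw
import Pool.Agent.Work.MP_8f87b2_h24.J1Ex

/-!
# MP_8f87b2_co: J1 (J1a over a bare word `R`) against JV (`Is9 nil nil Z`), words

The only collision which is not between the new T-cycles is `S(B) = (Z')B'`, `(S, B) = sq R`, `(Z', B') = sq Z` (`NoC R Z` excludes
it). `noC_start`: `NoC R Z` if `R = (A)C`, `ht A + 1 < ht C`. `noC_chain`: `NoC R Z` if `R = [s]C` and `Z` is R-START.
-/

set_option autoImplicit false

namespace Pool.OddHC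

namespace J1V

open Finset BinaryTree Equiv H1 J1 Pool.Agent.Work.MP_8f87b2_co

variable {k : ℕ} {R B S Z : BinaryTree Unit}

/-! ### The first component of the square -/

theorem sq_first : ∀ t : BinaryTree Unit, t ≠ .nil → ∃ P Q : BinaryTree Unit, (Tsq.sq t).1 = P △ Q ∧
    ht Q ≤ ht P ∧ ht P + 1 = ht t := by
  intro t
  induction t with
  | nil => intro h; exact absurd rfl h
  | node u A C ihA ihC =>
    intro _
    change ∃ P Q : BinaryTree Unit, (Tsq.sq (A △ C)).1 = P △ Q ∧ ht Q ≤ ht P ∧ ht P + 1 = ht (A △ C)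
    rw [ht_node]
    have h0 : ht (BinaryTree.nil : BinaryTree Unit) = 0 := rfl
    have eA : Tsq.ht A = ht A := H1.ht_eq A
    have eC : Tsq.ht C = ht C := H1.ht_eq C
    by_cases h : ht A + 1 < ht C
    · have hC : C ≠ .nil := by
        rintro rfl
        omega
      obtain ⟨P, Q, h1, h2, h3⟩ := ihC hC
      rw [Tsq.sq_lt (by rw [eA, eC]; exact h) h1]
      refine ⟨A △ P, Q, rfl, ?_, ?_⟩ <;> rw [ht_node] <;> omega
    · by_cases hA : A = .nil
      · subst hA
        rw [Tsq.sq_nil (by rw [eC]; omega)]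
        exact ⟨.nil, .nil, rfl, le_refl _, by omega⟩
      · rw [Tsq.sq_ge hA (by rw [eA, eC]; omega)]
        obtain ⟨h1, h2⟩ := ht_sq hA
        exact ⟨_, _, rfl, by omega, by omega⟩

/-- the square determines the word -/
theorem sq_inj (hR : R ≠ .nil) (hZ : Z ≠ .nil) (h1 : (Tsq.sq Z).1 = (Tsq.sq R).1)
    (h2 : (Tsq.sq Z).2 = (Tsq.sq R).2) : Z = R := by
  have n1 := Tsq.sq_num hR
  have n2 := Tsq.sq_num hZ
  rw [h1, h2, n1] at n2
  let x : X R.numNodes := ⟨R, mem_treesOfNumNodesEq.2 rfl⟩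
  let y : X R.numNodes := ⟨Z, mem_treesOfNumNodesEq.2 n2.symm⟩
  have e1 : (TT (TT x)).1 = app (Tsq.sq R).2 (Tsq.sq R).1 := Tsq.TT_sq x hR
  have e2 : (TT (TT y)).1 = app (Tsq.sq Z).2 (Tsq.sq Z).1 := Tsq.TT_sq y hZ
  rw [h1, h2, ← e1] at e2
  have e3 := TT.injective (TT.injective (Subtype.ext e2))
  exact congrArg Subtype.val e3

/-- no collision `S(B) = (Z')B'` -/
def NoC (R Z : BinaryTree Unit) : Prop :=
  app (Tsq.sq R).1 ((Tsq.sq R).2 △ .nil) ≠ (Tsq.sq Z).1 △ (Tsq.sq Z).2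

theorem noC_start {A C : BinaryTree Unit} (h : ht A + 1 < ht C) (hZ : Z ≠ .nil) : NoC (A △ C) Z := by
  intro e
  have hC : C ≠ .nil := by
    rintro rfl
    rw [OddHC.ht] at h
    omega
  obtain ⟨P, Q, h1, h2, h3⟩ := sq_first C hC
  rw [Tsq.sq_lt (by rw [H1.ht_eq, H1.ht_eq]; exact h) h1] at e
  have e1 : A △ P = (Tsq.sq Z).1 := (H1.node_inj e).1
  obtain ⟨P', Q', h1', h2', h3'⟩ := sq_first Z hZ
  rw [← e1] at h1'
  obtain ⟨rfl, rfl⟩ := H1.node_inj h1'
  omega

theorem noC_of {A C : BinaryTree Unit} (hA : A ≠ .nil) (h : ht C ≤ ht A + 1)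
    (h' : (Tsq.sq A).1 ≠ (Tsq.sq Z).1) : NoC (A △ C) Z := by
  intro e
  rw [Tsq.sq_ge hA (by rw [H1.ht_eq, H1.ht_eq]; exact h)] at e
  exact h' (H1.node_inj e).1

theorem noC_chain {s : ℕ} {C A Y : BinaryTree Unit} (hZ : ht A + 1 < ht Y) :
    NoC (ch (s + 1) △ C) (A △ Y) := by
  have hs : ht (ch (s + 1)) = s + 1 := ch_ht _
  rcases Nat.lt_or_ge (ht (ch (s + 1)) + 1) (ht C) with h | h
  · exact noC_start h (by simp)
  · refine noC_of (ch_ne (by omega)) h ?_
    rw [sq_ch]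
    have hY : Y ≠ .nil := by
      rintro rfl
      rw [OddHC.ht] at hZ
      omega
    obtain ⟨P, Q, h1, h2, h3⟩ := sq_first Y hY
    rw [Tsq.sq_lt (by rw [H1.ht_eq, H1.ht_eq]; exact hZ) h1]
    change ch s △ .nil ≠ (A △ P) △ Q
    intro e
    have e1 : ch s = A △ P := (H1.node_inj e).1
    cases s with
    | zero => exact absurd e1 (by simp [ch])
    | succ s =>
      change ch s △ .nil = A △ P at e1
      have e2 := (H1.node_inj e1).2
      rw [← e2, OddHC.ht] at h3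
      omega

/-- `R = [n+1][3]`: no collision with any gadget JV, `11 ≤ k` -/
theorem noC_s3 {n : ℕ} (hk : 11 ≤ k) (hd : JDat k (app (ch (n + 1)) (ch 3)) (ch 3) (ch (n + 1)))
    {F' : Set (Cyc k)} {g' : DG k} (h9 : Is9 .nil .nil Z F' g') : NoC (app (ch (n + 1)) (ch 3)) Z := by
  intro e
  obtain ⟨v, hv, -, -⟩ := h9
  have hn := hd.num
  rw [num_app, ch_num, ch_num] at hn
  obtain ⟨n, rfl⟩ : ∃ m, n = m + 1 := ⟨n - 1, by omega⟩
  rw [hd.sq] at e
  change ch (n + 1) △ ch 4 = (Tsq.sq Z).1 △ (Tsq.sq Z).2 at e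
  obtain ⟨e1, e2⟩ := H1.node_inj e
  have hc := cont_sqV hv.ne
  rw [← e1, ← e2, ch_cont, ch_cont] at hc
  apply hv.new
  have c2 : OddHC.cont ((.nil △ .nil) △ (.nil : BinaryTree Unit)) = {2} := by decide
  refine cyc_eq.2 (same_42 (s := n + 1) (by omega) _ _ ?_ ?_)
  · rw [hv.word 0 (by norm_num), (w9_forms Z).1, cont_app, c2, ← hc]
  · rw [hv.word 1 (by norm_num), (w9_forms Z).2.1]
    have e3 : ((.nil △ .nil) △ Z : BinaryTree Unit) = app ((.nil △ .nil) △ .nil) Z := rfl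
    rw [e3, cont_app, c2, ← hc]
    abel

/-! ### Features -/

/-- a feature of a word -/
def ph (w : BinaryTree Unit) : ℕ :=
  if fb w = true then 3 else if len w = 1 then 1 else if lastB w = true then 2 else 0

def phW (i : ℕ) : ℕ := [0, 2, 3, 1, 0, 3, 2, 1, 3, 1, 0, 0, 2, 0, 0, 3, 2, 1, 3, 1].getD i 0

def cW (i : ℕ) : ℕ := [0, 2, 2, 1, 0, 2, 1, 1, 1, 0, 0, 2, 1, 1, 1, 1, 1, 0, 1, 0].getD i 0

def phV (i : ℕ) : ℕ := [0, 0, 1, 1, 1, 2, 1, 2, 3].getD i 0

theorem ph_W (hR : Ft R) (hB : Ft B) (hS : Ft S) : ∀ i < 20, ph (W R .nil B S i) = phW i := by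
  have nR := hR.ne
  have nB := hB.ne
  have nS := hS.ne
  have lR := hR.len1
  have lB := hB.len1
  have lS := hS.len1
  have fbn : ∀ A X : BinaryTree Unit, fb (A △ X) = isNil A := fun _ _ => rfl
  have isn : ∀ A X : BinaryTree Unit, isNil (A △ X) = false := fun _ _ => rfl
  have is0 : isNil (BinaryTree.nil : BinaryTree Unit) = true := rfl
  have lnn : ∀ A X : BinaryTree Unit, len (A △ X) = len X + 1 := fun _ _ => rfl
  have ln0 : len (BinaryTree.nil : BinaryTree Unit) = 0 := rfl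
  have app0 : ∀ X : BinaryTree Unit, app .nil X = X := fun _ => rfl
  have hne : ∀ A X : BinaryTree Unit, (A △ X) ≠ .nil := fun _ _ => by simp
  have lastn : ∀ A B C : BinaryTree Unit, lastB (A △ (B △ C)) = lastB (B △ C) := fun _ _ _ => rfl
  have lR' : ∀ A : BinaryTree Unit, lastB (A △ R) = false := fun A => by rw [lastB_cons nR, hR.la0]
  have lS' : ∀ A : BinaryTree Unit, lastB (A △ S) = false := fun A => by rw [lastB_cons nS, hS.la0]
  have lB' : ∀ A : BinaryTree Unit, lastB (A △ B) = false := fun A => by rw [lastB_cons nB, hB.la0]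
  have aR : ∀ A X : BinaryTree Unit, lastB (app R (A △ X)) = lastB (A △ X) := fun A X => lastB_app (hne _ _)
  have aB : ∀ A X : BinaryTree Unit, lastB (app B (A △ X)) = lastB (A △ X) := fun A X => lastB_app (hne _ _)
  have aS : ∀ A X : BinaryTree Unit, lastB (app S (A △ X)) = lastB (A △ X) := fun A X => lastB_app (hne _ _)
  have nR' : ∀ A X : BinaryTree Unit, app R (A △ X) ≠ .nil := fun A X => app_ne (hne _ _)
  have nB' : ∀ A X : BinaryTree Unit, app B (A △ X) ≠ .nil := fun A X => app_ne (hne _ _)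
  have nS' : ∀ A X : BinaryTree Unit, app S (A △ X) ≠ .nil := fun A X => app_ne (hne _ _)
  have z1 : ∀ n : ℕ, 1 ≤ n → ¬ (n + 1 = 1) := fun n h => by omega
  have z2 : ∀ n : ℕ, ¬ (n + 1 + 1 = 1) := fun n => by omega
  intro i hi
  interval_cases i
  · -- 0
    simp only [W, ph, phW, J1.fb_app nR, hR.fb0, aR, lastB_one, isn, len_app, lnn, ln0]
    simp; omega
  · simp only [W, ph, phW, app0, J1.fb_app nR, hR.fb0, aR, lastn, lastB_one, is0, len_app, lnn, ln0]
    simp
  · simp only [W, ph, phW, fbn, is0]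
    simp
  · simp only [W, ph, phW, fbn, isNil_app, hR.isn, lnn, ln0]
    simp
  · simp only [W, ph, phW, app0, fbn, isn, lR', lnn]
    simp; omega
  · simp only [W, ph, phW, fbn, is0]
    simp
  · simp only [W, ph, phW, fbn, hR.isn, lastn, lastB_one, is0, lnn, ln0]
    simp
  · simp only [W, ph, phW, app0, fbn, isn, lnn, ln0]
    simp
  · simp only [W, ph, phW, app0, fbn, is0]
    simp
  · simp only [W, ph, phW, fbn, isn, lnn, ln0]
    simp
  · simp only [W, ph, phW, J1.fb_app nB, hB.fb0, aB, lS', len_app, lnn]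
    simp; omega
  · simp only [W, ph, phW, app0, J1.fb_app nB, hB.fb0, aB, lastn, lS', len_app, lnn]
    simp; omega
  · simp only [W, ph, phW, fbn, hS.isn, lastB_cons (nB' _ _), aB, lastB_one, is0, len_app, lnn, ln0]
    simp
  · simp only [W, ph, phW, J1.fb_app nS, hS.fb0, aS, lastB_one, isNil_app, hB.isn, len_app, lnn, ln0]
    simp; omega
  · simp only [W, ph, phW, app0, fbn, isn, lB', lnn]
    simp; omega
  · simp only [W, ph, phW, fbn, is0]
    simp
  · simp only [W, ph, phW, J1.fb_app nS, hS.fb0, aS, lastn, lastB_one, is0, len_app, lnn, ln0]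
    simp
  · simp only [W, ph, phW, app0, fbn, isn, lnn, ln0]
    simp
  · simp only [W, ph, phW, app0, fbn, is0]
    simp
  · simp only [W, ph, phW, fbn, isNil_app, hS.isn, lnn, ln0]
    simp

theorem c_W (h : JDat k R B S) : ∀ i < 20, (OddHC.cont (W R .nil B S i)).count 1 = cW i := by
  have hb := h.big
  have k0 : ∀ M : Multiset ℕ, (∀ x ∈ M, 3 ≤ x) → M.count 1 = 0 := fun M hM => by
    rw [Multiset.count_eq_zero]
    intro h1
    have := hM 1 h1
    omega
  have kR := k0 _ h.bare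
  have kB := k0 _ h.bareB
  have kS := k0 _ h.bareS
  have sR : 3 ≤ (OddHC.cont R).sup := by rw [← OddHC.ht_eq]; exact h.big
  have sB : 3 ≤ (OddHC.cont B).sup := by
    have hB0 : OddHC.cont B ≠ 0 := fun e => h.hB (cont_eq_zero.1 e)
    exact h.bareB _ (sup_mem hB0)
  have sS : 3 ≤ (OddHC.cont S).sup := by
    have hB0 : OddHC.cont S ≠ 0 := fun e => h.hS (cont_eq_zero.1 e)
    exact h.bareS _ (sup_mem hB0)
  have cn : ∀ A C : BinaryTree Unit, (OddHC.cont (A △ C)).count 1 =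
      (raise (OddHC.cont A)).count 1 + (OddHC.cont C).count 1 := by
    intro A C
    rw [cont_node, Multiset.count_add]
  have ca : ∀ A C : BinaryTree Unit, (OddHC.cont (app A C)).count 1 =
      (OddHC.cont A).count 1 + (OddHC.cont C).count 1 := by
    intro A C
    rw [cont_app, Multiset.count_add]
  have r0 : (raise (OddHC.cont (BinaryTree.nil : BinaryTree Unit))).count 1 = 1 := by
    rw [cont_nil, raise_zero]; rfl
  have c0 : (OddHC.cont (BinaryTree.nil : BinaryTree Unit)).count 1 = 0 := rfl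
  have cl : (raise (OddHC.cont ((BinaryTree.nil : BinaryTree Unit) △ .nil))).count 1 = 0 := by
    rw [cont_pp]
    decide
  have rr : ∀ t : BinaryTree Unit, 2 ≤ (OddHC.cont t).sup →
      (raise (OddHC.cont t)).count 1 = (OddHC.cont t).count 1 := fun t ht => H1.raise_one ht
  have sa : ∀ A C : BinaryTree Unit, (OddHC.cont (app A C)).sup =
      max (OddHC.cont A).sup (OddHC.cont C).sup := by
    intro A C
    rw [cont_app, Multiset.sup_add]
  have sn : ∀ A C : BinaryTree Unit, (OddHC.cont (A △ C)).sup =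
      max ((OddHC.cont A).sup + 1) (OddHC.cont C).sup := by
    intro A C
    rw [cont_node, Multiset.sup_add, sup_raise]
  have s0 : (OddHC.cont (BinaryTree.nil : BinaryTree Unit)).sup = 0 := rfl
  have app0 : ∀ X : BinaryTree Unit, app .nil X = X := fun _ => rfl
  have rR := rr R (by omega)
  have rB := rr B (by omega)
  have rS := rr S (by omega)
  have rR1 := rr (app R (.nil △ .nil)) (by rw [sa]; omega)
  have rR2 := rr (.nil △ R) (by rw [sn]; omega)
  have rR3 := rr (R △ .nil) (by rw [sn]; omega)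
  have rB1 := rr (app B (.nil △ .nil)) (by rw [sa]; omega)
  have rS1 := rr (.nil △ S) (by rw [sn]; omega)
  have rS2 := rr (S △ B) (by rw [sn]; omega)
  have rS3 := rr (app S (B △ .nil)) (by rw [sa]; omega)
  intro i hi
  interval_cases i <;>
    simp only [W, cW, app0, ca, cn, r0, c0, cl, rR, rB, rS, rR1, rR2, rR3, rB1, rS1, rS2, rS3, kR, kB, kS] <;> rfl

theorem one_free {t : BinaryTree Unit} (h : (OddHC.cont t).count 1 = 0) : fb t = false ∧ lastB t = false := by
  induction t with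
  | nil => exact ⟨rfl, rfl⟩
  | node u A C _ ih =>
    have h' : (OddHC.cont (A △ C)).count 1 = 0 := h
    rw [cont_node, Multiset.count_add] at h'
    have hA : A ≠ .nil := by
      rintro rfl
      rw [cont_nil, raise_zero] at h'
      have : ({1} : Multiset ℕ).count 1 = 1 := by simp
      omega
    refine ⟨isNil_f.2 hA, ?_⟩
    cases C with
    | nil => exact isNil_f.2 hA
    | node v C D => exact (ih (by omega)).2

theorem ph_V (h0 : (OddHC.cont Z).count 1 = 0) (hZ : Z ≠ .nil) :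
    ∀ i < 9, ph (w9L .nil .nil Z (xT Z) i) = phV i := by
  obtain ⟨f1, f2⟩ := one_free h0
  have lZ := len_pos hZ
  have hs := Tsq.sq_ne hZ
  have isn : ∀ A X : BinaryTree Unit, isNil (A △ X) = false := fun _ _ => rfl
  have is0 : isNil (BinaryTree.nil : BinaryTree Unit) = true := rfl
  have lnn : ∀ A X : BinaryTree Unit, len (A △ X) = len X + 1 := fun _ _ => rfl
  have ln0 : len (BinaryTree.nil : BinaryTree Unit) = 0 := rfl
  have fbn : ∀ A X : BinaryTree Unit, fb (A △ X) = isNil A := fun _ _ => rfl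
  have hne : ∀ A X : BinaryTree Unit, (A △ X) ≠ .nil := fun _ _ => by simp
  have lastn : ∀ A B C : BinaryTree Unit, lastB (A △ (B △ C)) = lastB (B △ C) := fun _ _ _ => rfl
  have la : ∀ P A X : BinaryTree Unit, lastB (app P (A △ X)) = lastB (A △ X) := fun P A X => lastB_app (hne _ _)
  have n' : ∀ P A X : BinaryTree Unit, app P (A △ X) ≠ .nil := fun P A X => app_ne (hne _ _)
  have iZ : isNil Z = false := isNil_f.2 hZ
  have iS : isNil (Tsq.sq Z).1 = false := isNil_f.2 hs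
  obtain ⟨e0, e1, e2, e3, e4, e5, e6, e7, e8⟩ := w9_forms Z
  intro i hi
  interval_cases i
  · rw [e0]
    simp only [ph, phV, J1.fb_app hZ, f1, la, lastB_one, isn, len_app, lnn, ln0]
    simp; omega
  · rw [e1]
    simp only [ph, phV, fbn, isn, lastB_cons hZ, f2, lnn]
    simp; omega
  · rw [e2]
    simp only [ph, phV, fbn, isn, lnn, ln0]
    simp
  · rw [e3]
    simp only [ph, phV, fbn, isn, lnn, ln0]
    simp
  · rw [e4]
    simp only [ph, phV, fbn, isNil_app, iZ, lnn, ln0]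
    simp
  · rw [e5]
    simp only [ph, phV, fbn, iZ, lastn, lastB_one, is0, lnn, ln0]
    simp
  · rw [e6]
    simp only [ph, phV, fbn, isn, lnn, ln0]
    simp
  · rw [e7]
    simp only [ph, phV, fbn, iS, lastB_cons (n' _ _ _), la, lastB_one, is0, len_app, lnn, ln0]
    simp
  · rw [e8]
    simp only [ph, phV, fbn, is0]
    simp

theorem pairs : ∀ i < 20, ∀ j < 9, phW i = phV j →
    cW i = (if j = 0 ∨ j = 1 ∨ j = 3 ∨ j = 6 then 0 else 1) →
    (i, j) ∈ [(0, 0), (0, 1), (4, 0), (4, 1), (10, 0), (10, 1), (3, 2), (3, 4), (7, 2), (7, 4), (9, 3),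
      (9, 6), (17, 3), (17, 6), (19, 3), (19, 6), (6, 5), (6, 7), (12, 5), (12, 7), (16, 5), (16, 7),
      (8, 8), (15, 8), (18, 8)] := by
  intro i hi j hj
  interval_cases i <;> interval_cases j <;> simp [phW, phV, cW]

/-- the collisions -/
theorem coll (h : JDat k R B S) (h0 : (OddHC.cont Z).count 1 = 0) (h3 : 3 ≤ ht Z) {i j : ℕ} (hi : i < 20)
    (hj : j < 9) (e : W R .nil B S i = w9L .nil .nil Z (xT Z) j) :
    Z = R ∨ ((Tsq.sq Z).1 = R ∧ (Tsq.sq Z).2 = .nil) ∨ ¬ NoC R Z := by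
  have hZ : Z ≠ .nil := by
    rintro rfl
    rw [OddHC.ht] at h3
    omega
  have hR := Ft.of h.bare h.ne
  have hB := Ft.of h.bareB h.hB
  have hS := Ft.of h.bareS h.hS
  obtain ⟨z1, z2⟩ := one_free h0
  have p1 := ph_W hR hB hS i hi
  rw [e, ph_V h0 hZ j hj] at p1
  have p2 := c_W h i hi
  rw [(w9_cont h0 (by omega) hj e).2] at p2
  have hp := pairs i hi j hj p1.symm p2.symm
  obtain ⟨e0, e1, e2, e3, e4, e5, e6, e7, e8⟩ := w9_forms Z
  have hs1 : (Tsq.sq R).1 = S := by rw [h.sq]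
  have hs2 : (Tsq.sq R).2 = B := by rw [h.sq]
  have same : (Tsq.sq Z).1 = S → (Tsq.sq Z).2 = B → Z = R := fun a b =>
    sq_inj h.ne hZ (a.trans hs1.symm) (b.trans hs2.symm)
  have noc : app S (B △ .nil) = (Tsq.sq Z).1 △ (Tsq.sq Z).2 → ¬ NoC R Z := by
    intro a b
    apply b
    rw [hs1, hs2]
    exact a
  have fbn : ∀ A X : BinaryTree Unit, fb (A △ X) = isNil A := fun _ _ => rfl
  have hne : ∀ A X : BinaryTree Unit, (A △ X) ≠ .nil := fun _ _ => by simp
  simp only [List.mem_cons, Prod.mk.injEq, List.not_mem_nil, or_false] at hp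
  rcases hp with ⟨rfl, rfl⟩ | ⟨rfl, rfl⟩ | ⟨rfl, rfl⟩ | ⟨rfl, rfl⟩ | ⟨rfl, rfl⟩ | ⟨rfl, rfl⟩ | ⟨rfl, rfl⟩ |
    ⟨rfl, rfl⟩ | ⟨rfl, rfl⟩ | ⟨rfl, rfl⟩ | ⟨rfl, rfl⟩ | ⟨rfl, rfl⟩ | ⟨rfl, rfl⟩ | ⟨rfl, rfl⟩ | ⟨rfl, rfl⟩ |
    ⟨rfl, rfl⟩ | ⟨rfl, rfl⟩ | ⟨rfl, rfl⟩ | ⟨rfl, rfl⟩ | ⟨rfl, rfl⟩ | ⟨rfl, rfl⟩ | ⟨rfl, rfl⟩ | ⟨rfl, rfl⟩ |
    ⟨rfl, rfl⟩ | ⟨rfl, rfl⟩
  · -- 0 0
    rw [e0] at e
    exact Or.inl (H1.app_snoc e).1.symm
  · -- 0 1
    exfalso
    rw [e1] at e
    have h5 := congrArg fI e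
    change fI (app R ((.nil △ .nil) △ .nil)) = _ at h5
    rw [fI_app h.ne] at h5
    exact hR.fI1 h5
  · -- 4 0
    exfalso
    rw [e0] at e
    have h5 := congrArg lastI e
    change lastI ((.nil △ .nil) △ R) = _ at h5
    rw [lastI_cons h.ne, lastI_app (hne _ _)] at h5
    exact hR.lI1 h5
  · -- 4 1
    rw [e1] at e
    exact Or.inl (H1.node_inj e).2.symm
  · -- 10 0
    exfalso
    rw [e0] at e
    have h5 := congrArg lastI e
    change lastI (app B ((.nil △ .nil) △ S)) = _ at h5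
    rw [lastI_app (hne _ _), lastI_cons h.hS, lastI_app (hne _ _)] at h5
    exact hS.lI1 h5
  · -- 10 1
    exfalso
    rw [e1] at e
    have h5 := congrArg fI e
    change fI (app B ((.nil △ .nil) △ S)) = _ at h5
    rw [fI_app h.hB] at h5
    exact hB.fI1 h5
  · -- 3 2
    exfalso
    rw [e2] at e
    have h5 := congrArg fb (H1.node_inj e).1
    rw [J1.fb_app h.ne, hR.fb0] at h5
    exact absurd h5 (by simp [fb, isNil])
  · -- 3 4
    rw [e4] at e
    exact Or.inl (H1.app_snoc (H1.node_inj e).1).1.symm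
  · -- 7 2
    rw [e2] at e
    exact Or.inl (H1.node_inj (H1.node_inj e).1).2.symm
  · -- 7 4
    exfalso
    rw [e4] at e
    have h5 := congrArg fb (H1.node_inj e).1
    rw [J1.fb_app hZ, z1] at h5
    exact absurd h5 (by simp [fb, isNil])
  · -- 9 3
    rw [e3] at e
    exact Or.inl (H1.node_inj (H1.node_inj e).1).1.symm
  · -- 9 6
    rw [e6] at e
    obtain ⟨a, b⟩ := H1.node_inj (H1.node_inj e).1
    exact Or.inr (Or.inl ⟨a.symm, b.symm⟩)
  · -- 17 3
    exfalso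
    rw [e3] at e
    exact h.hB (H1.node_inj (H1.node_inj e).1).2
  · -- 17 6
    rw [e6] at e
    obtain ⟨a, b⟩ := H1.node_inj (H1.node_inj e).1
    exact Or.inl (same a.symm b.symm)
  · -- 19 3
    exfalso
    rw [e3] at e
    have h5 := congrArg len (H1.node_inj e).1
    rw [len_app] at h5
    have := hS.len1
    change len S + 1 = 1 at h5
    omega
  · -- 19 6
    rw [e6] at e
    exact Or.inr (Or.inr (noc (H1.node_inj e).1))
  · -- 6 5
    rw [e5] at e
    exact Or.inl (H1.node_inj e).1.symm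
  · -- 6 7
    rw [e7] at e
    obtain ⟨a, b⟩ := H1.node_inj e
    have b' : app .nil (.nil △ .nil) = app (Tsq.sq Z).2 (.nil △ .nil) := b
    exact Or.inr (Or.inl ⟨a.symm, (H1.app_snoc b').1.symm⟩)
  · -- 12 5
    exfalso
    rw [e5] at e
    have b' : app B (.nil △ .nil) = app .nil (.nil △ .nil) := (H1.node_inj e).2
    exact h.hB (H1.app_snoc b').1
  · -- 12 7
    rw [e7] at e
    obtain ⟨a, b⟩ := H1.node_inj e
    have b' : app B (.nil △ .nil) = app (Tsq.sq Z).2 (.nil △ .nil) := b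
    exact Or.inl (same a.symm (H1.app_snoc b').1.symm)
  · -- 16 5
    exfalso
    rw [e5] at e
    have h5 := congrArg len e
    change len (app S (B △ (.nil △ .nil))) = _ at h5
    rw [len_app] at h5
    have := hS.len1
    change len S + 2 = 2 at h5
    omega
  · -- 16 7
    rw [e7] at e
    have e' : app (app S (B △ .nil)) (.nil △ .nil) = app ((Tsq.sq Z).1 △ (Tsq.sq Z).2) (.nil △ .nil) := by
      rw [H1.app_assoc]
      exact e
    exact Or.inr (Or.inr (noc (H1.app_snoc e').1))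
  · -- 8 8
    rw [e8] at e
    obtain ⟨a, b⟩ := H1.node_inj (H1.node_inj e).2
    exact Or.inr (Or.inl ⟨a.symm, b.symm⟩)
  · -- 15 8
    rw [e8] at e
    obtain ⟨a, b⟩ := H1.node_inj (H1.node_inj e).2
    exact Or.inl (same a.symm b.symm)
  · -- 18 8
    rw [e8] at e
    exact Or.inr (Or.inr (noc (H1.node_inj e).2))

/-- **J1 against JV**, words -/
theorem jX_JV (h : JDat k R B S) {w0 : X k} (h4 : cyc (jX R B S w0 4) = cyc (jX R B S w0 0))
    {F' : Set (Cyc k)} {g' : DG k} (h9 : Is9 .nil .nil Z F' g') (hF : cyc (jX R B S w0 0) ∉ F')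
    (h0 : (OddHC.cont Z).count 1 = 0) (h3 : 3 ≤ ht Z) (hc : NoC R Z) :
    Disjoint (gadJA (jX R B S w0)).B g'.B := by
  rw [Finset.disjoint_left]
  intro w hw hw'
  obtain ⟨i, hi, rfl⟩ := mem_gadJA.1 hw
  obtain ⟨j, hj, e, -⟩ := h9.words _ hw'
  rw [jX_eq h w0 hi] at e
  obtain ⟨v, hv, rfl, rfl⟩ := h9
  have hZ : Z ≠ .nil := hv.ne
  rcases coll h h0 h3 hi hj e with c | ⟨c1, c2⟩ | c
  · -- the new words agree
    apply hF
    left
    congr 1
    apply Subtype.ext
    rw [jX_eq h w0 (by norm_num), hv.word 0 (by norm_num), (w9_forms Z).1, c]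
    rfl
  · apply hF
    left
    rw [← h4]
    have e0 : (v 0).1 = app Z ((.nil △ .nil) △ .nil) := by
      rw [hv.word 0 (by norm_num), (w9_forms Z).1]
    have e4 : (jX R B S w0 4).1 = app (Tsq.sq Z).2 ((.nil △ .nil) △ (Tsq.sq Z).1) := by
      rw [jX_eq h w0 (by norm_num), c1, c2]
      rfl
    have hl : TT (TT (v 0)) = jX R B S w0 4 := by
      refine Tsq.link0 (R := Z) (Q := .nil) ?_ e0 e4
      rw [H1.ht_eq Z]
      change 0 + 2 ≤ _
      omega
    rw [← hl]
    change cyc (TT (TT _)) = cyc _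
    exact cyc_eq.2 ⟨-2, by simp [zpow_neg, pow_succ]⟩
  · exact c hc

/-- **J1 against JV**, words, type form -/
theorem tyJ1_JV {F F' : Set (Cyc k)} {g g' : DG k} (h : TyJ1 F g)
    (h9 : Is9 .nil .nil Z F' g') (hF : Disjoint F F') (h0 : (OddHC.cont Z).count 1 = 0) (h3 : 3 ≤ ht Z)
    (hc : ∀ R B S w0, JDat k R B S → g = gadJA (jX R B S w0) → NoC R Z) :
    Disjoint g.B g'.B := by
  obtain ⟨R, B, S, w0, h1, h4, rfl, rfl⟩ := h
  exact jX_JV h1 h4 h9 (fun hm => Set.disjoint_left.1 hF rfl hm) h0 h3 (hc R B S w0 h1 rfl)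

end J1V

end Pool.OddHC
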