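import Pool.Agent.Work.MP_8f87b2_h49.JVA
import Pool.Agent.Work.MP_8f87b2_h49.JVR3
import Pool.Agent.Work.MP_8f87b2_h13.A0Low

/-!
# MP_8f87b2_co: the mirrored bare windows (`TyA0`, `TyB0`) against JV (`Is9 nil nil Z`), words

Common words exist only if `Z` is bare and `mir Z = (R)`, `(S)B`, `S(B)` or `mir X' = ((R))`, `((S)B)`, `(S(B))` (`c = 3`),
or `mir Z = ((R))`, `((S)B)`, `(S(B))` (`c = 4`): `NoM`, `NoM9`.
-/

set_option autoImplicit false

namespace Pool.OddHC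

namespace J1V

open Finset BinaryTree Equiv H1 J1 Pool.Agent.Work.MP_8f87b2_co

variable {k : ℕ} {R B S Z : BinaryTree Unit}

/-- the mirrored words of JV -/
theorem w9_mir (Z : BinaryTree Unit) :
    Tsq.mir (w9L .nil .nil Z (xT Z) 0) = (.nil △ .nil) △ Tsq.mir Z ∧
    Tsq.mir (w9L .nil .nil Z (xT Z) 1) = app (Tsq.mir Z) ((.nil △ .nil) △ .nil) ∧
    Tsq.mir (w9L .nil .nil Z (xT Z) 2) = app (Tsq.mir Z) (.nil △ .nil) △ .nil ∧
    Tsq.mir (w9L .nil .nil Z (xT Z) 3) = (Tsq.mir Z △ .nil) △ .nil ∧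
    Tsq.mir (w9L .nil .nil Z (xT Z) 4) = (.nil △ Tsq.mir Z) △ .nil ∧
    Tsq.mir (w9L .nil .nil Z (xT Z) 5) = .nil △ (Tsq.mir Z △ .nil) ∧
    Tsq.mir (w9L .nil .nil Z (xT Z) 6) = Tsq.mir (xT Z) △ .nil ∧
    Tsq.mir (w9L .nil .nil Z (xT Z) 7) = .nil △ Tsq.mir (xT Z) ∧
    Tsq.mir (w9L .nil .nil Z (xT Z) 8) = app (Tsq.mir (xT Z)) (.nil △ .nil) := by
  obtain ⟨e0, e1, e2, e3, e4, e5, e6, e7, e8⟩ := w9_forms Z
  have m0 : Tsq.mir (.nil : BinaryTree Unit) = .nil := rfl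
  have a0 : ∀ X : BinaryTree Unit, app .nil X = X := fun _ => rfl
  have a1 : ∀ A X Y : BinaryTree Unit, app (A △ X) Y = A △ app X Y := fun _ _ _ => rfl
  refine ⟨?_, ?_, ?_, ?_, ?_, ?_, ?_, ?_, ?_⟩
  · rw [e0]; simp only [Tsq.mir_app, Tsq.mir_node, m0, a0, a1]
  · rw [e1]; simp only [Tsq.mir_node, m0, a0]
  · rw [e2]; simp only [Tsq.mir_node, m0, a0]
  · rw [e3]; simp only [Tsq.mir_node, m0, a0]
  · rw [e4]; simp only [Tsq.mir_app, Tsq.mir_node, m0, a0, a1]
  · rw [e5]; simp only [Tsq.mir_node, m0, a0, a1]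
  · rw [e6, xT_sq]; simp only [Tsq.mir_node, m0, a0]
  · rw [e7, xT_sq]; simp only [Tsq.mir_app, Tsq.mir_node, m0, a0, a1]
  · rw [e8, xT_sq]; simp only [Tsq.mir_node, m0]

/-- the exclusions for the mirrored windows -/
def NoM (q : ℕ) (R B S Z : BinaryTree Unit) : Prop :=
  (q = 0 → Tsq.mir Z ≠ R △ .nil ∧ Tsq.mir Z ≠ S △ B ∧ (B ≠ .nil → Tsq.mir Z ≠ app S (B △ .nil)) ∧
    Tsq.mir (xT Z) ≠ (S △ B) △ .nil ∧ (B ≠ .nil → Tsq.mir (xT Z) ≠ app S (B △ .nil) △ .nil)) ∧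
  (q = 1 → Tsq.mir Z ≠ (S △ B) △ .nil ∧ (B ≠ .nil → Tsq.mir Z ≠ app S (B △ .nil) △ .nil))

/-- the additional one for word 9 -/
def NoM9 (q : ℕ) (R Z : BinaryTree Unit) : Prop :=
  (q = 0 → Tsq.mir (xT Z) ≠ (R △ .nil) △ .nil) ∧ (q = 1 → Tsq.mir Z ≠ (R △ .nil) △ .nil)

theorem Ft.wd (hR : Ft R) (hB : B = .nil ∨ Ft B) (hS : Ft S) : H1.Wd R B S := by
  refine ⟨hR.ne, hR.fb0, hR.la0, ?_, ?_, hS.ne, hS.fb0, hS.la0⟩
  · rcases hB with rfl | hB
    · rfl
    · exact hB.fb0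
  · rcases hB with rfl | hB
    · rfl
    · exact hB.la0

/-- all parts are at least 3 -/
def B3 (t : BinaryTree Unit) : Prop := ∀ x ∈ OddHC.cont t, 3 ≤ x

theorem B3.c1 {t : BinaryTree Unit} (h : B3 t) : (OddHC.cont t).count 1 = 0 := by
  rw [Multiset.count_eq_zero]
  intro h1
  have := h 1 h1
  omega

theorem B3.sup {t : BinaryTree Unit} (h : B3 t) (h0 : t ≠ .nil) : 3 ≤ (OddHC.cont t).sup := by
  have h1 : OddHC.cont t ≠ 0 := fun e => h0 (cont_eq_zero.1 e)
  exact h _ (sup_mem h1)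

theorem B3.app {P Q : BinaryTree Unit} (h : B3 P) (h' : B3 Q) : B3 (OddHC.app P Q) := by
  intro x hx
  rw [cont_app] at hx
  rcases Multiset.mem_add.1 hx with hx | hx
  · exact h x hx
  · exact h' x hx

theorem B3.node {A C : BinaryTree Unit} (h : B3 A) (h0 : A ≠ .nil) (h' : B3 C) : B3 (A △ C) := by
  intro x hx
  rw [cont_node] at hx
  rcases Multiset.mem_add.1 hx with hx | hx
  · exact raise_ge3 h (fun e => h0 (cont_eq_zero.1 e)) x hx
  · exact h' x hx

theorem B3.nil : B3 .nil := fun x hx => absurd hx (Multiset.notMem_zero x)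

theorem ch_inj1 {q : ℕ} (h : H1.ch (q + 1) = .nil △ .nil) : q = 0 := by
  cases q with
  | zero => rfl
  | succ q =>
    have h1 : H1.ch (q + 1) △ .nil = .nil △ .nil := h
    have := (H1.node_inj h1).1
    simp [H1.ch] at this

theorem ch_inj2 {q : ℕ} (h : H1.ch q = .nil △ .nil) : q = 1 := by
  cases q with
  | zero => simp [H1.ch] at h
  | succ q => rw [ch_inj1 h]

/-- the words with a part 1 -/
theorem one_W (bR : B3 R) (nR : R ≠ .nil) (bS : B3 S) (nS : S ≠ .nil) {q i : ℕ} (hi : i < 20)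
    (hx : i ∉ [0, 6, 9, 10, 15, 16, 17, 19]) :
    1 ≤ (OddHC.cont (W R (ch (q + 1)) B S i)).count 1 := by
  have sR := bR.sup nR
  have sS := bS.sup nS
  have cn := JVA.c_app
  have cl := JVA.c_leaf
  have pos : ∀ t : BinaryTree Unit, ∀ x ∈ OddHC.cont t, 1 ≤ x := fun t x hx => cont_pos t x hx
  -- `(X)` with a part 1 in `X`, `X` has another part
  have rz : ∀ t : BinaryTree Unit, 1 ∈ OddHC.cont t → OddHC.cont t ≠ {1} →
      1 ≤ (raise (OddHC.cont t)).count 1 := fun t h1 h2 => H1.raise_one_pos h1 h2 (pos t)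
  have m1 : ∀ P C : BinaryTree Unit, 1 ∈ OddHC.cont (app P (.nil △ C)) := by
    intro P C
    rw [cont_app, cont_node, cont_nil, raise_zero]
    simp
  have two : ∀ M : Multiset ℕ, 2 ≤ Multiset.card M → M ≠ {1} := by
    rintro M h rfl
    simp at h
  have cQ : OddHC.cont (ch (q + 1)) = {q + 1} := ch_cont q
  simp only [List.mem_cons, List.not_mem_nil, or_false, not_or] at hx
  obtain ⟨x0, x6, x9, x10, x15, x16, x17, x19⟩ := hx
  interval_cases i
  · exact absurd rfl x0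
  · change 1 ≤ (OddHC.cont (app R (.nil △ _))).count 1
    rw [cn, cl]; omega
  · change 1 ≤ (OddHC.cont (.nil △ _)).count 1
    rw [cl]; omega
  · have h : JVA.P1 (app R (.nil △ ch (q + 1))) := by
      constructor
      · rw [cn, cl]; omega
      · rw [cont_app, Multiset.sup_add]; omega
    exact (h.nl : JVA.P1 (app R (.nil △ ch (q + 1)) △ .nil)).1
  · change 1 ≤ (OddHC.cont (app (ch (q + 1)) (.nil △ .nil) △ R)).count 1
    rw [cont_node, Multiset.count_add]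
    have := rz (app (ch (q + 1)) (.nil △ .nil)) (m1 _ _) (two _ (by
      rw [cont_app, cQ, cont_pp]; simp))
    omega
  · change 1 ≤ (OddHC.cont (_ △ (.nil △ R))).count 1
    rw [cont_node, Multiset.count_add, cl]; omega
  · exact absurd rfl x6
  · have h : JVA.P1 (.nil △ R) := by
      constructor
      · rw [cl]; omega
      · rw [cont_node, Multiset.sup_add]; omega
    exact (h.nl.ar : JVA.P1 (app (ch (q + 1)) ((.nil △ R) △ .nil))).1
  · change 1 ≤ (OddHC.cont (app _ (.nil △ _))).count 1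
    rw [cn, cl]; omega
  · exact absurd rfl x9
  · exact absurd rfl x10
  · change 1 ≤ (OddHC.cont (app _ (.nil △ _))).count 1
    rw [cn, cl]; omega
  · change 1 ≤ (OddHC.cont (S △ app _ (.nil △ _))).count 1
    rw [cont_node, Multiset.count_add, cn, cl]; omega
  · change 1 ≤ (OddHC.cont (app S (app B (.nil △ ch (q + 1)) △ .nil))).count 1
    rw [cn, cont_node, Multiset.count_add]
    have := rz (app B (.nil △ ch (q + 1))) (m1 _ _) (two _ (by
      rw [cont_app, cont_node, cQ, cont_nil, raise_zero, Multiset.card_add, Multiset.card_add]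
      simp))
    omega
  · have h : JVA.P1 (app (ch (q + 1)) (.nil △ S)) := by
      constructor
      · rw [cn, cl]; omega
      · rw [cont_app, cont_node, Multiset.sup_add, Multiset.sup_add]; omega
    exact (h.nl : JVA.P1 (app (ch (q + 1)) (.nil △ S) △ B)).1
  · exact absurd rfl x15
  · exact absurd rfl x16
  · exact absurd rfl x17
  · change 1 ≤ (OddHC.cont (app _ (.nil △ _))).count 1
    rw [cn, cl]; omega
  · exact absurd rfl x19

/-- the new words of JV -/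
theorem collM0 (bR : B3 R) (nR : R ≠ .nil) (bB : B3 B) (bS : B3 S) (nS : S ≠ .nil) {q i : ℕ} (hi : i < 20)
    {m : BinaryTree Unit} (h0 : (OddHC.cont (W R (ch (q + 1)) B S i)).count 1 = 0)
    (e : W R (ch (q + 1)) B S i = (.nil △ .nil) △ m ∨
      W R (ch (q + 1)) B S i = app m ((.nil △ .nil) △ .nil)) :
    (q = 0 ∧ (m = R △ .nil ∨ m = S △ B ∨ (B ≠ .nil ∧ m = app S (B △ .nil)))) ∨
    (q = 1 ∧ (m = (S △ B) △ .nil ∨ (B ≠ .nil ∧ m = app S (B △ .nil) △ .nil))) ∨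
    (i = 9 ∧ q = 1 ∧ m = (R △ .nil) △ .nil) := by
  have hR := Ft.of bR nR
  have hS := Ft.of bS nS
  have hB : B = .nil ∨ Ft B := by
    by_cases h : B = .nil
    · exact Or.inl h
    · exact Or.inr (Ft.of bB h)
  have hne : ∀ A X : BinaryTree Unit, (A △ X) ≠ .nil := fun _ _ => by simp
  have hQ : ch (q + 1) ≠ .nil := by simp [ch]
  have hm : i ∈ [0, 6, 9, 10, 15, 16, 17, 19] := by
    by_contra hx
    have := one_W (B := B) bR nR bS nS (q := q) hi hx
    omega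
  have fR1 : R ≠ .nil △ .nil := fun h => by
    have := hR.fb0
    rw [h] at this
    simp [fb, isNil] at this
  have fS1 : S ≠ .nil △ .nil := fun h => by
    have := hS.fb0
    rw [h] at this
    simp [fb, isNil] at this
  have sS := bS.sup nS
  simp only [List.mem_cons, List.not_mem_nil, or_false] at hm
  rcases hm with rfl | rfl | rfl | rfl | rfl | rfl | rfl | rfl
  · -- 0
    exfalso
    rcases e with e | e
    · have h5 := congrArg fI e
      change fI (app R ((ch (q + 1) △ .nil) △ .nil)) = _ at h5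
      rw [fI_app nR] at h5
      exact hR.fI1 h5
    · have e' : app R ((ch (q + 1) △ .nil) △ .nil) = app m ((.nil △ .nil) △ .nil) := e
      exact hQ (H1.node_inj (H1.app_snoc e').2).1
  · -- 6
    rcases e with e | e
    · exact absurd (H1.node_inj e).1 fR1
    · have e' : app (R △ .nil) (ch (q + 1) △ .nil) = app m ((.nil △ .nil) △ .nil) := e
      obtain ⟨a, b⟩ := H1.app_snoc e'
      exact Or.inl ⟨ch_inj1 b, Or.inl a.symm⟩
  · -- 9
    rcases e with e | e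
    · exact absurd (H1.node_inj (H1.node_inj e).1).1 nR
    · have e' : app ((R △ .nil) △ .nil) (ch q △ .nil) = app m ((.nil △ .nil) △ .nil) := e
      obtain ⟨a, b⟩ := H1.app_snoc e'
      exact Or.inr (Or.inr ⟨rfl, ch_inj2 b, a.symm⟩)
  · -- 10
    exfalso
    rcases e with e | e
    · rcases hB with rfl | hB
      · exact hQ (H1.node_inj (H1.node_inj e).1).1
      · have h5 := congrArg fI e
        change fI (app B ((ch (q + 1) △ .nil) △ S)) = _ at h5
        rw [fI_app hB.ne] at h5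
        exact hB.fI1 h5
    · have h5 := congrArg lastI e
      change lastI (app B ((ch (q + 1) △ .nil) △ S)) = _ at h5
      rw [lastI_app (hne _ _), lastI_cons nS, lastI_app (hne _ _)] at h5
      exact hS.lI1 h5
  · -- 15
    rcases e with e | e
    · obtain ⟨a, b⟩ := H1.node_inj e
      exact Or.inl ⟨ch_inj1 a, Or.inr (Or.inl b.symm)⟩
    · exfalso
      have h5 := congrArg lastI e
      change lastI (ch (q + 1) △ (S △ B)) = _ at h5
      rw [lastI_cons (hne _ _), lastI_app (hne _ _)] at h5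
      rcases hB with rfl | hB
      · exact fS1 h5
      · rw [lastI_cons hB.ne] at h5
        exact hB.lI1 h5
  · -- 16
    rcases e with e | e
    · exfalso
      have h5 := congrArg fI e
      change fI (app S (B △ (ch (q + 1) △ .nil))) = _ at h5
      rw [fI_app nS] at h5
      exact hS.fI1 h5
    · have e' : app (app S (B △ .nil)) (ch (q + 1) △ .nil) = app m ((.nil △ .nil) △ .nil) := by
        rw [H1.app_assoc]
        exact e
      obtain ⟨a, b⟩ := H1.app_snoc e'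
      refine Or.inl ⟨ch_inj1 b, Or.inr (Or.inr ⟨?_, a.symm⟩)⟩
      rintro rfl
      change (OddHC.cont (app S (.nil △ (ch (q + 1) △ .nil)))).count 1 = 0 at h0
      rw [JVA.c_app, JVA.c_leaf] at h0
      omega
  · -- 17
    rcases e with e | e
    · have e' : ch q △ ((S △ B) △ .nil) = (.nil △ .nil) △ m := e
      obtain ⟨a, b⟩ := H1.node_inj e'
      exact Or.inr (Or.inl ⟨ch_inj2 a, Or.inl b.symm⟩)
    · exfalso
      have e' : app (ch (q + 1)) ((S △ B) △ .nil) = app m ((.nil △ .nil) △ .nil) := e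
      exact nS (H1.node_inj (H1.app_snoc e').2).1
  · -- 19
    rcases e with e | e
    · exfalso
      have e' := (H1.node_inj e).1
      cases S with
      | nil => exact nS rfl
      | node _ S1 S2 =>
        have e2 : S1 △ app S2 (B △ .nil) = .nil △ .nil := e'
        have := hS.fb0
        rw [(H1.node_inj e2).1] at this
        simp [fb, isNil] at this
    · have e' : app (app S (B △ .nil) △ .nil) (ch q △ .nil) = app m ((.nil △ .nil) △ .nil) := e
      obtain ⟨a, b⟩ := H1.app_snoc e'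
      refine Or.inr (Or.inl ⟨ch_inj2 b, Or.inr ⟨?_, a.symm⟩⟩)
      rintro rfl
      change (OddHC.cont (app S (.nil △ .nil) △ ch (q + 1))).count 1 = 0 at h0
      rw [cont_node, Multiset.count_add, H1.raise_one (by rw [cont_app, Multiset.sup_add]; omega),
        JVA.c_app, JVA.c_leaf] at h0
      omega

/-- the words `(Y)`, `Y()`, `()Y` -/
theorem collM1 (bR : B3 R) (nR : R ≠ .nil) (bB : B3 B) (bS : B3 S) (nS : S ≠ .nil) {q i : ℕ} (hi : i < 20)
    {m Y : BinaryTree Unit} (hm : m ≠ .nil)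
    (hY : ((OddHC.cont Y).count 1 = 1 ∧ (Y = app m (.nil △ .nil) ∨ Y = .nil △ m)) ∨
      (OddHC.cont Y).count 1 = 0)
    (e : W R (ch (q + 1)) B S i = Y △ .nil ∨ W R (ch (q + 1)) B S i = app Y (.nil △ .nil) ∨
      W R (ch (q + 1)) B S i = .nil △ Y) :
    q = 0 ∧ (m = R △ .nil ∨ m = S △ B ∨ (B ≠ .nil ∧ m = app S (B △ .nil)) ∨
      ((OddHC.cont Y).count 1 = 0 ∧ (Y = (S △ B) △ .nil ∨ (B ≠ .nil ∧ Y = app S (B △ .nil) △ .nil) ∨
      (i = 9 ∧ Y = (R △ .nil) △ .nil)))) := by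
  have hR := Ft.of bR nR
  have hS := Ft.of bS nS
  have hB : B = .nil ∨ Ft B := by
    by_cases h : B = .nil
    · exact Or.inl h
    · exact Or.inr (Ft.of bB h)
  have hne : ∀ A X : BinaryTree Unit, (A △ X) ≠ .nil := fun _ _ => by simp
  have hQ : ch (q + 1) ≠ .nil := by simp [ch]
  have kR := bR.c1
  have kB := bB.c1
  have kS := bS.c1
  have sR := bR.sup nR
  have sS := bS.sup nS
  have la : ∀ P A X : BinaryTree Unit, lastB (app P (A △ X)) = lastB (A △ X) := fun P A X => lastB_app (hne _ _)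
  have l1 : lastB (.nil △ .nil : BinaryTree Unit) = true := rfl
  -- Y with a part 1 has two components, and a bead at an end
  have hl : (OddHC.cont Y).count 1 = 1 → 2 ≤ len Y ∧ (lastB Y = true ∧ Y = app m (.nil △ .nil) ∨
      fb Y = true ∧ Y = .nil △ m) := by
    intro h1
    rcases hY with ⟨_, h2 | h2⟩ | h2
    · refine ⟨?_, Or.inl ⟨?_, h2⟩⟩
      · rw [h2, len_app]
        have := len_pos hm
        change 2 ≤ len m + 1
        omega
      · rw [h2, la]; rfl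
    · refine ⟨?_, Or.inr ⟨?_, h2⟩⟩
      · rw [h2]
        have := len_pos hm
        change 2 ≤ len m + 1
        omega
      · rw [h2]; rfl
    · omega
  have hY1 : (OddHC.cont Y).count 1 ≤ 1 := by
    rcases hY with ⟨h, _⟩ | h <;> omega
  rcases H1.ae_shape (Ft.wd hR hB hS) hi e with ⟨h, _⟩ | ⟨hB0, h, _⟩ | ⟨hq, h⟩
  · exfalso
    have c : (OddHC.cont Y).count 1 = 1 + (OddHC.cont (ch (q + 1))).count 1 := by
      rw [h, JVA.c_app, JVA.c_leaf, kR]; omega
    have c' := hl (by omega)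
    rcases c'.2 with ⟨c2, _⟩ | ⟨c2, _⟩
    · rw [h, la, lastB_cons hQ] at c2
      have := H1.lastB_ch q c2
      subst this
      rw [show ch (0 + 1) = (.nil △ .nil : BinaryTree Unit) from rfl, JVA.c_leaf] at c
      omega
    · rw [h, J1.fb_app nR, hR.fb0] at c2
      exact absurd c2 (by simp)
  · exfalso
    have c : (OddHC.cont Y).count 1 = (OddHC.cont (ch (q + 1))).count 1 + 1 := by
      rw [h, JVA.c_app, JVA.c_leaf, kS]
    have c' := hl (by omega)
    rcases c'.2 with ⟨c2, _⟩ | ⟨c2, _⟩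
    · rw [h, la, lastB_cons nS, hS.la0] at c2
      exact absurd c2 (by simp)
    · rw [h] at c2
      have := H1.fb_ch q _ c2
      subst this
      rw [show ch (0 + 1) = (.nil △ .nil : BinaryTree Unit) from rfl, JVA.c_leaf] at c
      omega
  · refine ⟨hq, ?_⟩
    have c00 : (OddHC.cont (BinaryTree.nil : BinaryTree Unit)).count 1 = 0 := rfl
    -- from `Y` with one part 1
    have k1 : (OddHC.cont Y).count 1 = 1 → lastB Y = false → ∀ W0, Y = .nil △ W0 → m = W0 := by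
      intro c1 c2 W0 c3
      rcases (hl c1).2 with ⟨c4, _⟩ | ⟨_, c4⟩
      · rw [c2] at c4; exact absurd c4 (by simp)
      · rw [c3] at c4
        exact (H1.node_inj c4).2.symm
    have k2 : (OddHC.cont Y).count 1 = 1 → fb Y = false → ∀ W0, Y = app W0 (.nil △ .nil) → m = W0 := by
      intro c1 c2 W0 c3
      rcases (hl c1).2 with ⟨_, c4⟩ | ⟨c4, _⟩
      · rw [c3] at c4
        exact (H1.app_snoc c4).1.symm
      · rw [c2] at c4; exact absurd c4 (by simp)
    have k3 : ∀ W0, Y = W0 △ .nil → (OddHC.cont Y).count 1 = 0 := by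
      intro W0 c3
      by_contra c1
      have c2 := (hl (by omega)).1
      rw [c3] at c2
      change 2 ≤ 1 at c2
      omega
    rcases h with ⟨_, h⟩ | ⟨_, h⟩ | ⟨_, h⟩ | ⟨hi9, h⟩ | ⟨_, h⟩ | ⟨_, h⟩ | ⟨_, h⟩ | ⟨_, h⟩
    · exfalso
      rw [h, JVA.c_leaf, JVA.c_app, JVA.c_leaf] at hY1
      omega
    · exfalso
      have := k3 _ h
      rw [h, JVA.c_node (by rw [cont_node, Multiset.sup_add]; omega), JVA.c_leaf] at this
      omega
    · left
      refine k1 ?_ ?_ _ h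
      · rw [h, JVA.c_leaf, JVA.c_node (by omega), kR]; rfl
      · rw [h, lastB_cons (hne _ _), lastB_one]; exact hR.isn
    · exact Or.inr (Or.inr (Or.inr ⟨k3 _ h, Or.inr (Or.inr ⟨hi9, h⟩)⟩))
    · right; left
      refine k2 ?_ ?_ (S △ B) (by rw [h]; rfl)
      · rw [h, JVA.c_node (by omega), JVA.c_app, JVA.c_leaf, kS, kB]; rfl
      · rw [h]; exact hS.isn
    · exact Or.inr (Or.inr (Or.inr ⟨k3 _ h, Or.inl h⟩))
    · by_cases hB0 : B = .nil
      · exfalso
        rw [h, JVA.c_leaf, JVA.c_app, hB0, JVA.c_leaf] at hY1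
        omega
      · right; right; left
        have sB := bB.sup hB0
        refine ⟨hB0, k1 ?_ ?_ _ h⟩
        · rw [h, JVA.c_leaf, JVA.c_app, JVA.c_node (by omega), kS, kB]; rfl
        · rw [h, lastB_cons (H1.app_ne (hne _ _)), la, lastB_one]
          exact isNil_f.2 hB0
    · by_cases hB0 : B = .nil
      · exfalso
        have := k3 _ h
        rw [h, JVA.c_node (by rw [cont_app, Multiset.sup_add]; omega), JVA.c_app, hB0, JVA.c_leaf] at this
        omega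
      · exact Or.inr (Or.inr (Or.inr ⟨k3 _ h, Or.inr (Or.inl ⟨hB0, h⟩)⟩))

/-- **the collisions of the mirrored bare windows with JV** -/
theorem collM (bR : B3 R) (nR : R ≠ .nil) (bB : B3 B) (bS : B3 S) (nS : S ≠ .nil)
    (h0 : (OddHC.cont Z).count 1 = 0) (h3 : 2 ≤ ht Z) {q i j : ℕ} (hi : i < 20) (hj : j < 9)
    (e : W R (ch (q + 1)) B S i = Tsq.mir (w9L .nil .nil Z (xT Z) j)) :
    ¬ NoM q R B S Z ∨ (i = 9 ∧ ¬ NoM9 q R Z) := by
  have hZ : Z ≠ .nil := by
    rintro rfl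
    rw [OddHC.ht] at h3
    omega
  obtain ⟨m, hm⟩ : ∃ m, m = Tsq.mir Z := ⟨_, rfl⟩
  obtain ⟨X, hX⟩ : ∃ X, X = Tsq.mir (xT Z) := ⟨_, rfl⟩
  have nm : m ≠ .nil := by rw [hm]; exact mir_ne hZ
  have hz : 2 ≤ (OddHC.cont Z).sup := by rw [← OddHC.ht_eq]; exact h3
  have cm : OddHC.cont m = OddHC.cont Z := by rw [hm, HM.cont_mir]
  have hs := cont_sqV hZ
  have hz' : 2 ≤ (OddHC.cont (Tsq.sq Z).1).sup := by
    rw [← OddHC.ht_eq, (ht_sq hZ).1]; exact h3
  have cX : (OddHC.cont X).count 1 = 0 := by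
    rw [hX, HM.cont_mir, xT_sq, JVA.c_node hz', ← Multiset.count_add, hs, h0]
  have cm0 : (OddHC.cont m).count 1 = 0 := by rw [cm, h0]
  have c5 : (OddHC.cont (m △ .nil)).count 1 = 0 := by
    rw [JVA.c_node (by rw [cm]; exact hz), cm0]; rfl
  have c2 : (OddHC.cont (app m (.nil △ .nil))).count 1 = 1 := by
    rw [JVA.c_app, JVA.c_leaf, cm0]; rfl
  have c4 : (OddHC.cont (.nil △ m)).count 1 = 1 := by
    rw [JVA.c_leaf, cm0]
  have hc := (w9_cont h0 h3 hj rfl).2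
  have hc' : (OddHC.cont (W R (ch (q + 1)) B S i)).count 1 = if j = 0 ∨ j = 1 ∨ j = 3 ∨ j = 6 then 0 else 1 := by
    rw [e, HM.cont_mir]; exact hc
  -- conclusions
  have f0 : (q = 0 ∧ (m = R △ .nil ∨ m = S △ B ∨ (B ≠ .nil ∧ m = app S (B △ .nil)))) ∨
      (q = 1 ∧ (m = (S △ B) △ .nil ∨ (B ≠ .nil ∧ m = app S (B △ .nil) △ .nil))) ∨
      (i = 9 ∧ q = 1 ∧ m = (R △ .nil) △ .nil) → ¬ NoM q R B S Z ∨ (i = 9 ∧ ¬ NoM9 q R Z) := by
    rw [hm]
    rintro (⟨g1, g2⟩ | ⟨g1, g2⟩ | ⟨g1, g2, g3⟩)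
    · left
      intro h
      obtain ⟨n1, n2, n3, _⟩ := h.1 g1
      rcases g2 with g | g | ⟨g, g'⟩
      · exact n1 g
      · exact n2 g
      · exact n3 g g'
    · left
      intro h
      obtain ⟨n1, n2⟩ := h.2 g1
      rcases g2 with g | ⟨g, g'⟩
      · exact n1 g
      · exact n2 g g'
    · exact Or.inr ⟨g1, fun h => h.2 g2 g3⟩
  -- `(m)` is not one of the three
  have f1 : ∀ Y : BinaryTree Unit, (Y = m △ .nil ∨ Y = app m (.nil △ .nil) ∨ Y = .nil △ m ∨ Y = X) →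
      (q = 0 ∧ (m = R △ .nil ∨ m = S △ B ∨ (B ≠ .nil ∧ m = app S (B △ .nil)) ∨
      ((OddHC.cont Y).count 1 = 0 ∧ (Y = (S △ B) △ .nil ∨ (B ≠ .nil ∧ Y = app S (B △ .nil) △ .nil) ∨
      (i = 9 ∧ Y = (R △ .nil) △ .nil))))) → ¬ NoM q R B S Z ∨ (i = 9 ∧ ¬ NoM9 q R Z) := by
    rintro Y hYY ⟨hq, g⟩
    rcases g with g | g | g | ⟨g1, g⟩
    · exact f0 (Or.inl ⟨hq, Or.inl g⟩)
    · exact f0 (Or.inl ⟨hq, Or.inr (Or.inl g)⟩)
    · exact f0 (Or.inl ⟨hq, Or.inr (Or.inr g)⟩)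
    · rcases hYY with hYY | hYY | hYY | hYY
      · rcases g with g | ⟨g, g'⟩ | ⟨_, g'⟩
        · rw [g] at hYY
          exact f0 (Or.inl ⟨hq, Or.inr (Or.inl (H1.node_inj hYY).1.symm)⟩)
        · rw [g'] at hYY
          exact f0 (Or.inl ⟨hq, Or.inr (Or.inr ⟨g, (H1.node_inj hYY).1.symm⟩)⟩)
        · rw [g'] at hYY
          exact f0 (Or.inl ⟨hq, Or.inl (H1.node_inj hYY).1.symm⟩)
      · rw [hYY] at g1; omega
      · rw [hYY] at g1; omega
      · rcases g with g | ⟨g, g'⟩ | ⟨g, g'⟩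
        · left
          intro h
          apply (h.1 hq).2.2.2.1
          rw [← hX, ← hYY, g]
        · left
          intro h
          apply (h.1 hq).2.2.2.2 g
          rw [← hX, ← hYY, g']
        · right
          refine ⟨g, fun h => h.1 hq ?_⟩
          rw [← hX, ← hYY, g']
  obtain ⟨e0, e1, e2, e3, e4, e5, e6, e7, e8⟩ := w9_mir Z
  rw [← hm] at e0 e1 e2 e3 e4 e5
  rw [← hX] at e6 e7 e8
  interval_cases j
  · exact f0 (collM0 bR nR bB bS nS hi (by rw [hc']; rfl) (Or.inl (e.trans e0)))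
  · exact f0 (collM0 bR nR bB bS nS hi (by rw [hc']; rfl) (Or.inr (e.trans e1)))
  · exact f1 _ (Or.inr (Or.inl rfl)) (collM1 bR nR bB bS nS hi nm (Or.inl ⟨c2, Or.inl rfl⟩)
      (Or.inl (e.trans e2)))
  · exact f1 _ (Or.inl rfl) (collM1 bR nR bB bS nS hi nm (Or.inr c5) (Or.inl (e.trans e3)))
  · exact f1 _ (Or.inr (Or.inr (Or.inl rfl))) (collM1 bR nR bB bS nS hi nm (Or.inl ⟨c4, Or.inr rfl⟩)
      (Or.inl (e.trans e4)))
  · exact f1 _ (Or.inl rfl) (collM1 bR nR bB bS nS hi nm (Or.inr c5) (Or.inr (Or.inr (e.trans e5))))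
  · exact f1 _ (Or.inr (Or.inr (Or.inr rfl))) (collM1 bR nR bB bS nS hi nm (Or.inr cX)
      (Or.inl (e.trans e6)))
  · exact f1 _ (Or.inr (Or.inr (Or.inr rfl))) (collM1 bR nR bB bS nS hi nm (Or.inr cX)
      (Or.inr (Or.inr (e.trans e7))))
  · exact f1 _ (Or.inr (Or.inr (Or.inr rfl))) (collM1 bR nR bB bS nS hi nm (Or.inr cX)
      (Or.inr (Or.inl (e.trans e8))))

/-! ### Sufficient conditions -/

theorem noM_big {q : ℕ} (hq : 2 ≤ q) : NoM q R B S Z ∧ NoM9 q R Z :=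
  ⟨⟨fun h => by omega, fun h => by omega⟩, ⟨fun h => by omega, fun h => by omega⟩⟩

theorem two_mem_raise {M : Multiset ℕ} (h : 2 < M.sup) (h2 : 2 ∈ M) : 2 ∈ raise M := by
  unfold raise
  exact Multiset.mem_cons_of_mem ((Multiset.mem_erase_of_ne (by omega)).2 h2)

/-- no collision if `Z` has a part 2 -/
theorem noM_two (bR : B3 R) (nR : R ≠ .nil) (bB : B3 B) (bS : B3 S) (nS : S ≠ .nil) {q : ℕ}
    (h2 : 2 ∈ OddHC.cont Z) (h3 : 3 ≤ ht Z) : NoM q R B S Z ∧ NoM9 q R Z := by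
  have hZ : Z ≠ .nil := by
    rintro rfl
    rw [OddHC.ht] at h3
    omega
  have hs := cont_sqV hZ
  have hz' : 2 < (OddHC.cont (Tsq.sq Z).1).sup := by
    rw [← OddHC.ht_eq, (ht_sq hZ).1]; omega
  have k1 : ¬ B3 (Tsq.mir Z) := by
    intro h
    have := h 2 (by rw [HM.cont_mir]; exact h2)
    omega
  have k2 : ¬ B3 (Tsq.mir (xT Z)) := by
    intro h
    have := h 2 (by
      rw [HM.cont_mir, xT_sq, cont_node]
      rw [← hs] at h2
      rcases Multiset.mem_add.1 h2 with h4 | h4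
      · exact Multiset.mem_add.2 (Or.inl (two_mem_raise hz' h4))
      · exact Multiset.mem_add.2 (Or.inr h4))
    omega
  have b1 : B3 (R △ .nil) := bR.node nR B3.nil
  have b2 : B3 (S △ B) := bS.node nS bB
  have b3 : B ≠ .nil → B3 (app S (B △ .nil)) := fun h => bS.app (bB.node h B3.nil)
  have b4 : B3 ((R △ .nil) △ .nil) := b1.node (by simp) B3.nil
  have b5 : B3 ((S △ B) △ .nil) := b2.node (by simp) B3.nil
  have b6 : B ≠ .nil → B3 (app S (B △ .nil) △ .nil) := fun h => (b3 h).node (H1.app_ne (by simp)) B3.nil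
  refine ⟨⟨fun _ => ⟨?_, ?_, ?_, ?_, ?_⟩, fun _ => ⟨?_, ?_⟩⟩, ⟨fun _ => ?_, fun _ => ?_⟩⟩
  · intro e; rw [e] at k1; exact k1 b1
  · intro e; rw [e] at k1; exact k1 b2
  · intro hB e; rw [e] at k1; exact k1 (b3 hB)
  · intro e; rw [e] at k2; exact k2 b5
  · intro hB e; rw [e] at k2; exact k2 (b6 hB)
  · intro e; rw [e] at k1; exact k1 b5
  · intro hB e; rw [e] at k1; exact k1 (b6 hB)
  · intro e; rw [e] at k2; exact k2 b4
  · intro e; rw [e] at k1; exact k1 b4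

/-- the data of a bare window -/
theorem nodeM_data {q : ℕ} (h : HM.NodeM k q R B S) : B3 R ∧ R ≠ .nil ∧ B3 B ∧ B3 S ∧ S ≠ .nil := by
  refine ⟨fun x hx => by have := h.part x hx; omega, h.ne, fun x hx => ?_, fun x hx => ?_, ?_⟩
  · have := h.part x (by rw [← h.eq]; exact Multiset.mem_add.2 (Or.inl hx))
    omega
  · have := h.part x (by rw [← h.eq]; exact Multiset.mem_add.2 (Or.inr hx))
    omega
  · have := Tsq.sq_ne h.ne
    rwa [h.sq] at this

/-- a mirrored tree -/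
theorem mir_eq {P Q : BinaryTree Unit} (h : Tsq.mir P = Q) : P = Tsq.mir Q := by
  rw [← h, Tsq.mir_mir]

/-- **no collision of a clean mirrored window `c = 3` with a START phase** -/
theorem noM_start (h : HM.NodeM k 0 R B S) (hc : ClE 0 (Tsq.mir R) (Tsq.mir B) (Tsq.mir S))
    (hz : Start3 Z) (h3 : 3 < ht Z) : NoM 0 R B S Z ∧ (¬ St3 (Tsq.mir R) → NoM9 0 R Z) := by
  have hZ : Z ≠ .nil := by
    rintro rfl
    rw [OddHC.ht] at h3
    omega
  obtain ⟨c1, c2⟩ := hc rfl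
  obtain ⟨bR, nR, bB, bS, nS⟩ := nodeM_data h
  have h2 : ht (pc 2) = 2 := rfl
  have top := h.top
  have htS : ht S = ht R := by
    have := (ht_sq h.ne).1
    rwa [h.sq] at this
  have htB : ht B ≤ ht R := by
    have := (ht_sq h.ne).2
    rwa [h.sq] at this
  have m3 : 3 ∈ OddHC.cont B + OddHC.cont S := by rw [h.eq]; exact h.mem
  have sR : 3 < (OddHC.cont R).sup := by rw [← OddHC.ht_eq]; omega
  have sS : 3 < (OddHC.cont S).sup := by rw [← OddHC.ht_eq]; omega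
  have mB : B ≠ .nil → Tsq.mir B ≠ .nil := mir_ne
  -- `B` is not `[3]`
  have nB3 : B ≠ pc 3 := by
    rintro rfl
    exact c1 ⟨.nil, rfl⟩
  have sb : B ≠ .nil → 3 ∈ OddHC.cont (app S (B △ .nil)) := by
    intro nB
    rw [cont_app, cont_node, cont_nil, add_zero]
    by_contra hn
    rw [Multiset.mem_add, not_or] at hn
    obtain ⟨n1, n2⟩ := hn
    have m4 : 3 ∈ OddHC.cont B := by
      rcases Multiset.mem_add.1 m3 with hx | hx
      · exact hx
      · exact absurd hx n1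
    exact nB3 (eq_pc_of_cont (three_raise bB m4 n2))
  have sb' : 3 ∈ OddHC.cont (S △ B) := by
    rw [cont_node]
    rcases Multiset.mem_add.1 m3 with hx | hx
    · exact Multiset.mem_add.2 (Or.inr hx)
    · exact Multiset.mem_add.2 (Or.inl (three_mem_raise sS hx))
  have rb : 3 ∈ OddHC.cont (R △ .nil) := by
    rw [cont_node, cont_nil, add_zero]
    exact three_mem_raise sR h.mem
  have bSB : B3 (S △ B) := bS.node nS bB
  have bSb : B ≠ .nil → B3 (app S (B △ .nil)) := fun nB => bS.app (bB.node nB B3.nil)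
  have bRb : B3 (R △ .nil) := bR.node nR B3.nil
  have mSB : Tsq.mir (S △ B) = app (Tsq.mir B) (Tsq.mir S △ .nil) := rfl
  have mSb : Tsq.mir (app S (B △ .nil)) = Tsq.mir B △ Tsq.mir S := by
    rw [Tsq.mir_app]; rfl
  have mRb : Tsq.mir (R △ .nil) = Tsq.mir R △ .nil := rfl
  -- START from the mirror image
  have st : ∀ W0 : BinaryTree Unit, B3 W0 → 3 ∈ OddHC.cont W0 → OddHC.cont Z = OddHC.cont W0 → St3 Z := by
    intro W0 w1 w2 w3
    exact hz (by rw [w3]; exact w1) (by rw [w3]; exact w2)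
  have cm : ∀ W0 : BinaryTree Unit, Tsq.mir Z = W0 → OddHC.cont Z = OddHC.cont W0 := by
    intro W0 e
    rw [← e, HM.cont_mir]
  -- `X' = (Y)`
  have sq0 : ∀ W0 : BinaryTree Unit, Tsq.mir (xT Z) = W0 △ .nil →
      (Tsq.sq Z).1 = Tsq.mir W0 ∧ OddHC.cont Z = OddHC.cont W0 := by
    intro W0 e
    rw [xT_sq] at e
    have e1 := mir_eq e
    have e2 : (Tsq.sq Z).1 △ (Tsq.sq Z).2 = Tsq.mir W0 △ .nil := e1
    obtain ⟨e3, e4⟩ := H1.node_inj e2
    refine ⟨e3, ?_⟩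
    have := cont_sqV hZ
    rw [e3, e4, cont_nil, add_zero, HM.cont_mir] at this
    exact this.symm
  have sqS : ∀ Y : BinaryTree Unit, Z = pc 2 △ Y → ∃ P Q : BinaryTree Unit,
      (Tsq.sq Z).1 = (pc 2 △ P) △ Q ∧ ht P + 2 = ht Z + 0 + 1 := by
    rintro Y rfl
    rw [ht_node, h2] at h3
    have hY : 3 < ht Y := by omega
    have nY : Y ≠ .nil := by
      rintro rfl
      rw [OddHC.ht] at hY
      omega
    obtain ⟨P, Q, e, e1, e2⟩ := sq_first Y nY
    refine ⟨P, Q, ?_, ?_⟩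
    · rw [Tsq.sq_lt (by rw [H1.ht_eq, H1.ht_eq, h2]; omega) e]
    · rw [ht_node, h2]
      omega
  refine ⟨⟨fun _ => ⟨?_, ?_, ?_, ?_, ?_⟩, fun h => by omega⟩, fun hR3 => ⟨fun _ => ?_, fun h => by omega⟩⟩
  · -- `mir Z = (R)`
    intro e
    obtain ⟨Y, hY⟩ := st _ bRb rb (cm _ e)
    have e1 := mir_eq e
    rw [mRb, hY] at e1
    have e2 := congrArg ht (H1.node_inj e1).1
    rw [h2, HM.ht_mir] at e2
    omega
  · -- `mir Z = (S)B`
    intro e
    obtain ⟨Y, hY⟩ := st _ bSB sb' (cm _ e)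
    have e1 := mir_eq e
    rw [mSB, hY] at e1
    by_cases nB : B = .nil
    · rw [nB] at e1
      have e2 := congrArg ht (H1.node_inj (e1 : pc 2 △ Y = Tsq.mir S △ .nil)).1
      rw [h2, HM.ht_mir] at e2
      omega
    · cases hmB : Tsq.mir B with
      | nil => exact mB nB hmB
      | node _ B1 B2 =>
        rw [hmB] at e1
        have e2 : pc 2 △ Y = B1 △ app B2 (Tsq.mir S △ .nil) := e1
        exact c1 ⟨B2, by rw [hmB, ← (H1.node_inj e2).1]⟩
  · -- `mir Z = S(B)`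
    intro nB e
    obtain ⟨Y, hY⟩ := st _ (bSb nB) (sb nB) (cm _ e)
    have e1 := mir_eq e
    rw [mSb, hY] at e1
    have e2 := (H1.node_inj e1).1
    have e3 : B = Tsq.mir (pc 2) := by rw [e2, Tsq.mir_mir]
    have e4 := congrArg OddHC.cont e3
    rw [HM.cont_mir] at e4
    have := bB 2 (by rw [e4]; change 2 ∈ OddHC.cont (pc (1 + 1)); rw [cont_pc]; simp)
    omega
  · -- `mir X' = ((S)B)`
    intro e
    obtain ⟨e1, e2⟩ := sq0 _ e
    obtain ⟨Y, hY⟩ := st _ bSB sb' e2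
    obtain ⟨P, Q, e3, e4⟩ := sqS Y hY
    rw [e3, mSB] at e1
    by_cases nB : B = .nil
    · rw [nB] at e1
      have e5 := (H1.node_inj (e1 : (pc 2 △ P) △ Q = Tsq.mir S △ .nil)).1
      exact c2 (by rw [nB]; rfl) ⟨P, e5.symm⟩
    · cases hmB : Tsq.mir B with
      | nil => exact mB nB hmB
      | node _ B1 B2 =>
        rw [hmB] at e1
        have e5 : (pc 2 △ P) △ Q = B1 △ app B2 (Tsq.mir S △ .nil) := e1
        have e6 := (H1.node_inj e5).1
        have e7 : ht (Tsq.mir B) = ht B := HM.ht_mir B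
        rw [hmB, ← e6, ht_node, ht_node, h2] at e7
        have e8 : ht Z = (OddHC.cont (S △ B)).sup := by rw [OddHC.ht_eq, e2]
        rw [← OddHC.ht_eq, ht_node] at e8
        omega
  · -- `mir X' = (S(B))`
    intro nB e
    obtain ⟨e1, e2⟩ := sq0 _ e
    obtain ⟨Y, hY⟩ := st _ (bSb nB) (sb nB) e2
    obtain ⟨P, Q, e3, e4⟩ := sqS Y hY
    rw [e3, mSb] at e1
    exact c1 ⟨P, (H1.node_inj e1).1.symm⟩
  · -- `mir X' = ((R))`
    intro e
    obtain ⟨e1, e2⟩ := sq0 _ e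
    obtain ⟨Y, hY⟩ := st _ bRb rb e2
    obtain ⟨P, Q, e3, e4⟩ := sqS Y hY
    rw [e3, mRb] at e1
    exact hR3 ⟨P, (H1.node_inj e1).1.symm⟩

/-! ### The rows -/

variable {F F' : Set (Cyc k)} {g g' : DG k}

theorem nodeM_collM {q : ℕ} (h : HM.NodeM k q R B S) {w0 : X k} (h0 : (OddHC.cont Z).count 1 = 0) (h3 : 2 ≤ ht Z)
    {i j : ℕ} (hi : i < 20) (hj : j < 9) (e : (HM.mX R B S q w0 i).1 = w9L .nil .nil Z (xT Z) j) :
    ¬ NoM q R B S Z ∨ (i = 9 ∧ ¬ NoM9 q R Z) := by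
  obtain ⟨bR, nR, bB, bS, nS⟩ := nodeM_data h
  have e1 : Tsq.mir (H1.wX R B S q w0 i).1 = w9L .nil .nil Z (xT Z) j := e
  rw [wX_eq h.dat h.size w0 hi] at e1
  exact collM bR nR bB bS nS h0 h3 hi hj (mir_eq e1)

/-- **W-A0-JV, general form** -/
theorem tyA0_JVg (h : TyA0 F g) (h9 : Is9 .nil .nil Z F' g') (h0 : (OddHC.cont Z).count 1 = 0) (h3 : 2 ≤ ht Z)
    (hx : ∀ q R B S w0, HM.NodeM k q R B S → g = gad20M (HM.mX R B S q w0) → NoM q R B S Z ∧ NoM9 q R Z) :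
    Disjoint g.B g'.B := by
  obtain ⟨q, R, B, S, w0, h1, hne, rfl, rfl⟩ := h
  rw [Finset.disjoint_left]
  intro w hw hw'
  obtain ⟨i, hi, rfl⟩ := mem_gad20M.1 hw
  obtain ⟨j, hj, e, -⟩ := h9.words _ hw'
  obtain ⟨x1, x2⟩ := hx q R B S w0 h1 rfl
  rcases nodeM_collM h1 h0 h3 hi hj e with c | ⟨-, c⟩
  · exact c x1
  · exact c x2

/-- **W-B0-JV, general form** -/
theorem tyB0_JVg (h : TyB0 F g) (h9 : Is9 .nil .nil Z F' g') (h0 : (OddHC.cont Z).count 1 = 0) (h3 : 2 ≤ ht Z)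
    (hx : ∀ q R B S w0, HM.NodeM k q R B S → g = gadSM (HM.mX R B S q w0) → NoM q R B S Z) :
    Disjoint g.B g'.B := by
  obtain ⟨q, R, B, S, w0, h1, hne, _, _, rfl, rfl⟩ := h
  rw [Finset.disjoint_left]
  intro w hw hw'
  obtain ⟨i, hi, hi9, rfl⟩ := mem_gadSM.1 hw
  obtain ⟨j, hj, e, -⟩ := h9.words _ hw'
  rcases nodeM_collM h1 h0 h3 hi hj e with c | ⟨c, -⟩
  · exact c (hx q R B S w0 h1 rfl)
  · exact hi9 c

/-- **W-A0-JV**, `Z` with a part 2 -/
theorem tyA0_JV2 (h : TyA0 F g) (h9 : Is9 .nil .nil Z F' g') (h0 : (OddHC.cont Z).count 1 = 0)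
    (h2 : 2 ∈ OddHC.cont Z) (h3 : 3 ≤ ht Z) : Disjoint g.B g'.B := by
  refine tyA0_JVg h h9 h0 (by omega) ?_
  intro q R B S w0 h1 _
  obtain ⟨bR, nR, bB, bS, nS⟩ := nodeM_data h1
  exact noM_two bR nR bB bS nS h2 h3

/-- **W-B0-JV**, `Z` with a part 2 -/
theorem tyB0_JV2 (h : TyB0 F g) (h9 : Is9 .nil .nil Z F' g') (h0 : (OddHC.cont Z).count 1 = 0)
    (h2 : 2 ∈ OddHC.cont Z) (h3 : 3 ≤ ht Z) : Disjoint g.B g'.B := by
  refine tyB0_JVg h h9 h0 (by omega) ?_
  intro q R B S w0 h1 _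
  obtain ⟨bR, nR, bB, bS, nS⟩ := nodeM_data h1
  exact (noM_two bR nR bB bS nS h2 h3).1

/-- **W-A0c-JV** : a clean mirrored window `c = 3` against START phases of JV -/
theorem tyA0c_JV (h : TyA0c F g) (h9 : Is9 .nil .nil Z F' g') (h0 : (OddHC.cont Z).count 1 = 0)
    (h3 : 3 < ht Z) (hz : Start3 Z) : Disjoint g.B g'.B := by
  obtain ⟨R, B, S, w0, h1, hne, hR, hc, rfl, rfl⟩ := h
  rw [Finset.disjoint_left]
  intro w hw hw'
  obtain ⟨i, hi, rfl⟩ := mem_gad20M.1 hw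
  obtain ⟨j, hj, e, -⟩ := h9.words _ hw'
  obtain ⟨x1, x2⟩ := noM_start h1 hc hz h3
  rcases nodeM_collM h1 h0 (by omega) hi hj e with c | ⟨-, c⟩
  · exact c x1
  · exact c (x2 hR)

/-- **W-B0c-JV** : against START phases of JV; `c = 4`: the words of the window over `R` with `mir Z = ((S)B)`, `(S(B))` -/
theorem tyB0c_JV (h : TyB0c F g) (h9 : Is9 .nil .nil Z F' g') (h0 : (OddHC.cont Z).count 1 = 0)
    (h3 : 3 < ht Z) (hz : Start3 Z)
    (h4 : ∀ R B S w0, HM.NodeM k 1 R B S → g = gadSM (HM.mX R B S 1 w0) → NoM 1 R B S Z) :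
    Disjoint g.B g'.B := by
  obtain ⟨q, R, B, S, w0, h1, hne, h12, h18, hc, rfl, rfl⟩ := h
  rw [Finset.disjoint_left]
  intro w hw hw'
  obtain ⟨i, hi, hi9, rfl⟩ := mem_gadSM.1 hw
  obtain ⟨j, hj, e, -⟩ := h9.words _ hw'
  rcases nodeM_collM h1 h0 (by omega) hi hj e with c | ⟨c, -⟩
  · rcases Nat.lt_or_ge q 2 with hq | hq
    · interval_cases q
      · exact c (noM_start h1 hc hz h3).1
      · exact c (h4 R B S w0 h1 rfl)
    · exact c (noM_big hq).1
  · exact hi9 c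

end J1V

end Pool.OddHC
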