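import Pool.Agent.Work.MP_8f87b2_fin.MatZ
import Pool.Agent.Work.MP_8f87b2_h52.R3JV

/-!
# MP_8f87b2_co: sides of the JV rows from `JVok`

`JVok Z` and `4 ≤ ht Z` give the sides of JV against the right windows (R, RE), the content links (Cl) and DOWN.
-/

set_option autoImplicit false

namespace Pool.OddHC

open Finset Equiv BinaryTree Pool.Agent.Work.MP_8f87b2_co

open H1 MW

variable {k : ℕ} {F F' : Set (Cyc k)} {g g' : DG k} {Z : BinaryTree Unit}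

/-- the gadget JV at an admissible phase -/
def JVo (F : Set (Cyc k)) (g : DG k) : Prop :=
  ∃ Z : BinaryTree Unit, JVok Z ∧ 4 ≤ OddHC.ht Z ∧ Is9 .nil .nil Z F g

/-- the phase is no single component -/
theorem JVok.two_comps (h : JVok Z) : ∀ Y, Z ≠ Y △ .nil := by
  obtain ⟨c, Y, h1, rfl, h3, _⟩ := h.start
  intro Y' e
  obtain ⟨d, rfl⟩ : ∃ d, c = d + 1 := ⟨c - 1, by omega⟩
  have e' : H1.ch d △ Y = Y' △ .nil := e
  have h4 := (H1.node_inj e').2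
  subst h4
  rw [OddHC.ht] at h3
  omega

/-- the phase starts with `[3]` if 3 is the smallest part -/
theorem JVok.start3 (h : JVok Z) : J1V.Start3 Z := by
  intro h1 h2
  obtain ⟨c, Y, c3, rfl, h3, h4⟩ := h.start
  have h5 : c = 3 := by
    rcases h4 3 h2 with h6 | h6 <;> omega
  subst h5
  exact ⟨Y, rfl⟩

theorem JVok.cnt (h : JVok Z) : (OddHC.cont Z).count 1 = 0 := Multiset.count_eq_zero.2 h.one

/-- side R - JV -/
theorem JVo.sR (h : RqS F g) (h' : JVo F' g') : sR_JV F F' g g' := by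
  obtain ⟨Z, ho, h4, h9⟩ := h'
  refine ⟨Z, h9, ho.cnt, by omega, ?_⟩
  rcases h with h | ⟨q, hq, h⟩
  · exact Or.inr (Or.inl ⟨h, by omega, ho.start3⟩)
  · rcases Nat.lt_or_ge 1 q with h5 | h5
    · exact Or.inr (Or.inr (Or.inr (Or.inl ⟨q, h5, h⟩)))
    · obtain rfl : q = 1 := by omega
      exact Or.inr (Or.inr (Or.inl ⟨h, ho.two_comps⟩))

/-- side RE - JV -/
theorem JVo.sRE (h' : JVo F' g') : sRE_JV F' g' := by
  obtain ⟨Z, ho, h4, h9⟩ := h'
  exact ⟨Z, h9, ho.cnt, by omega, Or.inr ho.two_comps⟩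

/-- side Cl - JV -/
theorem JVo.sCl (h : ClS F g) (h' : JVo F' g') : sJV_Cl F F' g g' := by
  obtain ⟨Z, ho, h4, h9⟩ := h'
  obtain ⟨c, R, h1, h2, _, _, _, _, h5⟩ := h
  exact ⟨c, R, Z, h1, h2, h5, ⟨ho.cnt, h9⟩, fun _ => ho.two_comps⟩

/-- side Dn - JV -/
theorem JVo.sDn (h : TyDn F g) (h' : JVo F' g') : sDn_JV F F' g g' := by
  obtain ⟨Z, ho, h4, h9⟩ := h'
  obtain ⟨U, h1, h2⟩ := h
  exact ⟨U, Z, h2, h1, ⟨ho.cnt, h9⟩, ho.two_comps U⟩

/-- JV as a type -/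
theorem JVo.toJVS (h : JVo F g) : JVS F g := by
  obtain ⟨Z, ho, h4, h9⟩ := h
  exact ⟨Z, ho.cnt, by omega, h9⟩

end Pool.OddHC
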