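import Pool.Agent.Work.MP_8f87b2_h49.JVside

/-!
# MP_8f87b2_co: the sides A, Aq, Az - J1 from the height

The content `{k - 4, 3, 1}` has height `k - 4` (the layer `t = 4`, a top layer): no group of height at most `k - 5` has it.
-/

set_option autoImplicit false

namespace Pool.OddHC

open Finset Equiv BinaryTree Pool.Agent.Work.MP_8f87b2_co

variable {k : ℕ} {F : Set (Cyc k)}

theorem side_J1_ht (h : ∀ c ∈ F, htc c + 5 ≤ k) : ∀ c ∈ F, contc c ≠ {k - 4} + {3} + {1} := by
  intro c hc e
  have h1 := h c hc
  have h2 : htc c = (contc c).sup := rfl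
  rw [e] at h2
  have h3 : ({k - 4} + {3} + {1} : Multiset ℕ).sup ≥ k - 4 := by
    rw [Multiset.sup_add, Multiset.sup_add, Multiset.sup_singleton]
    exact le_sup_of_le_left le_sup_left
  omega

end Pool.OddHC
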